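import Pool.Agent.Lib.MP_127c84_nt.EN.OneG

open Finset Filter Topology MeasureTheory
open Pool.Agent.Lib.MP_0d244d_nt.PS

namespace Pool.Agent.Lib.MP_127c84_nt.EN

lemma AeS_rh (m : ℕ) : ((2 ^ (m / 2) : ℕ) : ℝ) * rh m = 1 := by
  unfold rh; push_cast; rw [← mul_pow]; norm_num

theorem tg_spec {η c : ℝ} (h0 : 0 < η) (hc : c ∈ Set.Icc (1 + η) (3 / 2 - η)) (m : ℕ) :
    1 + η ≤ tg η m c ∧ tg η m c ≤ 3 / 2 - η ∧ c ∈ Set.Ico (tg η m c) (tg η m c + rh m) ∧
      ⌊(c - (1 + η)) / rh m⌋₊ ∈ TT η m := by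
  have hρ := rh_pos m
  have a0 : 0 ≤ (c - (1 + η)) / rh m := div_nonneg (sub_nonneg.2 hc.1) hρ.le
  have a1 : (⌊(c - (1 + η)) / rh m⌋₊ : ℝ) * rh m ≤ c - (1 + η) :=
    (le_div_iff₀ hρ).1 (Nat.floor_le a0)
  have a2 : c - (1 + η) < (⌊(c - (1 + η)) / rh m⌋₊ + 1 : ℝ) * rh m :=
    (div_lt_iff₀ hρ).1 (Nat.lt_floor_add_one _)
  have a3 := hc.2
  have a4 : 0 ≤ (⌊(c - (1 + η)) / rh m⌋₊ : ℝ) * rh m := by positivity
  unfold tg TT
  refine ⟨by linarith, by linarith, ⟨by linarith, by linarith⟩,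
    mem_filter.2 ⟨mem_range.2 ?_, by linarith⟩⟩
  rw [Nat.floor_lt a0, div_lt_iff₀ hρ, AeS_rh]
  linarith

theorem tg_eq {η c : ℝ} {m k : ℕ}
    (hc : c ∈ Set.Ico (1 + η + k * rh m) (1 + η + k * rh m + rh m)) :
    tg η m c = 1 + η + k * rh m := by
  have hρ := rh_pos m
  have a1 : (k : ℝ) ≤ (c - (1 + η)) / rh m := by
    rw [le_div_iff₀ hρ]; linarith [hc.1]
  have a2 : (c - (1 + η)) / rh m < k + 1 := by
    rw [div_lt_iff₀ hρ]; linarith [hc.2]
  unfold tg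
  rw [(Nat.floor_eq_iff ((Nat.cast_nonneg k).trans a1)).2 ⟨a1, a2⟩]

/-- step functions with summable integrals are summable almost everywhere -/
theorem ae_steps {η : ℝ} (h0 : 0 < η) (V : ℕ → ℝ → ℝ) (hV : ∀ m t, 0 ≤ V m t)
    (hs : Summable fun m => ∑ k ∈ TT η m, rh m * V m (1 + η + k * rh m)) :
    ∀ᵐ c : ℝ, c ∈ Set.Icc (1 + η) (3 / 2 - η) → Summable fun m => V m (tg η m c) := by
  set s : ℕ → ℝ → ENNReal := fun m c => ∑ k ∈ TT η m,
    (Set.Ico (1 + η + k * rh m) (1 + η + k * rh m + rh m)).indicator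
      (fun _ => ENNReal.ofReal (V m (1 + η + k * rh m))) c with hsd
  have hm : ∀ (m k : ℕ), Measurable
      ((Set.Ico (1 + η + k * rh m) (1 + η + k * rh m + rh m)).indicator
        (fun _ : ℝ => ENNReal.ofReal (V m (1 + η + k * rh m)))) :=
    fun m k => measurable_const.indicator measurableSet_Ico
  have hsm : ∀ m, Measurable (s m) := fun m => Finset.measurable_sum _ fun k _ => hm m k
  have hi : ∀ m, ∫⁻ c, s m c =
      ENNReal.ofReal (∑ k ∈ TT η m, rh m * V m (1 + η + k * rh m)) := by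
    intro m
    rw [hsd, lintegral_finsetSum _ fun k _ => hm m k,
      ENNReal.ofReal_sum_of_nonneg fun k _ => mul_nonneg (rh_pos m).le (hV _ _)]
    refine sum_congr rfl fun k _ => ?_
    rw [lintegral_indicator_const measurableSet_Ico, Real.volume_Ico, add_sub_cancel_left,
      ENNReal.ofReal_mul (rh_pos m).le, mul_comm]
  have ht : ∫⁻ c, ∑' m, s m c ≠ ⊤ := by
    rw [lintegral_tsum fun m => (hsm m).aemeasurable]
    simp only [hi]
    exact hs.tsum_ofReal_ne_top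
  filter_upwards [ae_lt_top (Measurable.tsum hsm) ht] with c hc hcI
  have hle : ∀ m, ENNReal.ofReal (V m (tg η m c)) ≤ s m c := by
    intro m
    obtain ⟨-, -, b3, b4⟩ := tg_spec h0 hcI m
    refine le_trans (le_of_eq ?_) (single_le_sum (f := fun k : ℕ =>
      (Set.Ico (1 + η + k * rh m) (1 + η + k * rh m + rh m)).indicator
        (fun _ => ENNReal.ofReal (V m (1 + η + k * rh m))) c) (fun _ _ => zero_le) b4)
    exact (Set.indicator_of_mem b3 (fun _ => ENNReal.ofReal (V m (tg η m c)))).symm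
  have hne : ∑' m, ENNReal.ofReal (V m (tg η m c)) ≠ ⊤ :=
    ne_top_of_le_ne_top hc.ne (ENNReal.tsum_le_tsum hle)
  refine (ENNReal.summable_toReal hne).congr fun m => ENNReal.toReal_ofReal (hV _ _)

/-- almost every exponent has window sums close to the block averages -/
theorem exc {η : ℝ} (h0 : 0 < η) (h1 : η < 1 / 8) {J : ℕ} (hJ : 1 ≤ J)
    (F : ℕ → Finset ℕ → ℝ) (C : ℕ → ℝ)
    (hF : ∀ᶠ m : ℕ in atTop, 0 < C m ∧ ∀ S, S ⊆ range (QQ 4 J (lv m)) → |F m S| ≤ C m) :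
    ∀ᵐ c : ℝ, c ∈ Set.Icc (1 + η) (3 / 2 - η) → ∀ᶠ m : ℕ in atTop,
      |WS (2 ^ m) (QQ 4 J (lv m)) c (F m) - BS (2 ^ m) (QQ 4 J (lv m))
        (2 ^ (jj (2 ^ m) (tg η m c) + kk J (lv m))) (tg η m c) c (F m)| ≤
        4 * C m * ((2 ^ m : ℕ) : ℝ) / (QQ 4 J (lv m) : ℝ) ^ 3 := by
  classical
  have hgeo := ev_lv (P := fun e m => ∀ t : ℝ, 1 + η ≤ t → t ≤ 3 / 2 - η →
      Geo (2 ^ m) (QQ 4 J e) (2 ^ jj (2 ^ m) t) (2 ^ (jj (2 ^ m) t + kk J e)) t (rh m))
    ((geo_ev h0 h1 (lam := 4) (by norm_num) hJ).mono fun e he m a b t c d => (he m a b t c d).1)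
  have hQ := ev_lv (P := fun e m => m ≤ QQ 4 J e)
    ((par_ok h0 (lam := 4) (by norm_num) hJ).mono fun e he m _ b => by
      have := he.1
      rw [pow_succ] at b
      omega)
  obtain ⟨m0, hm0⟩ := eventually_atTop.1 (hF.and (hgeo.and (hQ.and (eventually_ge_atTop 1))))
  let P : ℕ → ℝ → Prop := fun m c => 4 * C m * ((2 ^ m : ℕ) : ℝ) / (QQ 4 J (lv m) : ℝ) ^ 3 <
    |WS (2 ^ m) (QQ 4 J (lv m)) c (F m) - BS (2 ^ m) (QQ 4 J (lv m))
      (2 ^ (jj (2 ^ m) (tg η m c) + kk J (lv m))) (tg η m c) c (F m)|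
  set s : ℕ → Set ℝ := fun m => {c | m0 ≤ m ∧ c ∈ Set.Icc (1 + η) (3 / 2 - η) ∧ P m c} with hs
  have hb : ∀ m, volume (s m) ≤ ENNReal.ofReal (4 * (1 / (m : ℝ) ^ 2)) := by
    intro m
    by_cases hm : m0 ≤ m
    · obtain ⟨⟨c0, c1⟩, c2, c3, c4⟩ := hm0 m hm
      have hρ := rh_pos m
      have step : ∀ k ∈ (range (2 ^ (m / 2))).filter
          (fun k : ℕ => 1 + η + k * rh m ≤ 3 / 2 - η),
          volume {c | c ∈ Set.Ico (1 + η + k * rh m) (1 + η + k * rh m + rh m) ∧ P m c} ≤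
            ENNReal.ofReal (4 * rh m / (QQ 4 J (lv m) : ℝ) ^ 2) := by
        intro k hk
        refine le_trans (measure_mono fun c hc => ?_) (one_gen (c2 (1 + η + k * rh m)
          (le_add_of_nonneg_right (by positivity)) (mem_filter.1 hk).2) (F m) c0 c1)
        refine ⟨hc.1, ?_⟩
        have := hc.2
        simp only [P, tg_eq hc.1] at this
        exact this
      refine le_trans (measure_mono fun c hc => hc.2) ((measA_cover hρ (K := 2 ^ (m / 2))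
        (by rw [AeS_rh]; linarith) (P m)).trans ((sum_le_sum step).trans ?_))
      rw [← ENNReal.ofReal_sum_of_nonneg fun _ _ => by positivity]
      refine ENNReal.ofReal_le_ofReal ?_
      rw [sum_const, nsmul_eq_mul]
      have d1 : (((range (2 ^ (m / 2))).filter
          (fun k : ℕ => 1 + η + k * rh m ≤ 3 / 2 - η)).card : ℝ) ≤ ((2 ^ (m / 2) : ℕ) : ℝ) := by
        exact_mod_cast (card_filter_le _ _).trans (card_range _).le
      have d2 : (0 : ℝ) < m := by exact_mod_cast c4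
      have d3 : (m : ℝ) ≤ QQ 4 J (lv m) := by exact_mod_cast c3
      calc _ ≤ ((2 ^ (m / 2) : ℕ) : ℝ) * (4 * rh m / (m : ℝ) ^ 2) := by gcongr
        _ = 4 * (((2 ^ (m / 2) : ℕ) : ℝ) * rh m / (m : ℝ) ^ 2) := by ring
        _ = _ := by rw [AeS_rh]
    · have h4 : s m = ∅ := by
        ext c
        simp [hs, hm]
      simp [h4]
  have hsum : Summable fun m : ℕ => 4 * (1 / (m : ℝ) ^ 2) :=
    (Real.summable_one_div_nat_pow.2 (by norm_num)).mul_left 4
  have hne : ∑' m, volume (s m) ≠ ⊤ :=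
    ne_top_of_le_ne_top hsum.tsum_ofReal_ne_top (ENNReal.tsum_le_tsum hb)
  filter_upwards [ae_eventually_notMem hne] with c hc hcI
  filter_upwards [hc, eventually_ge_atTop m0] with m hm hm'
  by_contra hcon
  exact hm ⟨hm', hcI, lt_of_not_ge hcon⟩

end Pool.Agent.Lib.MP_127c84_nt.EN
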