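import Pool.Agent.Lib.MP_127c84_nt.EN.Pt
import Pool.Agent.Lib.MP_127c84_nt.EN.AeS

open Finset Filter Topology MeasureTheory
open Pool.Agent.Lib.MP_0d244d_nt.PS

namespace Pool.Agent.Lib.MP_127c84_nt.EN

lemma AeA_QQ (e : ℕ) : QQ 4 1 e = 4 * 2 ^ e := by simp [QQ]

lemma AeA_low {N Q m : ℝ} (hN : 0 < N) (hm : 1 ≤ m) (hQ : 1000 ≤ Q) (hQm : 2 * m ≤ Q) :
    N / (100 * m) ≤ N / (80 * (m * Real.log 2)) - 8 * N / Q ^ 2 := by
  have l1 := Real.log_two_lt_d9
  have l2 := Real.log_two_gt_d9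
  have m0 : 0 < m := by linarith
  have h1 : N / (56 * m) ≤ N / (80 * (m * Real.log 2)) := by
    apply div_le_div_of_nonneg_left hN.le (by positivity)
    nlinarith
  have h2 : 8 * N / Q ^ 2 ≤ 8 * N / (2000 * m) := by
    apply div_le_div_of_nonneg_left (by positivity) (by positivity)
    nlinarith
  have h3 : N / (56 * m) = 1 / 56 * (N / m) := by field_simp
  have h4 : 8 * N / (2000 * m) = 1 / 250 * (N / m) := by field_simp; norm_num
  have h5 : N / (100 * m) = 1 / 100 * (N / m) := by field_simp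
  have h6 : 0 < N / m := by positivity
  linarith

lemma AeA_up {N Q m E κ : ℝ} (hN : 0 < N) (hm : 1 ≤ m) (hQm : 2 * m ≤ Q) (hE : m ≤ 2 * E)
    (hκ : 1 ≤ κ) : κ / E * N + 9 * N / Q ^ 2 ≤ (2 * κ + 9) * N / m := by
  have m0 : 0 < m := by linarith
  have E0 : 0 < E := by linarith
  have h1 : κ / E ≤ 2 * κ / m := by
    rw [div_le_div_iff₀ E0 m0]
    nlinarith
  have h2 : 9 * N / Q ^ 2 ≤ 9 * N / m := by
    apply div_le_div_of_nonneg_left (by positivity) m0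
    nlinarith
  have h3 := mul_le_mul_of_nonneg_right h1 hN.le
  have h4 : (2 * κ + 9) * N / m = 2 * κ / m * N + 9 * N / m := by field_simp
  linarith

theorem ae_cnt {η : ℝ} (h0 : 0 < η) (h1 : η < 1 / 8) :
    ∀ᵐ c : ℝ, c ∈ Set.Icc (1 + η) (3 / 2 - η) → Cnt c := by
  have hθ : 0 < η / 2 := by linarith
  obtain ⟨κ, hκ, hbt⟩ := bt hθ (by linarith)
  have hexc := exc h0 h1 (J := 1) le_rfl (fun _ => Fc) (fun m => (QQ 4 1 (lv m) : ℝ))
    (Eventually.of_forall fun m => ⟨by rw [AeA_QQ]; positivity, fun S hS => by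
      have := card_le_card hS
      rw [card_range] at this
      unfold Fc
      rw [Nat.abs_cast]
      exact_mod_cast this⟩)
  have hgeo := ev_lv (geo_ev h0 h1 (lam := 4) (J := 1) (by norm_num) le_rfl)
  have hpar := lv_tendsto.eventually (par_ok hθ (lam := 4) (J := 1) (by norm_num) le_rfl)
  have hvis := (tendsto_pow_atTop_atTop_of_one_lt (r := (2 : ℕ)) one_lt_two).eventually vis_primes
  filter_upwards [hexc] with c hc hcI
  refine ⟨2 * κ + 9, ?_⟩
  filter_upwards [hc hcI, hgeo, hpar, hvis, lv_tendsto.eventually hbt, eventually_ge_atTop 1]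
    with m hd hg hp hv hb hm
  obtain ⟨t1, t2, t3, -⟩ := tg_spec h0 hcI m
  obtain ⟨g1, g2, -⟩ := hg _ t1 t2
  have hm0 : m ≠ 0 := by omega
  have e1 := lv_le hm0
  have e2 := lt_lv m
  generalize tg η m c = t at *
  generalize jj (2 ^ m) t = j at *
  generalize lv m = e at *
  obtain ⟨-, -, -, p4⟩ := hp.2.2.2 j 0 g2
  have hQ := g1.hQ
  have E0 : (0 : ℝ) < 2 ^ e := by positivity
  have j0 : (0 : ℝ) < j := lt_of_lt_of_le (by positivity) g2
  have j1 : 1 ≤ j := by exact_mod_cast j0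
  have hY : 2 ^ j * QQ 4 1 e ^ 5 ≤ 2 ^ (j + kk 1 e) :=
    le_trans (Nat.mul_le_mul_left _ (Nat.pow_le_pow_right (by omega) (by norm_num))) p4
  have hs : ∀ s ∈ SR (2 ^ m * 2 ^ j) (2 ^ (j + kk 1 e)),
      piB (2 ^ (j + kk 1 e)) s ≤ κ / 2 ^ e * ((2 ^ (j + kk 1 e) : ℕ) : ℝ) := by
    intro s hs
    have x1 := measA_low e1 j1 hs
    have x2 := hb (j + kk 1 e) ((s : ℤ) * ((2 ^ (j + kk 1 e) : ℕ) : ℤ))
      (by
        have : (0 : ℝ) ≤ kk 1 e := by positivity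
        push_cast
        linarith)
      (by exact_mod_cast x1)
    unfold piB
    rw [div_mul_eq_mul_div, le_div_iff₀ E0, mul_comm]
    push_cast at x2 ⊢
    exact x2
  obtain ⟨c1, c2⟩ := cnt_two g1 t3 hY (β := κ / 2 ^ e) (by positivity) hs
    (hv _ _ _ _ _ _ g1 t3) hd
  have m1 : (1 : ℝ) ≤ m := by exact_mod_cast hm
  have q1 : (1000 : ℝ) ≤ QQ 4 1 e := by exact_mod_cast hQ
  have m2 : (m : ℝ) ≤ 2 * 2 ^ e := by
    have : m ≤ 2 * 2 ^ e := by rw [pow_succ] at e2; omega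
    exact_mod_cast this
  have q2 : 2 * (m : ℝ) ≤ QQ 4 1 e := by
    rw [AeA_QQ]
    push_cast
    linarith
  have N0 : (0 : ℝ) < 2 ^ m := by positivity
  push_cast at c1 c2
  rw [Real.log_pow] at c1
  exact ⟨(AeA_low N0 m1 q1 q2).trans c1, c2.trans (AeA_up N0 m1 q2 m2 hκ)⟩

end Pool.Agent.Lib.MP_127c84_nt.EN
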