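import Pool.Agent.Lib.MP_127c84_nt.EN.DetUp

open Finset Filter Topology MeasureTheory
open Pool.Agent.Lib.MP_0d244d_nt.PS

namespace Pool.Agent.Lib.MP_127c84_nt.EN

lemma BarUp_sub {G : ℕ} (hG : 0 < G) (Y : ℕ) (x0 : ℤ) {σ : ℤ} (h0 : 0 ≤ σ) (h1 : σ ≤ G * Y)
    {F : ℤ → ℝ} (hF : ∀ u, 0 ≤ F u) :
    ∑ A ∈ Ico ((G : ℤ) * x0) (G * (x0 + Y)), F (A + σ) ≤
      ∑ x ∈ Ico x0 (x0 + 2 * Y), ∑ τ ∈ Ico (0 : ℤ) G, F (G * x + τ) := by
  classical
  have hG' : (0 : ℤ) < G := by exact_mod_cast hG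
  rw [← sum_product']
  have e : ∑ A ∈ Ico ((G : ℤ) * x0) (G * (x0 + Y)), F (A + σ) =
      ∑ y ∈ (Ico ((G : ℤ) * x0) (G * (x0 + Y))).image
        (fun A => ((A + σ) / G, (A + σ) % G)), F (G * y.1 + y.2) := by
    rw [sum_image]
    · refine sum_congr rfl fun A _ => ?_
      simp only [Int.mul_ediv_add_emod]
    · intro A _ A' _ h
      simp only [Prod.mk.injEq] at h
      have a := Int.mul_ediv_add_emod (A + σ) G
      have b := Int.mul_ediv_add_emod (A' + σ) G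
      rw [h.1, h.2] at a
      linarith
  rw [e]
  refine sum_le_sum_of_subset_of_nonneg (fun y hy => ?_) fun _ _ _ => hF _
  obtain ⟨A, hA, rfl⟩ := mem_image.1 hy
  rw [mem_Ico] at hA
  simp only [mem_product, mem_Ico]
  refine ⟨⟨?_, ?_⟩, Int.emod_nonneg _ hG'.ne', Int.emod_lt_of_pos _ hG'⟩
  · rw [Int.le_ediv_iff_mul_le hG']
    linarith [hA.1]
  · rw [Int.ediv_lt_iff_lt_mul hG']
    linarith [hA.2]

lemma BarUp_many {x0 : ℤ} {D : ℕ} {β : ℝ}
    (hD : ∀ x, x0 ≤ x → ∑ y ∈ Ico x (x + D), iP PR y ≤ β * D) (n : ℕ) {x : ℤ} (hx : x0 ≤ x) :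
    ∑ y ∈ Ico x (x + n * D), iP PR y ≤ n * (β * D) := by
  induction n with
  | zero => simp
  | succ n ih =>
    have h1 : (0 : ℤ) ≤ n * D := by positivity
    have h2 : (0 : ℤ) ≤ D := by positivity
    have e : x + ((n + 1 : ℕ) : ℤ) * D = x + n * D + D := by push_cast; ring
    rw [e, ← Ico_union_Ico_eq_Ico (show x ≤ x + n * D by linarith)
      (show x + n * D ≤ x + n * D + D by linarith),
      sum_union (Ico_disjoint_Ico_consecutive _ _ _)]
    have h3 := hD (x + n * D) (by linarith)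
    push_cast
    linarith

lemma BarUp_fibre {G k : ℤ} (hG : 0 < G) (hk : 0 < k) (hkG : k ≤ G) (s : Finset ℤ) (x τ y : ℤ) :
    (k : ℝ) * (s.filter fun B => x + (τ + B * k) / G = y).card ≤ 2 * G := by
  classical
  set u : ℤ := G * (y - x) + G - 1 - τ with hu
  have h1 : (s.filter fun B => x + (τ + B * k) / G = y) ⊆ Ioc ((u - G) / k) (u / k) := by
    intro B hB
    have h := (mem_filter.1 hB).2
    have a := Int.mul_ediv_add_emod (τ + B * k) G
    have b := Int.emod_nonneg (τ + B * k) hG.ne'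
    have c := Int.emod_lt_of_pos (τ + B * k) hG
    have d : (τ + B * k) / G = y - x := by linarith
    rw [d] at a
    rw [mem_Ioc, Int.ediv_lt_iff_lt_mul hk, Int.le_ediv_iff_mul_le hk]
    constructor <;> linarith
  have h2 : k * ((Ioc ((u - G) / k) (u / k)).card : ℤ) ≤ 2 * G := by
    have m1 : (u - G) / k ≤ u / k := Int.ediv_le_ediv hk (by linarith)
    rw [Int.card_Ioc, Int.toNat_of_nonneg (by linarith)]
    have a1 := Int.ediv_mul_le u hk.ne'
    have a4 := Int.lt_ediv_add_one_mul_self (u - G) hk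
    nlinarith
  have h3 : ((s.filter fun B => x + (τ + B * k) / G = y).card : ℤ) ≤
      (Ioc ((u - G) / k) (u / k)).card := by exact_mod_cast card_le_card h1
  have h4 : k * ((s.filter fun B => x + (τ + B * k) / G = y).card : ℤ) ≤ 2 * G :=
    (mul_le_mul_of_nonneg_left h3 hk.le).trans h2
  exact_mod_cast h4

lemma BarUp_slopes {p : Par} (hp : p.Ok) {β : ℝ}
    (hD : ∀ x, p.x0 ≤ x → ∑ y ∈ Ico x (x + p.D), iP PR y ≤ β * p.D)
    {k : ℕ} (hk : 0 < k) (hkG : k ≤ p.G) {x τ : ℤ} (hx : p.x0 ≤ x) (hτ : τ ∈ Ico (0 : ℤ) p.G) :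
    ∑ B ∈ p.LB, iP PR (x + (τ + B * k) / p.G) ≤ 8 * p.G * (β * p.D) := by
  classical
  have hG : (0 : ℤ) < p.G := by exact_mod_cast hp.G_pos
  have hDp : (0 : ℤ) < p.D := by exact_mod_cast hp.D_pos
  have hk' : (0 : ℤ) < k := by exact_mod_cast hk
  have hkG' : (k : ℤ) ≤ p.G := by exact_mod_cast hkG
  have hkr : (0 : ℝ) < k := by exact_mod_cast hk
  have hkD : (0 : ℤ) < k * p.D := mul_pos hk' hDp
  rw [mem_Ico] at hτ
  have hmap : ∀ B ∈ p.LB, x + (τ + B * k) / p.G ∈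
      Ico (x + k * p.D) (x + k * p.D + ((4 * k : ℕ) : ℤ) * p.D) := by
    intro B hB
    rw [Par.LB, mem_Ico] at hB
    have a1 := mul_le_mul_of_nonneg_right hB.1 hk'.le
    have a2 := mul_le_mul_of_nonneg_right hB.2.le hk'.le
    have a3 : (p.G : ℤ) ≤ k * p.D * p.G := le_mul_of_one_le_left hG.le hkD
    have b1 : (k : ℤ) * p.D ≤ (τ + B * k) / p.G := by
      rw [Int.le_ediv_iff_mul_le hG]
      nlinarith [hτ.1]
    have b2 : (τ + B * k) / p.G < 5 * (k * p.D) := by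
      rw [Int.ediv_lt_iff_lt_mul hG]
      nlinarith [hτ.2]
    rw [mem_Ico]
    push_cast
    constructor <;> linarith
  have h1 := BarUp_many hD (4 * k) (x := x + k * p.D) (by linarith)
  rw [← sum_fiberwise_of_maps_to hmap]
  have h2 : ∀ y ∈ Ico (x + k * p.D) (x + k * p.D + ((4 * k : ℕ) : ℤ) * p.D),
      ∑ B ∈ p.LB.filter (fun B => x + (τ + B * k) / p.G = y), iP PR (x + (τ + B * k) / p.G) ≤
        2 * p.G / k * iP PR y := by
    intro y _
    rw [sum_congr rfl (g := fun _ => iP PR y) fun B hB => by rw [(mem_filter.1 hB).2],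
      sum_const, nsmul_eq_mul]
    refine mul_le_mul_of_nonneg_right ?_ (iP_nonneg _ _)
    rw [le_div_iff₀ hkr, mul_comm]
    exact_mod_cast BarUp_fibre hG hk' hkG' p.LB x τ y
  refine (sum_le_sum h2).trans ?_
  rw [← mul_sum]
  refine (mul_le_mul_of_nonneg_left h1 (by positivity)).trans (le_of_eq ?_)
  push_cast
  field_simp
  ring

lemma BarUp_shift {p : Par} (hp : p.Ok) {B : ℤ} (hB : B ∈ p.LB) {h : ℕ} (hQ : h < p.Q) :
    0 ≤ B * h ∧ B * h ≤ p.G * p.Y := by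
  rw [Par.LB, mem_Ico] at hB
  have hq : (h : ℤ) ≤ p.Q := by exact_mod_cast hQ.le
  have h3 : (0 : ℤ) ≤ h := Int.natCast_nonneg h
  have hG : (0 : ℤ) ≤ p.G := Int.natCast_nonneg _
  have h4 : (0 : ℤ) ≤ p.G * p.D := by positivity
  have hY : 8 * (p.D : ℤ) * p.Q ≤ p.Y := by exact_mod_cast hp.hY
  have h6 : B * h ≤ 4 * (p.G * p.D) * p.Q := mul_le_mul hB.2.le hq h3 (by positivity)
  have h7 := mul_le_mul_of_nonneg_left hY hG
  have h8 : (0 : ℤ) ≤ p.G * p.D * p.Q := by positivity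
  exact ⟨mul_nonneg (by linarith [hB.1]) h3, by nlinarith⟩

lemma BarUp_div {G : ℕ} {τ : ℤ} (hτ : τ ∈ Ico (0 : ℤ) G) (x s : ℤ) :
    ((G : ℤ) * x + τ) / G = x ∧ ((G : ℤ) * x + τ + s) / G = x + (τ + s) / G := by
  rw [mem_Ico] at hτ
  have h0 : (G : ℤ) ≠ 0 := by omega
  have k : ∀ s : ℤ, ((G : ℤ) * x + τ + s) / G = x + (τ + s) / G := fun s => by
    have e : (G : ℤ) * x + τ + s = τ + s + G * x := by ring
    rw [e, Int.add_mul_ediv_left _ _ h0, add_comm]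
  refine ⟨?_, k s⟩
  have := k 0
  rwa [add_zero, add_zero, Int.ediv_eq_zero_of_lt hτ.1 hτ.2, add_zero] at this

/-- pairs of primes on the lines: the mean over the slope splits -/
theorem bar_pair {p : Par} (hp : p.Ok) {β : ℝ} (hβ : 0 ≤ β)
    (hD : ∀ x, p.x0 ≤ x → ∑ y ∈ Ico x (x + p.D), iP PR y ≤ β * p.D)
    (hY : ∀ x, p.x0 ≤ x → ∑ y ∈ Ico x (x + p.Y), iP PR y ≤ β * p.Y)
    {h h' : ℕ} (hh : h < h') (hQ : h' < p.Q) :
    ∑ B ∈ p.LB, ∑ A ∈ p.LI, iP PR (pt p.G A B h) * iP PR (pt p.G A B h') ≤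
      16 * β ^ 2 * ((p.G : ℝ) ^ 2 * p.D * p.Y) := by
  obtain ⟨k, rfl⟩ := Nat.exists_eq_add_of_le hh.le
  have hk : 0 < k := by omega
  have hkG : k ≤ p.G := by
    have := hp.hG
    have := hp.Q_pos
    nlinarith
  have h1 : ∀ B ∈ p.LB, ∑ A ∈ p.LI, iP PR (pt p.G A B h) * iP PR (pt p.G A B (h + k)) ≤
      ∑ x ∈ Ico p.x0 (p.x0 + 2 * p.Y), ∑ τ ∈ Ico (0 : ℤ) p.G,
        iP PR x * iP PR (x + (τ + B * k) / p.G) := by
    intro B hB
    obtain ⟨a, b⟩ := BarUp_shift hp hB (hh.trans hQ)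
    have h2 := BarUp_sub hp.G_pos p.Y p.x0 a b
      (F := fun u => iP PR (u / p.G) * iP PR ((u + B * k) / p.G))
      fun u => mul_nonneg (iP_nonneg _ _) (iP_nonneg _ _)
    refine le_trans (le_of_eq (sum_congr rfl fun A _ => ?_)) (h2.trans (le_of_eq ?_))
    · simp only [pt]
      push_cast
      rw [mul_add, add_assoc]
    · refine sum_congr rfl fun x _ => sum_congr rfl fun τ hτ => ?_
      rw [(BarUp_div hτ x (B * k)).1, (BarUp_div hτ x (B * k)).2]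
  refine (sum_le_sum h1).trans ?_
  rw [sum_comm]
  have h3 : ∀ x ∈ Ico p.x0 (p.x0 + 2 * p.Y), ∑ B ∈ p.LB, ∑ τ ∈ Ico (0 : ℤ) p.G,
      iP PR x * iP PR (x + (τ + B * k) / p.G) ≤ p.G * (8 * p.G * (β * p.D)) * iP PR x := by
    intro x hx
    rw [sum_comm]
    refine (sum_le_card_nsmul _ _ (iP PR x * (8 * p.G * (β * p.D))) fun τ hτ => ?_).trans
      (le_of_eq ?_)
    · rw [← mul_sum]
      exact mul_le_mul_of_nonneg_left (BarUp_slopes hp hD hk hkG (mem_Ico.1 hx).1 hτ)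
        (iP_nonneg _ _)
    · simp only [Int.card_Ico, sub_zero, Int.toNat_natCast, nsmul_eq_mul]
      ring
  refine (sum_le_sum h3).trans ?_
  rw [← mul_sum]
  have h4 := BarUp_many hY 2 (x := p.x0) le_rfl
  push_cast at h4
  refine (mul_le_mul_of_nonneg_left h4 (by positivity)).trans (le_of_eq ?_)
  ring

theorem bar_single {p : Par} (hp : p.Ok) {β : ℝ}
    (hY : ∀ x, p.x0 ≤ x → ∑ y ∈ Ico x (x + p.Y), iP PR y ≤ β * p.Y)
    {B : ℤ} (hB : B ∈ p.LB) {h : ℕ} (hQ : h < p.Q) :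
    ∑ A ∈ p.LI, iP PR (pt p.G A B h) ≤ 2 * β * (p.G * p.Y) := by
  obtain ⟨a, b⟩ := BarUp_shift hp hB hQ
  have h2 := BarUp_sub hp.G_pos p.Y p.x0 a b (F := fun u => iP PR (u / p.G))
    fun u => iP_nonneg _ _
  have h3 : ∑ x ∈ Ico p.x0 (p.x0 + 2 * p.Y), ∑ τ ∈ Ico (0 : ℤ) p.G,
      iP PR ((p.G * x + τ) / p.G) = p.G * ∑ x ∈ Ico p.x0 (p.x0 + 2 * p.Y), iP PR x := by
    rw [mul_sum]
    refine sum_congr rfl fun x _ => ?_
    rw [sum_congr rfl (g := fun _ => iP PR x) fun τ hτ => by rw [(BarUp_div hτ x 0).1]]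
    simp
  have h4 := BarUp_many hY 2 (x := p.x0) le_rfl
  push_cast at h4
  refine h2.trans ?_
  rw [h3]
  refine (mul_le_mul_of_nonneg_left h4 (by positivity)).trans (le_of_eq ?_)
  ring

/-- the mean of the upper statistic over the slopes -/
theorem bar_up {p : Par} (hp : p.Ok) {β : ℝ} (hβ : 1 ≤ p.Q * β)
    (hD : ∀ x, p.x0 ≤ x → ∑ y ∈ Ico x (x + p.D), iP PR y ≤ β * p.D)
    (hY : ∀ x, p.x0 ≤ x → ∑ y ∈ Ico x (x + p.Y), iP PR y ≤ β * p.Y) :
    ∑ B ∈ p.LB, p.bar (fun A B => Fup p.Q (hit p.G p.Q PR A B)) B ≤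
      p.D * p.G * (22 * β ^ 2 * (p.Q * (1 + Real.log p.Q))) := by
  have hG : (0 : ℝ) < p.G := by exact_mod_cast hp.G_pos
  have hYp : (0 : ℝ) < p.Y := by exact_mod_cast hp.Y_pos
  have hDp : (0 : ℝ) < p.D := by exact_mod_cast hp.D_pos
  have hQp : (0 : ℝ) < p.Q := by exact_mod_cast hp.Q_pos
  have hβ0 : 0 < β := by
    by_contra h
    nlinarith [not_lt.1 h]
  have hlog : 0 ≤ 1 + Real.log p.Q := by
    have := Real.log_natCast_nonneg p.Q
    linarith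
  have hLB : (p.LB.card : ℝ) = 3 * (p.G * p.D) := by
    have e : 4 * ((p.G : ℤ) * p.D) - p.G * p.D = ((3 * (p.G * p.D) : ℕ) : ℤ) := by
      push_cast; ring
    rw [Par.LB, Int.card_Ico, e, Int.toNat_natCast]
    push_cast; ring
  set C1 : ℝ := 16 * β ^ 2 * ((p.G : ℝ) ^ 2 * p.D * p.Y) with hC1
  set C2 : ℝ := 3 * (p.G * p.D) * (2 * β * (p.G * p.Y)) with hC2
  have hC1p : 0 ≤ C1 := by positivity
  have hC2p : 0 ≤ C2 := by positivity
  have key : ∑ B ∈ p.LB, ∑ A ∈ p.LI, Fup p.Q (hit p.G p.Q PR A B) ≤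
      p.Q * (C1 * (1 + Real.log p.Q)) + C2 * (1 + Real.log p.Q) := by
    simp only [Fup_hit]
    rw [sum_congr rfl fun B _ => sum_comm, sum_comm]
    have h1 : ∀ h ∈ range p.Q, ∑ B ∈ p.LB, ∑ A ∈ p.LI,
        (∑ h' ∈ (range p.Q).filter (fun h' => h < h'),
          iP PR (pt p.G A B h) * iP PR (pt p.G A B h') / ((h' : ℝ) - h) +
            iP PR (pt p.G A B h) / ((p.Q : ℝ) - h)) ≤
        C1 * (1 + Real.log p.Q) + C2 * (1 / ((p.Q : ℝ) - h)) := by
      intro h hh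
      have hh' := mem_range.1 hh
      simp only [sum_add_distrib]
      refine add_le_add ?_ ?_
      · rw [sum_congr rfl fun B _ => sum_comm, sum_comm]
        refine le_trans ?_ (mul_le_mul_of_nonneg_left (harm_up h p.Q) hC1p)
        rw [mul_sum]
        refine sum_le_sum fun h' hm => ?_
        obtain ⟨m1, m2⟩ := mem_filter.1 hm
        have m3 : (0 : ℝ) < (h' : ℝ) - h := sub_pos.2 (by exact_mod_cast m2)
        simp only [← sum_div]
        rw [mul_one_div]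
        exact div_le_div_of_nonneg_right (bar_pair hp hβ0.le hD hY m2 (mem_range.1 m1)) m3.le
      · have m3 : (0 : ℝ) < (p.Q : ℝ) - h := sub_pos.2 (by exact_mod_cast hh')
        simp only [← sum_div]
        rw [mul_one_div]
        refine div_le_div_of_nonneg_right ?_ m3.le
        refine (sum_le_card_nsmul _ _ _ fun B hB => bar_single hp hY hB hh').trans (le_of_eq ?_)
        rw [nsmul_eq_mul, hLB]
    refine (sum_le_sum h1).trans ?_
    rw [sum_add_distrib, sum_const, card_range, nsmul_eq_mul, ← mul_sum]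
    exact add_le_add le_rfl (mul_le_mul_of_nonneg_left (harm_dn p.Q) hC2p)
  simp only [Par.bar]
  rw [← sum_div, div_le_iff₀ (by positivity)]
  refine key.trans ?_
  have h5 : C2 ≤ 6 * β ^ 2 * p.Q * ((p.G : ℝ) ^ 2 * p.D * p.Y) := by
    have h6 : 0 ≤ 6 * β * ((p.G : ℝ) ^ 2 * p.D * p.Y) := by positivity
    have h7 := mul_le_mul_of_nonneg_left hβ h6
    rw [hC2]
    nlinarith
  have h8 := mul_le_mul_of_nonneg_right h5 hlog
  rw [hC1]
  nlinarith

end Pool.Agent.Lib.MP_127c84_nt.EN
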