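import Pool.Agent.Lib.MP_127c84_nt.EN.BlkL
import Pool.Agent.Lib.MP_127c84_nt.EN.BarUp

open Finset Filter Topology MeasureTheory
open Pool.Agent.Lib.MP_0d244d_nt.PS

namespace Pool.Agent.Lib.MP_127c84_nt.EN

theorem QQ_eq {a e : ℕ} (h : a ≤ e + 2) : QQ 4 (2 ^ a) e = 2 ^ (e + 2) := by
  have h4 : 4 * 2 ^ e = 2 ^ (e + 2) := by ring
  rw [QQ, h4]
  exact Nat.mul_div_cancel' (pow_dvd_pow 2 h)

lemma BlkE_ev (A : ℝ) (n : ℕ) {x : ℝ} (hx : 0 < x) :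
    ∀ᶠ e : ℕ in atTop, A * (e : ℝ) ^ n ≤ ((2 : ℝ) ^ e) ^ x := by
  have h1 : (1 : ℝ) < 2 ^ x := Real.one_lt_rpow one_lt_two hx
  have h2 := (tendsto_pow_const_div_const_pow_of_one_lt n h1).const_mul A
  rw [mul_zero] at h2
  filter_upwards [h2.eventually_le_const one_pos] with e he
  rw [← mul_div_assoc, div_le_one (by positivity)] at he
  rwa [← Real.rpow_natCast 2, ← Real.rpow_mul two_pos.le, mul_comm (e : ℝ),
    Real.rpow_mul two_pos.le, Real.rpow_natCast]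

lemma BlkE_pow {M x : ℝ} (hM : 0 ≤ M) (n : ℕ) : (M ^ x) ^ n = M ^ (n * x) := by
  rw [← Real.rpow_natCast, ← Real.rpow_mul hM, mul_comm]

lemma BlkE_div {w d t s : ℝ} (hw : 1 ≤ w) (ht : 0 ≤ t) (hs : 0 ≤ s)
    (h : w ^ 5 * (d + t) ≤ 1 / (w ^ 3) ^ 5 + (w ^ 3) ^ 2 * s) : d ≤ 1 / w ^ 20 + w ^ 3 * s := by
  have w0 : 0 < w := by linarith
  have h1 : d + t ≤ (1 / (w ^ 3) ^ 5 + (w ^ 3) ^ 2 * s) / w ^ 5 := by
    rw [le_div_iff₀ (by positivity), mul_comm]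
    exact h
  have h2 : (1 / (w ^ 3) ^ 5 + (w ^ 3) ^ 2 * s) / w ^ 5 = 1 / w ^ 20 + w * s := by
    field_simp
  have h3 : w * s ≤ w ^ 3 * s := mul_le_mul_of_nonneg_right (le_self_pow₀ hw (by norm_num)) hs
  linarith

/-- the error of one step at level `e` -/
theorem del_le {θ κ C : ℝ} (h0 : 0 < θ) (hκ : 1 ≤ κ) (hC : 1 ≤ C) {J : ℕ} (hJ : 1 ≤ J) :
    ∀ᶠ e : ℕ in atTop, ∀ (j s : ℕ) (E : ℝ), θ * 2 ^ e ≤ j → 0 ≤ E →
      (par 4 J e j s).del (2 ^ e) (C * e ^ 2) κ ((1 / 2 ^ e) ^ (4 * (2 * J + 3) + 4))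
        ((C * e ^ 2) ^ (2 * (2 * J + 3) + 1)) (2 * J + 3) E ≤
        ((2 : ℝ) ^ e) ^ (-(1 / 3) : ℝ) +
          ((2 : ℝ) ^ e) ^ (1 / 20 : ℝ) * √(E / 2 ^ (j + kk J e)) := by
  filter_upwards [par_ok h0 (show 1 ≤ 4 by norm_num) hJ, eventually_ge_atTop 1,
    BlkE_ev ((16 * (1 + κ) * ((4 : ℕ) : ℝ) ^ (2 * J + 3 + 1) + 24 * κ + 2) *
      C ^ ((2 * (2 * J + 3) + 1) * 2)) (2 * ((2 * (2 * J + 3) + 1) * 2))
      (show (0 : ℝ) < 1 / 60 by norm_num)] with e hP he hA j s E hj _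
  obtain ⟨q1, q2, -, hP⟩ := hP
  obtain ⟨hO, -, -, q3⟩ := hP j s hj
  have x0 : (0 : ℝ) < 2 ^ e := by positivity
  have q2' : (QQ 4 J e : ℝ) ≤ (4 : ℕ) * 2 ^ e := by exact_mod_cast q2
  obtain ⟨w, hw⟩ : ∃ w : ℝ, w = (2 ^ e) ^ (1 / 60 : ℝ) := ⟨_, rfl⟩
  have hp : ∀ n : ℕ, w ^ n = (2 ^ e) ^ (n * (1 / 60) : ℝ) := fun n => by
    rw [hw, BlkE_pow x0.le]
  have w1 : 1 ≤ w := hw ▸ Real.one_le_rpow (one_le_pow₀ one_le_two) (by norm_num)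
  have z20 : (2 : ℝ) ^ e = (w ^ 3) ^ 20 := by rw [← pow_mul, hp]; norm_num
  have z1 : ((2 : ℝ) ^ e) ^ (1 / 20 : ℝ) = w ^ 3 := by rw [hp]; norm_num
  have z3 : ((2 : ℝ) ^ e) ^ (-(1 / 3) : ℝ) = 1 / w ^ 20 := by
    rw [hp, Real.rpow_neg x0.le, one_div (_ ^ _)]; norm_num
  have e1 : (1 : ℝ) ≤ C * e ^ 2 :=
    one_le_mul_of_one_le_of_one_le hC (one_le_pow₀ (by exact_mod_cast he))
  rw [← hw] at hA
  have key := blkAux1 (E := E) (R := 2 * J + 3) (C := w ^ 5) (Bm := C * e ^ 2)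
    (Mo := (C * e ^ 2) ^ (2 * (2 * J + 3) + 1))
    (D := 2 ^ j) (Y := 2 ^ (j + kk J e)) (Q := QQ 4 J e) (one_le_pow₀ w1 (n := 3)) (z20 ▸ q2')
    (z20 ▸ by exact_mod_cast q1) (by exact_mod_cast hO.Q_pos) (by norm_num) (one_le_pow₀ e1)
    (le_self_pow₀ e1 (by omega)) hκ (by positivity) (by positivity) (by exact_mod_cast q3)
    (by omega) (by positivity) (by
      rw [mul_assoc, ← pow_mul (C * _), mul_pow C, ← pow_mul (e : ℝ), ← mul_assoc _ (C ^ _),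
        show (w ^ 3) ^ 2 = w ^ 5 * w by ring]
      exact mul_le_mul_of_nonneg_left hA (by positivity))
  rw [← z20] at key
  rw [z1, z3]
  refine le_of_eq_of_le ?_ (BlkE_div w1 (by positivity) (Real.sqrt_nonneg _) key)
  simp [par, Par.del, Par.Q, QQ]

lemma BlkE_sum {a e : ℕ} (h : a + e / 50 ≤ e + 2) :
    ∑ i ∈ sc a e, ((2 : ℝ) ^ (e + 2)) / 4 ^ i ≤
      e * 4 ^ a * ((2 : ℝ) ^ e) ^ (1 / 25 : ℝ) / 2 ^ e := by
  obtain ⟨i0, hi⟩ : ∃ i0, i0 = e + 2 - a - e / 50 := ⟨_, rfl⟩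
  have h1 : ∑ i ∈ sc a e, ((2 : ℝ) ^ (e + 2)) / 4 ^ i ≤
      (sc a e).card • (((2 : ℝ) ^ (e + 2)) / 4 ^ i0) :=
    sum_le_card_nsmul _ _ _ fun i hi' => by
      have : i0 ≤ i := hi ▸ (mem_Ico.1 hi').1
      exact div_le_div_of_nonneg_left (by positivity) (by positivity)
        (pow_le_pow_right₀ (by norm_num) this)
  have h2 : ((sc a e).card : ℝ) ≤ e := by
    have : (sc a e).card ≤ e := by
      rw [sc, Nat.card_Ico]
      omega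
    exact_mod_cast this
  have h3 : (4 : ℝ) ^ (e / 50) ≤ ((2 : ℝ) ^ e) ^ (1 / 25 : ℝ) := by
    rw [show (4 : ℝ) = 2 ^ 2 by norm_num, ← pow_mul, ← Real.rpow_natCast, ← Real.rpow_natCast 2 e,
      ← Real.rpow_mul two_pos.le]
    refine Real.rpow_le_rpow_of_exponent_le one_le_two ?_
    have : ((2 * (e / 50) * 25 : ℕ) : ℝ) ≤ e := by
      exact_mod_cast (show 2 * (e / 50) * 25 ≤ e by omega)
    rw [Nat.cast_mul _ 25] at this
    rw [mul_one_div, le_div_iff₀ (by norm_num)]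
    exact_mod_cast this
  have h4 : (4 : ℝ) ^ i0 * (4 ^ a * 4 ^ (e / 50)) = 2 ^ (e + 2) * 2 ^ (e + 2) := by
    rw [← pow_add, ← pow_add, ← mul_pow, show i0 + (a + e / 50) = e + 2 by omega]
    norm_num
  have h5 : ((2 : ℝ) ^ (e + 2)) / 4 ^ i0 ≤ 4 ^ a * 4 ^ (e / 50) / 2 ^ e := by
    rw [div_le_div_iff₀ (by positivity) (by positivity), mul_comm _ ((4 : ℝ) ^ i0), h4]
    exact mul_le_mul_of_nonneg_left (pow_le_pow_right₀ one_le_two (by omega)) (by positivity)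
  rw [nsmul_eq_mul] at h1
  calc _ ≤ _ := h1
    _ ≤ e * (4 ^ a * ((2 : ℝ) ^ e) ^ (1 / 25 : ℝ) / 2 ^ e) := by
        refine mul_le_mul h2 (h5.trans ?_) (by positivity) (by positivity)
        gcongr
    _ = _ := by ring

lemma BlkE_fin {w M R d S t s u : ℝ} (hw : 2 ≤ w) (hM : M = w ^ 300) (hR : 0 ≤ R) (hS0 : 0 ≤ S)
    (hs : 0 ≤ s) (hd : d ≤ 1 / w ^ 100 + w ^ 15 * s) (hS : S ≤ u * w ^ 12 / M) (hu : R * u ≤ w)
    (ht : t * (4 * M) ^ 5 ≤ 1) :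
    R * d * S + 36 * t ≤ 1 / w ^ 75 / M + w ^ 30 / M * s := by
  have w0 : 0 < w := by linarith
  have w1 : 1 ≤ w := by linarith
  have M0 : 0 < M := by rw [hM]; positivity
  have h1 : R * S ≤ w ^ 15 / M := by
    calc R * S ≤ R * (u * w ^ 12 / M) := mul_le_mul_of_nonneg_left hS hR
      _ = R * u * w ^ 12 / M := by ring
      _ ≤ w ^ 3 * w ^ 12 / M := by
          gcongr
          exact hu.trans (le_self_pow₀ w1 (by norm_num))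
      _ = _ := by ring
  have h2 : R * d * S ≤ (1 / w ^ 100 + w ^ 15 * s) * (w ^ 15 / M) := by
    calc R * d * S = d * (R * S) := by ring
      _ ≤ (1 / w ^ 100 + w ^ 15 * s) * (R * S) :=
          mul_le_mul_of_nonneg_right hd (mul_nonneg hR hS0)
      _ ≤ _ := mul_le_mul_of_nonneg_left h1 (by positivity)
  have h3 : (1 / w ^ 100 + w ^ 15 * s) * (w ^ 15 / M) = 1 / w ^ 85 / M + w ^ 30 / M * s := by
    field_simp
  have h4 : 1 / w ^ 85 / M ≤ 1 / w ^ 75 / M / 2 := by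
    have : 2 * w ^ 75 ≤ w ^ 85 := by
      rw [show w ^ 85 = w ^ 10 * w ^ 75 by ring]
      exact mul_le_mul_of_nonneg_right (hw.trans (le_self_pow₀ w1 (by norm_num))) (by positivity)
    rw [div_div, div_div, div_div]
    refine one_div_le_one_div_of_le (by positivity) ?_
    nlinarith
  have h5 : 36 * t ≤ 1 / w ^ 75 / M / 2 := by
    have a1 : w ^ 75 ≤ M ^ 4 := by
      rw [hM, ← pow_mul]
      exact pow_le_pow_right₀ w1 (by norm_num)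
    have a2 : t ≤ 1 / (4 * M) ^ 5 := by
      rw [le_div_iff₀ (by positivity)]
      exact ht
    have a3 : 36 * (1 / (4 * M) ^ 5) ≤ 1 / w ^ 75 / M / 2 := by
      rw [div_div, div_div, mul_one_div, div_le_div_iff₀ (by positivity) (by positivity)]
      have a4 : w ^ 75 * M ≤ M ^ 4 * M := mul_le_mul_of_nonneg_right a1 M0.le
      have a5 : 0 < M ^ 5 := by positivity
      nlinarith
    linarith
  linarith

theorem blk_lo {θ κ : ℝ} (h0 : 0 < θ) (h1 : θ ≤ 1) (hκ : 1 ≤ κ) {a : ℕ} (ha : κ * 4 ≤ 2 ^ a) :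
    ∀ᶠ e : ℕ in atTop, BT θ κ e → ∀ j s : ℕ, θ * 2 ^ e ≤ j →
      (2 : ℤ) ^ (2 ^ e) ≤ (par 4 (2 ^ a) e j s).x0 →
      ∑ B ∈ (par 4 (2 ^ a) e j s).LB, xiLo a e j s B ≤
        (2 : ℝ) ^ j * (QQ 4 (2 ^ a) e : ℝ) ^ 10 * (((2 : ℝ) ^ e) ^ (-(1 / 4) : ℝ) / 2 ^ e +
          ((2 : ℝ) ^ e) ^ (1 / 10 : ℝ) / 2 ^ e *
            √((par 4 (2 ^ a) e j s).En (par 4 (2 ^ a) e j s).PB (2 ^ e) /
              2 ^ (j + kk (2 ^ a) e))) := by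
  have hJ : 1 ≤ 2 ^ a := Nat.one_le_two_pow
  obtain ⟨C, hC, hS⟩ := sieve h0 h1 hκ (lam := 4) (J := 2 ^ a) (by norm_num)
    (by exact_mod_cast ha)
  filter_upwards [hS, par_ok h0 (show 1 ≤ 4 by norm_num) hJ, del_le h0 hκ hC hJ,
    eventually_ge_atTop (2 * a + 1),
    BlkE_ev (((2 * 2 ^ a + 3 : ℕ) : ℝ) * 4 ^ a) 1 (show (0 : ℝ) < 1 / 300 by norm_num)]
    with e hS hP hd he hA hB j s hj hx
  obtain ⟨ν, hν⟩ := hS hB j s hj hx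
  obtain ⟨-, -, -, hP⟩ := hP
  obtain ⟨hO, -, -, q3⟩ := hP j s hj
  have hQ : QQ 4 (2 ^ a) e = 2 ^ (e + 2) := QQ_eq (by omega)
  have hQ' : (((par 4 (2 ^ a) e j s).Q : ℕ) : ℝ) = 2 ^ (e + 2) := by
    rw [par_Q, hQ]
    push_cast
    rfl
  have x0 : (0 : ℝ) < 2 ^ e := by positivity
  have key := blk_low hO hν (by omega) (sc a e) fun i hi => by
    have hi' : i + 1 + a ≤ e + 2 := by
      have := (mem_Ico.1 hi).2
      omega
    refine ⟨by rw [par_Q, hQ]; exact pow_dvd_pow 2 (by omega), ?_⟩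
    have b1 : (2 : ℝ) ^ (i + 1 + a) ≤ 2 ^ (e + 2) := pow_le_pow_right₀ one_le_two hi'
    rw [pow_add, pow_add, pow_add] at b1
    have b2 : (0 : ℝ) < 2 ^ i := by positivity
    nlinarith
  obtain ⟨w, hw⟩ : ∃ w : ℝ, w = (2 ^ e) ^ (1 / 300 : ℝ) := ⟨_, rfl⟩
  have hp : ∀ n : ℕ, w ^ n = (2 ^ e) ^ (n * (1 / 300) : ℝ) := fun n => by
    rw [hw, BlkE_pow x0.le]
  have z0 : (2 : ℝ) ^ e = w ^ 300 := by rw [hp]; norm_num
  have z1 : ((2 : ℝ) ^ e) ^ (1 / 20 : ℝ) = w ^ 15 := by rw [hp]; norm_num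
  have z2 : ((2 : ℝ) ^ e) ^ (1 / 10 : ℝ) = w ^ 30 := by rw [hp]; norm_num
  have z3 : ((2 : ℝ) ^ e) ^ (1 / 25 : ℝ) = w ^ 12 := by rw [hp]; norm_num
  have z4 : ((2 : ℝ) ^ e) ^ (-(1 / 3) : ℝ) = 1 / w ^ 100 := by
    rw [hp, Real.rpow_neg x0.le, one_div (_ ^ _)]; norm_num
  have z5 : ((2 : ℝ) ^ e) ^ (-(1 / 4) : ℝ) = 1 / w ^ 75 := by
    rw [hp, Real.rpow_neg x0.le, one_div (_ ^ _)]; norm_num
  have hd' := hd j s _ hj (measA_En_nn (par 4 (2 ^ a) e j s) (par 4 (2 ^ a) e j s).PB (2 ^ e))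
  have hs := BlkE_sum (a := a) (e := e) (by omega)
  rw [z1, z4] at hd'
  rw [z3] at hs
  rw [← hw, pow_one, mul_assoc, mul_comm _ (e : ℝ)] at hA
  have hw2 : 2 ≤ w := by
    refine le_trans ?_ hA
    have c1 : (2 : ℝ) ≤ ((2 * 2 ^ a + 3 : ℕ) : ℝ) := by
      exact_mod_cast (show 2 ≤ 2 * 2 ^ a + 3 by omega)
    have c2 : (1 : ℝ) ≤ e * 4 ^ a := one_le_mul_of_one_le_of_one_le
      (by exact_mod_cast (show 1 ≤ e by omega)) (one_le_pow₀ (by norm_num))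
    nlinarith
  have ht : (((par 4 (2 ^ a) e j s).D : ℕ) : ℝ) * ((2 : ℝ) ^ (e + 2)) ^ 2 /
      ((par 4 (2 ^ a) e j s).Y : ℕ) * (4 * 2 ^ e) ^ 5 ≤ 1 := by
    have Y0 : (0 : ℝ) < ((par 4 (2 ^ a) e j s).Y : ℕ) := by exact_mod_cast hO.Y_pos
    rw [div_mul_eq_mul_div, div_le_one Y0, show (4 : ℝ) * 2 ^ e = 2 ^ (e + 2) by ring, mul_assoc,
      ← pow_add]
    have c1 : 2 ^ j * (2 ^ (e + 2)) ^ (2 + 5) ≤ 2 ^ (j + kk (2 ^ a) e) := by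
      refine le_trans (Nat.mul_le_mul_left _ ?_) q3
      rw [hQ]
      exact Nat.pow_le_pow_right (by positivity) (by omega)
    show (((2 ^ j : ℕ) : ℕ) : ℝ) * _ ≤ ((2 ^ (j + kk (2 ^ a) e) : ℕ) : ℝ)
    exact_mod_cast c1
  rw [hQ'] at key
  rw [z2, z5]
  refine key.trans (mul_le_mul (le_of_eq ?_) (BlkE_fin hw2 z0 (by positivity)
    (sum_nonneg fun _ _ => by positivity) (Real.sqrt_nonneg _) hd' hs hA ht) ?_ (by positivity))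
  · simp [par]
  · refine add_nonneg (mul_nonneg (mul_nonneg (by positivity) ?_)
      (sum_nonneg fun _ _ => by positivity)) (by positivity)
    have := hν.Bm_nn
    unfold Par.del
    positivity

theorem blk_up {θ κ : ℝ} (h0 : 0 < θ) (hκ : 1 ≤ κ) :
    ∀ᶠ e : ℕ in atTop, BT θ κ e → ∀ j s : ℕ, θ * 2 ^ e ≤ j →
      (2 : ℤ) ^ (2 ^ e) ≤ (par 4 1 e j s).x0 →
      ∑ B ∈ (par 4 1 e j s).LB, xiUp 1 e j s B ≤
        (2 : ℝ) ^ j * (QQ 4 1 e : ℝ) ^ 10 * (176 * κ ^ 2 * e / 2 ^ e) := by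
  filter_upwards [par_ok h0 (show 1 ≤ 4 by norm_num) (le_refl 1), eventually_ge_atTop 2]
    with e hP he hB j s hj hx
  obtain ⟨-, -, -, hP⟩ := hP
  obtain ⟨hO, -, -, -⟩ := hP j s hj
  have hQ : QQ 4 1 e = 2 ^ (e + 2) := QQ_eq (a := 0) (by omega)
  have hQ' : (((par 4 1 e j s).Q : ℕ) : ℝ) = 2 ^ (e + 2) := by
    rw [par_Q, hQ]
    push_cast
    rfl
  have x0 : (0 : ℝ) < 2 ^ e := by positivity
  have hb : ∀ b : ℕ, j ≤ b → ∀ x, (par 4 1 e j s).x0 ≤ x →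
      ∑ y ∈ Ico x (x + ((2 ^ b : ℕ) : ℤ)), iP PR y ≤ κ / 2 ^ e * ((2 ^ b : ℕ) : ℝ) := by
    intro b hb x hx'
    have c1 : (j : ℝ) ≤ b := by exact_mod_cast hb
    have c2 : (0 : ℝ) ≤ j := Nat.cast_nonneg j
    have c3 := hB b x (by linarith) (hx.trans hx')
    push_cast
    rw [div_mul_eq_mul_div, le_div_iff₀ x0, mul_comm]
    exact c3
  have key := bar_up hO (β := κ / 2 ^ e) (by
    rw [hQ', ← mul_div_assoc, le_div_iff₀ x0, pow_add]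
    nlinarith) (hb j le_rfl) (hb _ (Nat.le_add_right _ _))
  rw [show (1 + Real.log ((par 4 1 e j s).Q : ℕ)) = 1 + (e + 2) * Real.log 2 by
    rw [hQ', Real.log_pow]; push_cast; rfl] at key
  refine key.trans (mul_le_mul (le_of_eq ?_) ?_ ?_ (by positivity))
  · simp [par]
  · have c1 := Real.log_two_lt_d9
    have c2 : (2 : ℝ) ≤ e := by exact_mod_cast he
    have c3 : 1 + ((e : ℝ) + 2) * Real.log 2 ≤ 2 * e := by nlinarith
    rw [hQ']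
    calc _ ≤ 22 * (κ / 2 ^ e) ^ 2 * (2 ^ (e + 2) * (2 * e)) := by gcongr
      _ = _ := by
          rw [pow_add]
          field_simp
          ring
  · have c1 := Real.log_nonneg (one_le_two (α := ℝ))
    positivity

end Pool.Agent.Lib.MP_127c84_nt.EN
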