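import Pool.Agent.Lib.MP_127c84_nt.EN.OneG

open Finset Filter Topology MeasureTheory
open Pool.Agent.Lib.MP_0d244d_nt.PS

namespace Pool.Agent.Lib.MP_127c84_nt.EN

lemma Grid_xi_nn (J e j : ℕ) {ξ : ℕ → ℤ → ℝ} (h : ∀ s B, 0 ≤ ξ s B) (t : ℝ) (s : ℕ) :
    0 ≤ xiS J e j ξ t s := by
  unfold xiS
  split_ifs
  · exact h _ _
  · exact le_rfl

/-- the grid points see each slope a bounded number of times -/
lemma Grid_mult {J e j s : ℕ} {ξ : ℕ → ℤ → ℝ} (hξ : ∀ s B, 0 ≤ ξ s B) {c0 ρ : ℝ} (hc : 1 ≤ c0) (hρ : 0 < ρ) (hQ : 0 < QQ 4 J e)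
    (hx : 2 ^ (2 ^ e) ≤ s * 2 ^ (j + kk J e))
    (hs : (QQ 4 J e : ℝ) ^ 10 * 2 ^ j * ρ * 2 ^ e ≤ 1) (T : Finset ℕ)
    (hT : ∀ k ∈ T, c0 + k * ρ ≤ 3 / 2) :
    ∑ k ∈ T, xiS J e j ξ (c0 + k * ρ) s ≤
      6 / ((QQ 4 J e : ℝ) ^ 10 * 2 ^ j * ρ * 2 ^ e) *
        ∑ B ∈ (par 4 J e j s).LB, ξ s B := by
  classical
  have hQ' : (0 : ℝ) < QQ 4 J e := by exact_mod_cast hQ
  have x1 : (2 : ℝ) ^ (2 ^ e) ≤ ((s : ℤ) : ℝ) * ((2 ^ (j + kk J e) : ℕ) : ℝ) := by exact_mod_cast hx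
  have x2 : (1 : ℝ) < 2 ^ (2 ^ e) := one_lt_pow₀ (by norm_num) (by positivity)
  have x3 : (2 : ℝ) ^ e * 0.69 ≤ Real.log (((s : ℤ) : ℝ) * ((2 ^ (j + kk J e) : ℕ) : ℝ)) := by
    refine le_trans ?_ (Real.log_le_log (by positivity) x1)
    rw [Real.log_pow]
    push_cast
    gcongr
    linarith [Real.log_two_gt_d9]
  have e1 : ∑ k ∈ T, xiS J e j ξ (c0 + k * ρ) s = ∑ B ∈ (par 4 J e j s).LB,
      ((T.filter fun k : ℕ => sl (QQ 4 J e) (2 ^ (j + kk J e)) (c0 + k * ρ) s = B).card : ℝ) *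
        ξ s B := by
    simp only [card_filter, Nat.cast_sum, sum_mul]
    rw [sum_comm]
    refine sum_congr rfl fun k _ => ?_
    unfold xiS
    simp only [Nat.cast_ite, Nat.cast_one, Nat.cast_zero, ite_mul, one_mul, zero_mul, sum_ite_eq]
  rw [e1, mul_sum]
  refine sum_le_sum fun B hB => mul_le_mul_of_nonneg_right ?_ (hξ _ _)
  have h := mult (G := QQ 4 J e ^ 10) (D := 2 ^ j) (by positivity) (by positivity)
    (x2.trans_le x1) hc hρ (B := B) (mem_Ico.1 hB).1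
    (T.filter fun k : ℕ => sl (QQ 4 J e) (2 ^ (j + kk J e)) (c0 + k * ρ) s = B)
    fun k hk => ⟨hT k (mem_filter.1 hk).1, (mem_filter.1 hk).2⟩
  refine h.trans ?_
  set w : ℝ := (QQ 4 J e : ℝ) ^ 10 * 2 ^ j * ρ with hw
  have w0 : 0 < w := by positivity
  have e2 : ((QQ 4 J e ^ 10 : ℕ) : ℝ) * ((2 ^ j : ℕ) : ℝ) * ρ = w := by push_cast; rfl
  rw [e2]
  have a1 : 1 ≤ 1 / (w * 2 ^ e) := by
    rw [le_div_iff₀ (by positivity)]; linarith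
  have a2 : 3 / (w * Real.log (((s : ℤ) : ℝ) * ((2 ^ (j + kk J e) : ℕ) : ℝ))) ≤
      3 / (w * (2 ^ e * 0.69)) := by gcongr
  have a3 : 3 / (w * (2 ^ e * 0.69)) ≤ 5 / (w * 2 ^ e) := by
    rw [div_le_div_iff₀ (by positivity) (by positivity)]
    have : 0 < w * 2 ^ e := by positivity
    nlinarith
  have a4 : 6 / (w * 2 ^ e) = 1 / (w * 2 ^ e) + 5 / (w * 2 ^ e) := by ring
  linarith

/-- one scale -/
lemma Grid_scale {J e m j : ℕ} {ξ : ℕ → ℤ → ℝ} (hξ : ∀ s B, 0 ≤ ξ s B)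
    {c0 ρ a b : ℝ} (hc : 1 ≤ c0) (hρ : 0 < ρ) (ha : 0 ≤ a)
    (hb : 0 ≤ b) (hQ : 0 < QQ 4 J e) (hm : 2 ^ e ≤ m) (hj : 1 ≤ j)
    (hs : (QQ 4 J e : ℝ) ^ 10 * 2 ^ j * ρ * 2 ^ e ≤ 1)
    (hB : ∀ s : ℕ, (2 : ℤ) ^ (2 ^ e) ≤ (par 4 J e j s).x0 →
      ∑ B ∈ (par 4 J e j s).LB, ξ s B ≤
        (2 : ℝ) ^ j * (QQ 4 J e : ℝ) ^ 10 * (a + b *
          √((par 4 J e j s).En (par 4 J e j s).PB (2 ^ e) / 2 ^ (j + kk J e))))
    (T : Finset ℕ) (hT : ∀ k ∈ T, c0 + k * ρ ≤ 3 / 2) :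
    ∑ k ∈ T, ρ * (2 * 2 ^ (j + kk J e) / (2 ^ m * 2 ^ j) *
      ∑ s ∈ SR (2 ^ m * 2 ^ j) (2 ^ (j + kk J e)), xiS J e j ξ (c0 + k * ρ) s) ≤
      1000 / 2 ^ e * (a + b * √(enAv 4 J e (m + j) j)) := by
  have hQ' : (0 : ℝ) < QQ 4 J e := by exact_mod_cast hQ
  rw [← mul_sum, ← mul_sum, sum_comm]
  have h1 : ∑ s ∈ SR (2 ^ m * 2 ^ j) (2 ^ (j + kk J e)), ∑ k ∈ T, xiS J e j ξ (c0 + k * ρ) s ≤
      6 / (ρ * 2 ^ e) * ∑ s ∈ SR (2 ^ m * 2 ^ j) (2 ^ (j + kk J e)),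
      (a + b * √((par 4 J e j s).En (par 4 J e j s).PB (2 ^ e) / 2 ^ (j + kk J e))) := by
    rw [mul_sum]
    refine sum_le_sum fun s hs' => ?_
    have x1 := measA_low hm hj hs'
    refine (Grid_mult hξ hc hρ hQ x1 hs T hT).trans ?_
    have x2 := hB s (by
      show (2 : ℤ) ^ (2 ^ e) ≤ (s : ℤ) * (2 ^ (j + kk J e) : ℕ)
      exact_mod_cast x1)
    refine (mul_le_mul_of_nonneg_left x2 (by positivity)).trans (le_of_eq ?_)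
    field_simp
  have h2 := measA_blocks 4 J e m j ha hb
  have h3 : 0 ≤ a + b * √(enAv 4 J e (m + j) j) := by positivity
  calc _ ≤ ρ * (2 * 2 ^ (j + kk J e) / (2 ^ m * 2 ^ j) * (6 / (ρ * 2 ^ e) *
        (16 * (2 ^ m * 2 ^ j) / 2 ^ (j + kk J e) * (a + b * √(enAv 4 J e (m + j) j))))) := by
        gcongr
        exact h1.trans (mul_le_mul_of_nonneg_left h2 (by positivity))
    _ = 192 / 2 ^ e * (a + b * √(enAv 4 J e (m + j) j)) := by field_simp; ring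
    _ ≤ _ := by gcongr; norm_num

theorem VV_nonneg (J e m : ℕ) {ξ : ℕ → ℕ → ℤ → ℝ} (h : ∀ j s B, 0 ≤ ξ j s B) (t : ℝ) :
    0 ≤ VV J e m ξ t :=
  mul_nonneg (by positivity) (sum_nonneg fun s _ => Grid_xi_nn _ _ _ (h _) _ _)

/-- the mean over the grid of exponents -/
theorem grid {η : ℝ} (h0 : 0 < η) (h1 : η < 1 / 8) {J : ℕ} (hJ : 1 ≤ J) :
    ∀ᶠ e : ℕ in atTop, ∀ m, 2 ^ e ≤ m → m < 2 ^ (e + 1) →
      ∀ (ξ : ℕ → ℕ → ℤ → ℝ) (a b : ℝ), 0 ≤ a → 0 ≤ b → (∀ j s B, 0 ≤ ξ j s B) →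
      (∀ j s : ℕ, η / 2 * 2 ^ e ≤ j → (2 : ℤ) ^ (2 ^ e) ≤ (par 4 J e j s).x0 →
        ∑ B ∈ (par 4 J e j s).LB, ξ j s B ≤ (2 : ℝ) ^ j * (QQ 4 J e : ℝ) ^ 10 * (a + b *
          √((par 4 J e j s).En (par 4 J e j s).PB (2 ^ e) / 2 ^ (j + kk J e)))) →
      ∑ k ∈ TT η m, rh m * VV J e m ξ (1 + η + k * rh m) ≤
        1000 / 2 ^ e * ∑ j ∈ Icc ⌈η / 2 * 2 ^ e⌉₊ (2 ^ e),
          (a + b * √(enAv 4 J e (m + j) j)) := by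
  classical
  filter_upwards [geo_ev h0 h1 (lam := 4) (by omega) hJ, eventually_ge_atTop J]
    with e hgeo eJ m hm1 hm2 ξ a b ha hb hξ hblk
  have e2 : e ≤ 2 ^ e := Nat.lt_two_pow_self.le
  have hQ1 : 2 ^ e ≤ QQ 4 J e := by
    unfold QQ
    have k1 := Nat.div_add_mod (4 * 2 ^ e) J
    have k2 := Nat.mod_lt (4 * 2 ^ e) hJ
    omega
  have hQ0 : 0 < QQ 4 J e := lt_of_lt_of_le (by positivity) hQ1
  have hQr : (2 : ℝ) ^ e ≤ QQ 4 J e := by exact_mod_cast hQ1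
  have ρ0 := rh_pos m
  have hg : ∀ k ∈ TT η m, _ := fun k hk => hgeo m hm1 hm2 (1 + η + k * rh m)
    (le_add_of_nonneg_right (by positivity)) (mem_filter.1 hk).2
  let F : ℕ → ℕ → ℝ := fun j k => rh m * (2 * 2 ^ (j + kk J e) / (2 ^ m * 2 ^ j) *
    ∑ s ∈ SR (2 ^ m * 2 ^ j) (2 ^ (j + kk J e)), xiS J e j (ξ j) (1 + η + k * rh m) s)
  change ∑ k ∈ TT η m, F (jj (2 ^ m) (1 + η + k * rh m)) k ≤ _
  rw [← sum_fiberwise_of_maps_to (t := Icc ⌈η / 2 * 2 ^ e⌉₊ (2 ^ e))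
    (g := fun k : ℕ => jj (2 ^ m) (1 + η + k * rh m))
    (fun k hk => mem_Icc.2 ⟨Nat.ceil_le.2 (hg k hk).2.1, (hg k hk).2.2⟩), mul_sum]
  refine sum_le_sum fun j hj => ?_
  rw [sum_congr rfl fun (k : ℕ) hk => show F (jj (2 ^ m) (1 + η + k * rh m)) k = F j k by
    rw [(mem_filter.1 hk).2]]
  rcases ((TT η m).filter fun k : ℕ => jj (2 ^ m) (1 + η + k * rh m) = j).eq_empty_or_nonempty
    with h | ⟨k, hk⟩
  · rw [h, sum_empty]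
    positivity
  · have j1 : η / 2 * 2 ^ e ≤ j := Nat.ceil_le.1 (mem_Icc.1 hj).1
    have j2 : 1 ≤ j := by
      have : (0 : ℝ) < j := lt_of_lt_of_le (by positivity) j1
      exact_mod_cast this
    have s1 := (hg k (mem_filter.1 hk).1).1.s1
    rw [(mem_filter.1 hk).2] at s1
    push_cast at s1
    refine Grid_scale (hξ j) (by linarith) ρ0 ha hb hQ0 hm1 j2 ?_
      (fun s hs => hblk j s j1 hs) _ fun k hk => ?_
    · refine le_trans ?_ s1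
      have q1 : (1 : ℝ) ≤ QQ 4 J e := by exact_mod_cast hQ0
      have q2 : (2 : ℝ) ^ e ≤ (QQ 4 J e : ℝ) ^ 3 := hQr.trans (le_self_pow₀ q1 (by norm_num))
      calc _ ≤ (QQ 4 J e : ℝ) ^ 10 * 2 ^ j * rh m * (QQ 4 J e : ℝ) ^ 3 := by gcongr
        _ = _ := by unfold rh; ring
    · have := (mem_filter.1 (mem_filter.1 hk).1).2
      linarith

end Pool.Agent.Lib.MP_127c84_nt.EN
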