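import Pool.Agent.Lib.MP_127c84_nt.EN.Defs

open Finset Filter Topology MeasureTheory
open Pool.Agent.Lib.MP_0d244d_nt.PS

namespace Pool.Agent.Lib.MP_127c84_nt.EN

/-- sums over the levels -/
theorem lev_sum {f : ℕ → ℝ} (h0 : ∀ m, 0 ≤ f m) {u : ℕ → ℝ} (hu : Summable u)
    (h : ∀ᶠ e : ℕ in atTop, ∑ m ∈ Ico (2 ^ e) (2 * 2 ^ e), f m ≤ u e) : Summable f := by
  obtain ⟨e0, he⟩ := eventually_atTop.1 h
  have hu0 : ∀ i, 0 ≤ u (i + e0) := fun i =>
    (sum_nonneg fun m _ => h0 m).trans (he _ (Nat.le_add_left _ _))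
  have hs : Summable fun i => u (i + e0) := (summable_nat_add_iff e0).2 hu
  have key : ∀ k, ∑ m ∈ range (2 ^ (k + e0)), f m ≤
      ∑ m ∈ range (2 ^ e0), f m + ∑ i ∈ range k, u (i + e0) := by
    intro k
    induction k with
    | zero => simp
    | succ k ih =>
      have e1 : 2 ^ (k + 1 + e0) = 2 * 2 ^ (k + e0) := by ring
      rw [e1, ← sum_range_add_sum_Ico f (show 2 ^ (k + e0) ≤ 2 * 2 ^ (k + e0) by omega),
        sum_range_succ]
      linarith [he (k + e0) (Nat.le_add_left _ _)]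
  refine summable_of_sum_range_le h0
    (c := ∑ m ∈ range (2 ^ e0), f m + ∑' i, u (i + e0)) fun n => ?_
  have h1 : n ≤ 2 ^ (n + e0) :=
    Nat.lt_two_pow_self.le.trans (Nat.pow_le_pow_right (by norm_num) (Nat.le_add_right _ _))
  have h2 := sum_le_sum_of_subset_of_nonneg (f := f) (range_subset_range.2 h1) fun m _ _ => h0 m
  have h3 := hs.sum_le_tsum (range n) fun i _ => hu0 i
  linarith [key n]

theorem lev_lo {η κ : ℝ} (h0 : 0 < η) (h1 : η < 1 / 8)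
    (hB : ∀ᶠ e : ℕ in atTop, BT (η / 2) κ e) {J : ℕ} (hJ : 1 ≤ J) :
    Summable fun m : ℕ => 1000 / (2 : ℝ) ^ lv m * ∑ j ∈ Icc ⌈η / 2 * 2 ^ lv m⌉₊ (2 ^ lv m),
      (((2 : ℝ) ^ lv m) ^ (-(1 / 4) : ℝ) / 2 ^ lv m +
        ((2 : ℝ) ^ lv m) ^ (1 / 10 : ℝ) / 2 ^ lv m * √(enAv 4 J (lv m) (m + j) j)) := by
  have hθ0 : 0 < η / 2 := by linarith
  have hsum : Summable fun e : ℕ => 2000 * ((measB_a ^ 5)⁻¹) ^ e := by
    refine Summable.mul_left _ (summable_geometric_of_lt_one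
      (inv_nonneg.2 (pow_pos measB_a_pos 5).le) ?_)
    exact inv_lt_one_of_one_lt₀ (one_lt_pow₀ measB_a_gt (by norm_num))
  refine lev_sum (fun m => by positivity) hsum ?_
  have hpar := par_ok hθ0 (lam := 4) (J := J) (by omega) hJ
  filter_upwards [hB, hpar, measB_ev (4 * (4 * J + 10) * κ ^ 2), measB_ev 1,
    eventually_ge_atTop 1] with e hB hpar hC hw he
  have hlv : ∀ m ∈ Ico (2 ^ e) (2 * 2 ^ e), lv m = e := fun m hm =>
    Nat.log_eq_of_pow_le_of_lt_pow (mem_Ico.1 hm).1 (by rw [pow_succ']; exact (mem_Ico.1 hm).2)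
  rw [sum_congr rfl fun m hm => by rw [hlv m hm]]
  set j0 : ℕ := ⌈η / 2 * 2 ^ e⌉₊ with hj0
  obtain ⟨-, hk, hθ, -⟩ := hpar.2.2.2 j0 0 (Nat.le_ceil _)
  have hM2 : (2 : ℝ) ≤ 2 ^ e := by
    calc (2 : ℝ) = 2 ^ 1 := by norm_num
      _ ≤ 2 ^ e := pow_le_pow_right₀ (by norm_num) he
  have hj1 : 1 ≤ j0 := Nat.ceil_pos.2 (by positivity)
  have hj2 : j0 < 2 ^ e := by
    have h2 : (j0 : ℝ) < η / 2 * 2 ^ e + 1 := Nat.ceil_lt_add_one (by positivity)
    have h3 : (j0 : ℝ) < 2 ^ e := by nlinarith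
    exact_mod_cast h3
  have hen := measB_en_sum hB 4 J j0 hk hθ hj1 hj2
  have hfin : ((measB_a ^ 5)⁻¹) ^ e = ((measB_a ^ e) ^ 5)⁻¹ := by
    rw [inv_pow, ← pow_mul, ← pow_mul, mul_comm]
  rw [hfin]
  set w : ℝ := measB_a ^ e with hwdef
  have hw0 : 0 < w := pow_pos measB_a_pos e
  have hw1 : 1 ≤ w := hw.2
  have hM : (2 : ℝ) ^ e = w ^ 20 := measB_M e
  have hcS : ((Ico (2 ^ e) (2 * 2 ^ e)).card : ℝ) = w ^ 20 := by
    rw [Nat.card_Ico, ← hM]
    have h3 : 2 * 2 ^ e - 2 ^ e = 2 ^ e := by omega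
    rw [h3]
    push_cast
    rfl
  have hcT : ((Icc j0 (2 ^ e)).card : ℝ) ≤ w ^ 20 := by
    rw [Nat.card_Icc, ← hM]
    have h3 : 2 ^ e + 1 - j0 ≤ 2 ^ e := by omega
    exact_mod_cast h3
  have hkk : 4 * (kk J e : ℝ) * κ ^ 2 ≤ w ^ 6 := by
    have h3 : 4 * (kk J e : ℝ) * κ ^ 2 = 4 * (4 * J + 10) * κ ^ 2 * e := by
      unfold kk
      push_cast
      ring
    rw [h3]
    exact hC.1.trans (le_self_pow₀ hw1 (by norm_num))
  have hcs : ∑ m ∈ Ico (2 ^ e) (2 * 2 ^ e), ∑ j ∈ Icc j0 (2 ^ e),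
      √(enAv 4 J e (m + j) j) ≤ w ^ 33 := by
    refine measB_cs (fun m j => enAv 4 J e (m + j) j) (fun m j => measB_en_nn _ _ _ _ _) _ _
      (by positivity) ?_
    have h3 : ∑ m ∈ Ico (2 ^ e) (2 * 2 ^ e), ∑ j ∈ Icc j0 (2 ^ e), enAv 4 J e (m + j) j ≤
        w ^ 20 * w ^ 6 := by
      refine hen.trans ?_
      rw [hM]
      calc 2 * w ^ 20 * (2 * kk J e * κ ^ 2) = w ^ 20 * (4 * (kk J e : ℝ) * κ ^ 2) := by ring
        _ ≤ w ^ 20 * w ^ 6 := mul_le_mul_of_nonneg_left hkk (by positivity)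
    have h4 : 0 ≤ ∑ m ∈ Ico (2 ^ e) (2 * 2 ^ e), ∑ j ∈ Icc j0 (2 ^ e),
        enAv 4 J e (m + j) j := sum_nonneg fun m _ => sum_nonneg fun j _ => measB_en_nn _ _ _ _ _
    rw [hcS]
    calc w ^ 20 * ((Icc j0 (2 ^ e)).card : ℝ) * _ ≤ w ^ 20 * w ^ 20 * (w ^ 20 * w ^ 6) := by
          gcongr
      _ = (w ^ 33) ^ 2 := by ring
  rw [measB_neg, measB_pow e 2 (x := 1 / 10) (by norm_num), ← hwdef, hM, ← mul_sum]
  simp only [sum_add_distrib, sum_const, nsmul_eq_mul, ← mul_sum]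
  rw [hcS]
  have h5 : w ^ 20 * (((Icc j0 (2 ^ e)).card : ℝ) * ((w ^ 5)⁻¹ / w ^ 20)) ≤ w ^ 15 := by
    calc _ ≤ w ^ 20 * (w ^ 20 * ((w ^ 5)⁻¹ / w ^ 20)) := by gcongr
      _ = w ^ 15 := by field_simp
  have h6 : w ^ 2 / w ^ 20 * ∑ m ∈ Ico (2 ^ e) (2 * 2 ^ e), ∑ j ∈ Icc j0 (2 ^ e),
      √(enAv 4 J e (m + j) j) ≤ w ^ 15 := by
    calc _ ≤ w ^ 2 / w ^ 20 * w ^ 33 := mul_le_mul_of_nonneg_left hcs (by positivity)
      _ = w ^ 15 := by field_simp
  calc _ ≤ 1000 / w ^ 20 * (w ^ 15 + w ^ 15) := by gcongr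
    _ = 2000 * (w ^ 5)⁻¹ := by field_simp; ring

theorem bertrand {y : ℝ} (hy : 1 < y) :
    Summable fun m : ℕ => 1 / ((m : ℝ) * Real.log m ^ y) := by
  rw [← summable_condensed_iff_of_eventually_nonneg]
  · have h2 : (0 : ℝ) < Real.log 2 := Real.log_pos one_lt_two
    refine ((Real.summable_one_div_nat_rpow.2 hy).mul_left (1 / Real.log 2 ^ y)).congr fun j => ?_
    push_cast
    rw [Real.log_pow, Real.mul_rpow j.cast_nonneg h2.le]
    have h3 : (2 : ℝ) ^ j ≠ 0 := by positivity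
    rw [mul_one_div (2 ^ j), div_mul_cancel_left₀ h3, one_div_mul_one_div, mul_comm, one_div]
  · exact Eventually.of_forall fun N => div_nonneg zero_le_one
      (mul_nonneg N.cast_nonneg (Real.rpow_nonneg (Real.log_natCast_nonneg N) _))
  · filter_upwards [eventually_ge_atTop 2] with N hN
    have h1 : (2 : ℝ) ≤ N := by exact_mod_cast hN
    have h2 : 0 < Real.log N := Real.log_pos (by linarith)
    refine one_div_le_one_div_of_le (by positivity) ?_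
    push_cast
    exact mul_le_mul (by linarith) (Real.rpow_le_rpow h2.le
      (Real.log_le_log (by linarith) (by linarith)) (by linarith)) (by positivity) (by linarith)

theorem not_bertrand : ¬ Summable fun m : ℕ => 1 / ((m : ℝ) * Real.log m) := by
  rw [← summable_condensed_iff_of_eventually_nonneg]
  · intro h
    have h2 : (0 : ℝ) < Real.log 2 := Real.log_pos one_lt_two
    refine Real.not_summable_one_div_natCast ((h.mul_left (Real.log 2)).congr fun j => ?_)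
    push_cast
    rw [Real.log_pow]
    rcases Nat.eq_zero_or_pos j with rfl | hj
    · simp
    · field_simp
  · exact Eventually.of_forall fun N =>
      div_nonneg zero_le_one (mul_nonneg N.cast_nonneg (Real.log_natCast_nonneg N))
  · filter_upwards [eventually_ge_atTop 2] with N hN
    have h1 : (2 : ℝ) ≤ N := by exact_mod_cast hN
    have h2 : 0 < Real.log N := Real.log_pos (by linarith)
    refine one_div_le_one_div_of_le (by positivity) ?_
    push_cast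
    exact mul_le_mul (by linarith) (Real.log_le_log (by linarith) (by linarith)) h2.le
      (by linarith)

end Pool.Agent.Lib.MP_127c84_nt.EN
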