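import Pool.Agent.Lib.MP_127c84_nt.EN.Pt
import Pool.Agent.Lib.MP_127c84_nt.EN.AeS
import Pool.Agent.Lib.MP_127c84_nt.EN.Grid
import Pool.Agent.Lib.MP_127c84_nt.EN.Lev
import Pool.Agent.Lib.MP_127c84_nt.EN.BlkE

open Finset Filter Topology MeasureTheory
open Pool.Agent.Lib.MP_0d244d_nt.PS

namespace Pool.Agent.Lib.MP_127c84_nt.EN

lemma aeB_xi_nn (a e j s : ℕ) (B : ℤ) : 0 ≤ xiLo a e j s B := le_max_right _ _

lemma aeB_xiS_nn (a e j : ℕ) (t : ℝ) (s : ℕ) : 0 ≤ xiS (2 ^ a) e j (xiLo a e j) t s := by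
  unfold xiS
  split_ifs
  · exact aeB_xi_nn _ _ _ _ _
  · exact le_rfl

lemma aeB_mean {η κ : ℝ} (h0 : 0 < η) (h1 : η < 1 / 8) (hκ : 1 ≤ κ)
    (hB : ∀ᶠ e : ℕ in atTop, BT (η / 2) κ e) {a : ℕ} (ha : κ * 4 ≤ 2 ^ a) :
    Summable fun m => ∑ k ∈ TT η m,
      rh m * VV (2 ^ a) (lv m) m (xiLo a (lv m)) (1 + η + k * rh m) := by
  have hJ : 1 ≤ 2 ^ a := Nat.one_le_two_pow
  refine Summable.of_norm_bounded_eventually_nat (lev_lo h0 h1 hB hJ) ?_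
  have hu : ∀ᶠ e : ℕ in atTop, ∀ m, 2 ^ e ≤ m → m < 2 ^ (e + 1) →
      ∑ k ∈ TT η m, rh m * VV (2 ^ a) e m (xiLo a e) (1 + η + k * rh m) ≤
        1000 / (2 : ℝ) ^ e * ∑ j ∈ Icc ⌈η / 2 * 2 ^ e⌉₊ (2 ^ e),
          (((2 : ℝ) ^ e) ^ (-(1 / 4) : ℝ) / 2 ^ e +
            ((2 : ℝ) ^ e) ^ (1 / 10 : ℝ) / 2 ^ e * √(enAv 4 (2 ^ a) e (m + j) j)) := by
    filter_upwards [hB, blk_lo (θ := η / 2) (by linarith) (by linarith) hκ ha, grid h0 h1 hJ]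
      with e hB hb hg m m1 m2
    exact hg m m1 m2 (xiLo a e) _ _ (by positivity) (by positivity) (aeB_xi_nn a e)
      fun j s hj hs => hb hB j s hj hs
  filter_upwards [ev_lv hu] with m h
  rwa [Real.norm_of_nonneg (sum_nonneg fun k _ => mul_nonneg (rh_pos m).le
    (VV_nonneg _ _ _ (aeB_xi_nn a _) _))]

lemma aeB_num (a : ℕ) : ∀ᶠ m : ℕ in atTop, a ≤ lv m + 2 ∧ 1 ≤ m ∧
    Real.log m / 100 ≤ (sc a (lv m)).card ∧ (10 : ℝ) ^ 7 ≤ Real.log m := by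
  have t1 : Tendsto (fun m : ℕ => Real.log m) atTop atTop :=
    Real.tendsto_log_atTop.comp tendsto_natCast_atTop_atTop
  filter_upwards [lv_tendsto.eventually_ge_atTop (2 * a + 200), eventually_ge_atTop 1,
    t1.eventually_ge_atTop (10 ^ 7)] with m h1 h2 h3
  refine ⟨by omega, h2, ?_, h3⟩
  have c1 : (sc a (lv m)).card = lv m / 50 := by
    unfold sc
    rw [Nat.card_Ico]
    omega
  have c2 : lv m + 1 ≤ 100 * (lv m / 50) := by omega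
  have c3 : ((lv m : ℝ) + 1) ≤ 100 * ((lv m / 50 : ℕ) : ℝ) := by exact_mod_cast c2
  have c4 : (m : ℝ) ≤ 2 ^ (lv m + 1) := by exact_mod_cast (lt_lv m).le
  have c5 := Real.log_le_log (by exact_mod_cast h2) c4
  rw [Real.log_pow] at c5
  push_cast at c5
  have c6 := Real.log_two_lt_d9
  have c7 : (0 : ℝ) ≤ lv m := Nat.cast_nonneg _
  rw [c1]
  nlinarith

lemma aeB_one {a m : ℕ} (h1 : a ≤ lv m + 2) (h2 : 1 ≤ m)
    (h3 : Real.log m / 100 ≤ (sc a (lv m)).card) (h4 : (10 : ℝ) ^ 7 ≤ Real.log m) {t c : ℝ}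
    (hG : Geo (2 ^ m) (QQ 4 (2 ^ a) (lv m)) (2 ^ jj (2 ^ m) t)
      (2 ^ (jj (2 ^ m) t + kk (2 ^ a) (lv m))) t (rh m))
    (hc : c ∈ Set.Ico t (t + rh m))
    (hv : (QQ 4 (2 ^ a) (lv m) : ℝ) ^ 5 * (((2 ^ m : ℕ) : ℝ) / (80 * Real.log ((2 ^ m : ℕ) : ℝ))) ≤
      ∑ x ∈ allU (2 ^ m) (QQ 4 (2 ^ a) (lv m)), (QQ 4 (2 ^ a) (lv m) : ℝ) *
        (piB (2 ^ (jj (2 ^ m) t + kk (2 ^ a) (lv m))) (sb (QQ 4 (2 ^ a) (lv m))
          (2 ^ (jj (2 ^ m) t + kk (2 ^ a) (lv m))) (st (2 ^ m) (QQ 4 (2 ^ a) (lv m)) c x)) /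
          ((2 ^ (jj (2 ^ m) t + kk (2 ^ a) (lv m)) : ℕ) : ℝ)))
    (hd : |WS (2 ^ m) (QQ 4 (2 ^ a) (lv m)) c (Flo (sc a (lv m)) (QQ 4 (2 ^ a) (lv m))) -
      BS (2 ^ m) (QQ 4 (2 ^ a) (lv m)) (2 ^ (jj (2 ^ m) t + kk (2 ^ a) (lv m))) t c
        (Flo (sc a (lv m)) (QQ 4 (2 ^ a) (lv m)))| ≤
      4 * (QQ 4 (2 ^ a) (lv m) : ℝ) * ((2 ^ m : ℕ) : ℝ) / (QQ 4 (2 ^ a) (lv m) : ℝ) ^ 3) :
    1 / 10 ^ 7 * Real.log m / m - VV (2 ^ a) (lv m) m (xiLo a (lv m)) t ≤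
      m / 2 ^ m * RG c (2 ^ m) (2 * 2 ^ m) := by
  have h := low_one hG hc (sc a (lv m))
    (ξ := xiS (2 ^ a) (lv m) (jj (2 ^ m) t) (xiLo a (lv m) (jj (2 ^ m) t)) t)
    (aeB_xiS_nn _ _ _ _) (fun s _ u w => by
      have hs : sl (QQ 4 (2 ^ a) (lv m)) (2 ^ (jj (2 ^ m) t + kk (2 ^ a) (lv m))) t s ∈
          (par 4 (2 ^ a) (lv m) (jj (2 ^ m) t) s).LB := mem_Ico.2 ⟨u, w⟩
      unfold xiS
      rw [if_pos hs, bar_eq, ← dens_eq, sub_le_comm]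
      exact le_max_left _ _) hv hd
  have m0 : (0 : ℝ) < m := by exact_mod_cast h2
  have a2 : (m : ℝ) ≤ 2 ^ (lv m + 1) := by exact_mod_cast (lt_lv m).le
  have hQ : (QQ 4 (2 ^ a) (lv m) : ℝ) = 2 * 2 ^ (lv m + 1) := by
    rw [QQ_eq h1]; push_cast; ring
  have hV := VV_nonneg (2 ^ a) (lv m) m (aeB_xi_nn a (lv m)) t
  unfold VV at hV ⊢
  set S := ∑ s ∈ SR (2 ^ m * 2 ^ jj (2 ^ m) t) (2 ^ (jj (2 ^ m) t + kk (2 ^ a) (lv m))),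
    xiS (2 ^ a) (lv m) (jj (2 ^ m) t) (xiLo a (lv m) (jj (2 ^ m) t)) t s
  generalize (QQ 4 (2 ^ a) (lv m) : ℝ) = Q at h hQ
  generalize ((sc a (lv m)).card : ℝ) = T at h h3
  have q1 : 2 * (m : ℝ) ≤ Q := by linarith
  have q0 : 0 < Q := by linarith
  push_cast at h
  rw [Real.log_pow] at h
  refine le_trans ?_ (mul_le_mul_of_nonneg_left h (by positivity))
  have l0 := Real.log_two_gt_d9
  have l1 := Real.log_two_lt_d9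
  have b1 : (m : ℝ) / 2 ^ m * (2 * 2 ^ (jj (2 ^ m) t + kk (2 ^ a) (lv m)) /
      (2 ^ jj (2 ^ m) t * Q) * S) ≤
      2 * 2 ^ (jj (2 ^ m) t + kk (2 ^ a) (lv m)) / (2 ^ m * 2 ^ jj (2 ^ m) t) * S := by
    calc _ = m / Q * (2 * 2 ^ (jj (2 ^ m) t + kk (2 ^ a) (lv m)) /
          (2 ^ m * 2 ^ jj (2 ^ m) t) * S) := by field_simp
      _ ≤ _ := mul_le_of_le_one_left hV ((div_le_one q0).2 (by linarith))
  have b2 : (m : ℝ) / 2 ^ m * (4 * 2 ^ m / Q ^ 2) ≤ 1 / 10 ^ 7 * Real.log m / m := by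
    calc _ = 4 * m / Q ^ 2 := by field_simp
      _ ≤ 4 * m / (2 * m) ^ 2 := by gcongr
      _ = 1 / m := by field_simp; norm_num
      _ ≤ _ := by gcongr; linarith
  have b3 : 2 * (1 / 10 ^ 7 * Real.log m / m) ≤
      (m : ℝ) / 2 ^ m * (T * (2 ^ m / (8 * (80 * (m * Real.log 2)) ^ 2))) := by
    have l2 : Real.log 2 ^ 2 ≤ 1 / 2 := by nlinarith
    have T0 : 0 ≤ T := le_trans (by positivity) h3
    calc _ ≤ T / (51200 * (1 / 2)) / m := by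
          rw [← mul_div_assoc]
          gcongr
          linarith
      _ ≤ T / (51200 * Real.log 2 ^ 2) / m := by gcongr
      _ = _ := by field_simp; ring
  rw [mul_sub, mul_sub]
  linarith

theorem ae_low {η : ℝ} (h0 : 0 < η) (h1 : η < 1 / 8) :
    ∀ᵐ c : ℝ, c ∈ Set.Icc (1 + η) (3 / 2 - η) → ∃ δ : ℝ, 0 < δ ∧ ∃ v : ℕ → ℝ, Summable v ∧
      ∀ᶠ m : ℕ in atTop, δ * Real.log m / m - v m ≤ m / 2 ^ m * RG c (2 ^ m) (2 * 2 ^ m) := by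
  obtain ⟨κ, hκ, hB⟩ := bt (θ := η / 2) (by linarith) (by linarith)
  obtain ⟨a, ha⟩ := pow_unbounded_of_one_lt (κ * 4) (one_lt_two (α := ℝ))
  have hJ : 1 ≤ 2 ^ a := Nat.one_le_two_pow
  have hs := ae_steps h0 (fun m t => VV (2 ^ a) (lv m) m (xiLo a (lv m)) t)
    (fun m t => VV_nonneg _ _ _ (aeB_xi_nn a _) t) (aeB_mean h0 h1 hκ hB ha.le)
  have hx := exc h0 h1 hJ (fun m => Flo (sc a (lv m)) (QQ 4 (2 ^ a) (lv m)))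
    (fun m => (QQ 4 (2 ^ a) (lv m) : ℝ)) ((aeB_num a).mono fun m hm => ⟨by
      rw [QQ_eq hm.1]; positivity, fun S hS => by
      rw [abs_of_nonneg (Flo_nonneg _ _ _)]
      exact (Flo_le _ _ _).trans (by exact_mod_cast (card_le_card hS).trans (card_range _).le)⟩)
  have t2 : Tendsto (fun m : ℕ => 2 ^ m) atTop atTop :=
    tendsto_pow_atTop_atTop_of_one_lt one_lt_two
  filter_upwards [hs, hx] with c hs hx hc
  refine ⟨1 / 10 ^ 7, by positivity, _, hs hc, ?_⟩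
  filter_upwards [hx hc, ev_lv (geo_ev h0 h1 (lam := 4) (by norm_num) hJ), aeB_num a,
    t2.eventually vis_primes] with m hx hG hm hv
  obtain ⟨t1, t2, t3, -⟩ := tg_spec h0 hc m
  exact aeB_one hm.1 hm.2.1 hm.2.2.1 hm.2.2.2 (hG _ t1 t2).1 t3
    (hv _ _ _ _ _ _ (hG _ t1 t2).1 t3) hx

end Pool.Agent.Lib.MP_127c84_nt.EN
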