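import Pool.Agent.Lib.MP_127c84_nt.EN.Pt
import Pool.Agent.Lib.MP_127c84_nt.EN.AeS
import Pool.Agent.Lib.MP_127c84_nt.EN.Grid
import Pool.Agent.Lib.MP_127c84_nt.EN.Lev
import Pool.Agent.Lib.MP_127c84_nt.EN.BlkE

open Finset Filter Topology MeasureTheory
open Pool.Agent.Lib.MP_0d244d_nt.PS

namespace Pool.Agent.Lib.MP_127c84_nt.EN

lemma aeC_xi_nn (J e j s : ℕ) (B : ℤ) : 0 ≤ xiUp J e j s B := by
  unfold xiUp Par.bar
  exact div_nonneg (sum_nonneg fun A _ => Fup_nonneg (hit_sub _ _ _ _ _)) (by positivity)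

lemma aeC_xiS_nn (J e j : ℕ) (t : ℝ) (s : ℕ) : 0 ≤ xiS J e j (xiUp J e j) t s := by
  unfold xiS
  split_ifs
  · exact aeC_xi_nn _ _ _ _ _
  · exact le_rfl

lemma aeC_Q (e : ℕ) : QQ 4 1 e = 4 * 2 ^ e := by
  simp [QQ]

lemma aeC_lv {m : ℕ} (hm : 3 ≤ m) : (lv m : ℝ) ≤ 2 * Real.log m ∧ (m : ℝ) ≤ 2 * 2 ^ lv m ∧
    (2 : ℝ) ^ lv m ≤ m ∧ 1 ≤ Real.log m := by
  have a1 : (2 : ℝ) ^ lv m ≤ m := by exact_mod_cast lv_le (m := m) (by omega)
  have a2 : (m : ℝ) ≤ 2 * 2 ^ lv m := by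
    have := (lt_lv m).le
    rw [pow_succ'] at this
    exact_mod_cast this
  have a3 : (3 : ℝ) ≤ m := by exact_mod_cast hm
  have a4 := Real.log_le_log (by positivity) a1
  rw [Real.log_pow] at a4
  have a5 := Real.log_two_gt_d9
  have a6 : (0 : ℝ) ≤ lv m := Nat.cast_nonneg _
  refine ⟨by nlinarith, a2, a1, ?_⟩
  rw [Real.le_log_iff_exp_le (by linarith)]
  linarith [Real.exp_one_lt_d9]

lemma aeC_pow (g : ℝ) {m : ℕ} (hm : 3 ≤ m) :
    Real.log m / m / Real.log m ^ g = 1 / (m * Real.log m ^ (g - 1)) := by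
  have h1 : 0 < Real.log m := lt_of_lt_of_le one_pos (aeC_lv hm).2.2.2
  have h2 : 0 < Real.log m ^ g := Real.rpow_pos_of_pos h1 g
  have h3 : (0 : ℝ) < m := by exact_mod_cast lt_of_lt_of_le (by norm_num) hm
  rw [Real.rpow_sub_one h1.ne']
  field_simp

/-- the weighted block sums -/
noncomputable def aeCV (g : ℝ) (m : ℕ) (t : ℝ) : ℝ :=
  VV 1 (lv m) m (xiUp 1 (lv m)) t / Real.log m ^ g

lemma aeCV_nn (g : ℝ) (m : ℕ) (t : ℝ) : 0 ≤ aeCV g m t :=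
  div_nonneg (VV_nonneg _ _ _ (aeC_xi_nn _ _) t)
    (Real.rpow_nonneg (Real.log_natCast_nonneg m) g)

/-- the mean over the grid at one level -/
lemma aeC_grid {η : ℝ} (h0 : 0 < η) (h1 : η < 1 / 8) : ∃ K : ℝ, 0 ≤ K ∧ ∀ᶠ m : ℕ in atTop,
    ∑ k ∈ TT η m, rh m * VV 1 (lv m) m (xiUp 1 (lv m)) (1 + η + k * rh m) ≤
      K * (Real.log m / m) := by
  obtain ⟨κ, hκ, hB⟩ := bt (θ := η / 2) (by linarith) (by linarith)
  refine ⟨1408000 * κ ^ 2, by positivity, ?_⟩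
  have hu : ∀ᶠ e : ℕ in atTop, ∀ m, 2 ^ e ≤ m → m < 2 ^ (e + 1) →
      ∑ k ∈ TT η m, rh m * VV 1 e m (xiUp 1 e) (1 + η + k * rh m) ≤
        352000 * κ ^ 2 * (e / 2 ^ e) := by
    filter_upwards [hB, blk_up (θ := η / 2) (by linarith) hκ, grid h0 h1 (J := 1) le_rfl]
      with e hB hb hg m m1 m2
    have h := hg m m1 m2 (xiUp 1 e) (176 * κ ^ 2 * e / 2 ^ e) 0 (by positivity) le_rfl
      (aeC_xi_nn 1 e) fun j s hj hs => by
        rw [zero_mul, add_zero]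
        exact hb hB j s hj hs
    refine h.trans ?_
    simp only [zero_mul, add_zero, sum_const, nsmul_eq_mul]
    have c1 : ((Icc ⌈η / 2 * 2 ^ e⌉₊ (2 ^ e)).card : ℝ) ≤ 2 * 2 ^ e := by
      have a : (Icc ⌈η / 2 * 2 ^ e⌉₊ (2 ^ e)).card ≤ 2 * 2 ^ e := by
        rw [Nat.card_Icc]
        have : 1 ≤ 2 ^ e := Nat.one_le_two_pow
        omega
      exact_mod_cast a
    calc _ ≤ 1000 / 2 ^ e * (2 * 2 ^ e * (176 * κ ^ 2 * e / 2 ^ e)) := by gcongr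
      _ = _ := by field_simp; ring
  filter_upwards [ev_lv hu, eventually_ge_atTop 3] with m h hm
  obtain ⟨a1, a2, a3, a4⟩ := aeC_lv hm
  refine h.trans ?_
  have m0 : (0 : ℝ) < m := lt_of_lt_of_le (by positivity) a3
  have b : (lv m : ℝ) / 2 ^ lv m ≤ 4 * (Real.log m / m) := by
    rw [← mul_div_assoc, div_le_div_iff₀ (by positivity) m0]
    calc (lv m : ℝ) * m ≤ (2 * Real.log m) * (2 * 2 ^ lv m) := by gcongr
      _ = _ := by ring
  calc _ ≤ 352000 * κ ^ 2 * (4 * (Real.log m / m)) := by gcongr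
    _ = _ := by ring

lemma aeC_mean {η g : ℝ} (h0 : 0 < η) (h1 : η < 1 / 8) (hg : 2 < g) :
    Summable fun m => ∑ k ∈ TT η m, rh m * aeCV g m (1 + η + k * rh m) := by
  obtain ⟨K, hK, h⟩ := aeC_grid h0 h1
  refine Summable.of_norm_bounded_eventually_nat
    ((bertrand (y := g - 1) (by linarith)).mul_left K) ?_
  filter_upwards [h, eventually_ge_atTop 3] with m h hm
  rw [Real.norm_of_nonneg (sum_nonneg fun k _ => mul_nonneg (rh_pos m).le (aeCV_nn _ _ _)),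
    ← aeC_pow g hm, ← mul_div_assoc]
  simp only [aeCV, ← mul_div_assoc]
  rw [← sum_div]
  refine div_le_div_of_nonneg_right ?_ (Real.rpow_nonneg (Real.log_natCast_nonneg m) g)
  simpa only [← mul_div_assoc] using h

/-- one dyadic block -/
lemma aeC_one {m : ℕ} (hm : 3 ≤ m) {t c : ℝ}
    (hG : Geo (2 ^ m) (QQ 4 1 (lv m)) (2 ^ jj (2 ^ m) t) (2 ^ (jj (2 ^ m) t + kk 1 (lv m))) t (rh m))
    (hc : c ∈ Set.Ico t (t + rh m))
    (hd : |WS (2 ^ m) (QQ 4 1 (lv m)) c (Fup (QQ 4 1 (lv m))) - BS (2 ^ m) (QQ 4 1 (lv m))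
      (2 ^ (jj (2 ^ m) t + kk 1 (lv m))) t c (Fup (QQ 4 1 (lv m)))| ≤
      4 * (2 * (QQ 4 1 (lv m) : ℝ) * (1 + Real.log (QQ 4 1 (lv m)))) * ((2 ^ m : ℕ) : ℝ) /
        (QQ 4 1 (lv m) : ℝ) ^ 3) :
    m / 2 ^ m * RG c (2 ^ m) (2 * 2 ^ m) ≤
      VV 1 (lv m) m (xiUp 1 (lv m)) t + 9 * (Real.log m / m) := by
  have h := up_one hG hc (ξ := xiS 1 (lv m) (jj (2 ^ m) t) (xiUp 1 (lv m) (jj (2 ^ m) t)) t)
    (aeC_xiS_nn _ _ _ _) (fun s _ a b => by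
      have hs : sl (QQ 4 1 (lv m)) (2 ^ (jj (2 ^ m) t + kk 1 (lv m))) t s ∈
          (par 4 1 (lv m) (jj (2 ^ m) t) s).LB := mem_Ico.2 ⟨a, b⟩
      unfold xiS
      rw [if_pos hs, bar_eq]
      exact le_rfl) hd
  obtain ⟨a1, a2, a3, a4⟩ := aeC_lv hm
  have m0 : (0 : ℝ) < m := lt_of_lt_of_le (by positivity) a3
  have hQ : (QQ 4 1 (lv m) : ℝ) = 4 * 2 ^ lv m := by rw [aeC_Q]; push_cast; rfl
  have hV := VV_nonneg 1 (lv m) m (aeC_xi_nn 1 (lv m)) t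
  unfold VV at hV ⊢
  set S := ∑ s ∈ SR (2 ^ m * 2 ^ jj (2 ^ m) t) (2 ^ (jj (2 ^ m) t + kk 1 (lv m))),
    xiS 1 (lv m) (jj (2 ^ m) t) (xiUp 1 (lv m) (jj (2 ^ m) t)) t s
  generalize (QQ 4 1 (lv m) : ℝ) = Q at h hQ
  have q1 : 2 * (m : ℝ) ≤ Q := by linarith
  have q2 : Q ≤ 4 * m := by linarith
  have q0 : 0 < Q := by linarith
  have q3 : 1 + Real.log Q ≤ 4 * Real.log m := by
    have b1 := Real.log_le_log q0 q2
    rw [Real.log_mul (by norm_num) m0.ne', show (4 : ℝ) = 2 ^ 2 by norm_num, Real.log_pow] at b1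
    have := Real.log_two_lt_d9
    push_cast at b1
    linarith
  push_cast at h
  refine (mul_le_mul_of_nonneg_left h (by positivity)).trans ?_
  rw [mul_add]
  refine add_le_add ?_ ?_
  · calc _ = m / Q * (2 * 2 ^ (jj (2 ^ m) t + kk 1 (lv m)) / (2 ^ m * 2 ^ jj (2 ^ m) t) * S) := by
          field_simp
      _ ≤ _ := mul_le_of_le_one_left hV ((div_le_one q0).2 (by linarith))
  · calc _ = 9 * (m * (1 + Real.log Q) / Q ^ 2) := by field_simp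
      _ ≤ 9 * (m * (4 * Real.log m) / (2 * m) ^ 2) := by gcongr
      _ = _ := by field_simp; norm_num

theorem ae_up {η g : ℝ} (h0 : 0 < η) (h1 : η < 1 / 8) (hg : 2 < g) :
    ∀ᵐ c : ℝ, c ∈ Set.Icc (1 + η) (3 / 2 - η) →
      Summable fun m : ℕ => m / 2 ^ m / Real.log m ^ g * RG c (2 ^ m) (2 * 2 ^ m) := by
  have hs := ae_steps h0 (aeCV g) (aeCV_nn g) (aeC_mean h0 h1 hg)
  have hx := exc h0 h1 (J := 1) le_rfl (fun m => Fup (QQ 4 1 (lv m)))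
    (fun m => 2 * (QQ 4 1 (lv m) : ℝ) * (1 + Real.log (QQ 4 1 (lv m))))
    (Eventually.of_forall fun m => ⟨by
      have a : (0 : ℝ) < QQ 4 1 (lv m) := by rw [aeC_Q]; positivity
      have b := Real.log_natCast_nonneg (QQ 4 1 (lv m))
      positivity, fun S hS => by
      rw [abs_of_nonneg (Fup_nonneg hS)]
      exact Fup_le hS⟩)
  filter_upwards [hs, hx] with c hs hx hc
  refine Summable.of_norm_bounded_eventually_nat
    ((hs hc).add ((bertrand (y := g - 1) (by linarith)).mul_left 9)) ?_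
  filter_upwards [hx hc, ev_lv (geo_ev h0 h1 (lam := 4) (J := 1) (by norm_num) le_rfl),
    eventually_ge_atTop 3] with m hx hG hm
  obtain ⟨t1, t2, t3, -⟩ := tg_spec h0 hc m
  have h := aeC_one hm (hG _ t1 t2).1 t3 hx
  have l0 := Real.rpow_nonneg (Real.log_natCast_nonneg m) g
  have r0 : 0 ≤ RG c (2 ^ m) (2 * 2 ^ m) := RG_nonneg _ _ _
  rw [Real.norm_of_nonneg (by positivity), ← aeC_pow g hm, aeCV, ← mul_div_assoc, ← add_div,
    div_mul_eq_mul_div]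
  exact div_le_div_of_nonneg_right h l0

end Pool.Agent.Lib.MP_127c84_nt.EN
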