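import Pool.Agent.Lib.MP_127c84_nt.EN.DetLo

open Finset Filter Topology MeasureTheory
open Pool.Agent.Lib.MP_0d244d_nt.PS

namespace Pool.Agent.Lib.MP_127c84_nt.EN

lemma blkL_Phi {J l j : ℕ} (hj : j < J) (k : ℕ) (S : Finset ℕ) :
    Phi J l (Pi.single j k) S = (cw l S j).descFactorial k := by
  rw [Phi, prod_eq_single j (fun b _ hb => by simp [Pi.single_eq_of_ne hb])
    (fun h => absurd (mem_range.2 hj) h), Pi.single_eq_same]

lemma blkL_deg {J j : ℕ} (hj : j < J) (k : ℕ) : deg J (Pi.single j k) = k := by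
  rw [deg, sum_eq_single j (fun b _ hb => by simp [Pi.single_eq_of_ne hb])
    (fun h => absurd (mem_range.2 hj) h), Pi.single_eq_same]

lemma blkL_one {p : Par} (hp : p.Ok) {ν : ℤ → ℝ} {L Bm κ ε Mo : ℝ} {R : ℕ}
    (H : p.Hyp p.PB ν L Bm κ ε Mo R) (hR : 3 ≤ R) (hl : 2 * p.l * κ ≤ L) {T : Finset ℤ}
    (hT : T ⊆ p.LB) :
    p.J * (p.tau p.PB ^ 2 / 4 * (T ×ˢ p.LA).card -
        R * (p.Lam * p.del L Bm κ ε Mo R (p.En p.PB L))) ≤
      ∑ w ∈ T ×ˢ p.LA, ∑ j ∈ range p.J,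
        ((cw p.l (hit p.G p.Q p.PB w.2 w.1) j - 1 : ℕ) : ℝ) := by
  obtain ⟨h0, h1, -⟩ := tau_bounds hp H
  have h2 : p.tau p.PB ≤ 1 / 2 := h1.trans (by
    rw [div_le_iff₀ H.L_pos]
    linarith)
  rw [sum_comm]
  refine le_trans (le_of_eq ?_) (card_nsmul_le_sum (range p.J) _
    (p.tau p.PB ^ 2 / 4 * (T ×ˢ p.LA).card -
      R * (p.Lam * p.del L Bm κ ε Mo R (p.En p.PB L))) fun j hj => ?_)
  · rw [card_range, nsmul_eq_mul]
  have hj' := mem_range.1 hj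
  have m2 := blkMom hp H hT (r := Pi.single j 2) (by rw [blkL_deg hj']; omega)
  have m3 := blkMom hp H hT (r := Pi.single j 3) (by rw [blkL_deg hj']; omega)
  simp only [blkL_Phi hj', blkL_deg hj'] at m2 m3
  have h3 := sum_le_sum fun w (_ : w ∈ T ×ˢ p.LA) =>
    surplus (cw p.l (hit p.G p.Q p.PB w.2 w.1) j)
  rw [← sum_div, sum_sub_distrib] at h3
  have h4 : p.tau p.PB ^ 3 * ((T ×ˢ p.LA).card : ℝ) ≤
      p.tau p.PB ^ 2 / 2 * (T ×ˢ p.LA).card := by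
    refine mul_le_mul_of_nonneg_right ?_ (Nat.cast_nonneg _)
    have := mul_le_mul_of_nonneg_left h2 (sq_nonneg (p.tau p.PB))
    calc p.tau p.PB ^ 3 = p.tau p.PB ^ 2 * p.tau p.PB := by ring
      _ ≤ _ := by linarith
  linarith [(abs_le.1 m2).1, (abs_le.1 m3).2]

lemma blkL_scale {p : Par} (hp : p.Ok) {ν : ℤ → ℝ} {L Bm κ ε Mo : ℝ} {R : ℕ}
    (H : p.Hyp p.PB ν L Bm κ ε Mo R) (hR : 3 ≤ R) {i : ℕ} (h1 : 2 ^ i ∣ p.Q)
    (h2 : 2 * 2 ^ i * κ ≤ L) {T : Finset ℤ} (hT : T ⊆ p.LB) :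
    p.Q * dens p ^ 2 / 8 * (T ×ˢ p.LA).card -
        R * (p.Lam * p.del L Bm κ ε Mo R (p.En p.PB L)) / 2 * ((p.Q : ℝ) / 4 ^ i) ≤
      ∑ w ∈ T ×ˢ p.LA, (∑ j ∈ range (p.Q / 2 ^ i),
        ((cw (2 ^ i) (hit p.G p.Q p.PB w.2 w.1) j - 1 : ℕ) : ℝ)) / (2 * 2 ^ i) := by
  let p' : Par := ⟨p.G, p.D, p.Q / 2 ^ i, 2 ^ i, p.b, p.Y, p.x0⟩
  have hQ : p'.Q = p.Q := Nat.div_mul_cancel h1
  have hp' : p'.Ok :=
    ⟨Nat.div_pos (Nat.le_of_dvd hp.Q_pos h1) (by positivity), by positivity, hp.b_pos, hp.b_Y,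
      hp.b_x, hQ ▸ hp.hG, hQ ▸ hp.hb, hQ ▸ hp.hY⟩
  have hLA : p'.LA = p.LA := by
    unfold Par.LA
    rw [hQ]
  have hκ : (0 : ℝ) ≤ 2 ^ i * κ := mul_nonneg (by positivity) (by linarith [H.κ_ge])
  have H' : p'.Hyp p'.PB ν L Bm κ ε Mo R :=
    ⟨H.sub, H.L_pos, H.Bm_nn, H.κ_ge, H.ε_nn, H.ε_le, H.Mo_ge, H.ν_nn, H.maj,
      fun j r hj hr q u g v hq => H.slf j r hj hr q u g v (hQ ▸ hq), H.cell, by
        have := H.mo
        unfold Par.SL at this ⊢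
        rw [hLA, hQ]
        exact this, by
        show ((2 ^ i : ℕ) : ℝ) * κ ≤ L
        push_cast
        linarith⟩
  have h := blkL_one hp' H' hR (by
    show 2 * ((2 ^ i : ℕ) : ℝ) * κ ≤ L
    push_cast
    exact h2) (T := T) hT
  have hdel : p'.del L Bm κ ε Mo R (p'.En p'.PB L) = p.del L Bm κ ε Mo R (p.En p.PB L) := by
    unfold Par.del
    rw [hQ]
    rfl
  have hτ : p'.tau p'.PB = 2 ^ i * dens p := by
    have : ∑ x ∈ p.blk, iP p.PB x = ∑ x ∈ p.blk, iP PR x := sum_congr rfl fun x hx => by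
      by_cases hx' : PR x
      · rw [iP_pos hx', iP_pos (P := p.PB) ⟨hx', hx⟩]
      · rw [iP_neg hx', iP_neg (P := p.PB) fun h => hx' h.1]
    rw [dens, ← this]
    show ((2 ^ i : ℕ) : ℝ) * _ = _
    push_cast
    rfl
  have hJ : (p'.J : ℝ) = p.Q / 2 ^ i := by
    show ((p.Q / 2 ^ i : ℕ) : ℝ) = _
    rw [Nat.cast_div h1 (by positivity)]
    push_cast
    rfl
  rw [hdel, hτ, hJ, hLA, hQ] at h
  rw [← sum_div, le_div_iff₀ (by positivity)]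
  refine le_trans (le_of_eq ?_) h
  have e4 : (4 : ℝ) ^ i = 2 ^ i * 2 ^ i := by
    rw [← mul_pow]
    norm_num
  have e5 : p'.Lam = p.Lam := rfl
  rw [e4, e5]
  field_simp
  ring

/-- the deficit of the lower statistic, summed over the slopes -/
theorem blk_low {p : Par} (hp : p.Ok) {ν : ℤ → ℝ} {L Bm κ ε Mo : ℝ} {R : ℕ}
    (H : p.Hyp p.PB ν L Bm κ ε Mo R) (hR : 3 ≤ R) (I : Finset ℕ)
    (hI : ∀ i ∈ I, 2 ^ i ∣ p.Q ∧ 2 * 2 ^ i * κ ≤ L) :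
    ∑ B ∈ p.LB, defi p I B ≤ p.D * p.G *
      (R * p.del L Bm κ ε Mo R (p.En p.PB L) * ∑ i ∈ I, (p.Q : ℝ) / 4 ^ i +
        36 * (p.D * (p.Q : ℝ) ^ 2 / p.Y)) := by
  have hδ0 := del_nonneg H (p.En p.PB L)
  set δ := p.del L Bm κ ε Mo R (p.En p.PB L) with hδ
  set σ : ℝ := ∑ i ∈ I, (p.Q : ℝ) / 4 ^ i with hσ
  have hσ0 : 0 ≤ σ := sum_nonneg fun i _ => by positivity
  have hG : (0 : ℝ) < p.G := by exact_mod_cast hp.G_pos
  have hY : (0 : ℝ) < p.Y := by exact_mod_cast hp.Y_pos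
  have hD : (0 : ℝ) < p.D := by exact_mod_cast hp.D_pos
  have hGY : (0 : ℝ) < p.G * p.Y := mul_pos hG hY
  set μ : ℝ := I.card * (p.Q * dens p ^ 2) / 8 with hμ
  have hμ0 : 0 ≤ μ := by positivity
  have key := blkOne p.LB
    (fun B => μ - p.bar (fun A B => Flo I p.Q (hit p.G p.Q PR A B)) B) 0
    (p.D * p.G * (R * δ * σ + 36 * (p.D * (p.Q : ℝ) ^ 2 / p.Y))) fun T hT => by
      have c1 := sum_le_sum fun i (hi : i ∈ I) => blkL_scale hp H hR (hI i hi).1 (hI i hi).2 hT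
      rw [sum_sub_distrib, sum_const, nsmul_eq_mul, ← mul_sum, sum_comm, ← hδ, ← hσ] at c1
      change _ ≤ ∑ w ∈ T ×ˢ p.LA, Flo I p.Q (hit p.G p.Q p.PB w.2 w.1) at c1
      have c3 := (abs_le.1 (blkBar hp hT (fun _ _ S => Flo I p.Q S) fun A B S => by
        rw [abs_of_nonneg (Flo_nonneg _ _ _)]
        exact Flo_le _ _ _)).1
      have c4 : (T.card : ℝ) ≤ 3 * (p.G * p.D) := by
        rw [← blkLB]
        exact_mod_cast card_le_card hT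
      have c5 := mul_le_mul_of_nonneg_right c4
        (show (0 : ℝ) ≤ 12 * (p.G * p.D * (p.Q : ℝ) ^ 2) by positivity)
      have c6 : μ * (T.card * (p.G * p.Y)) ≤ μ * ((T ×ˢ p.LA).card : ℝ) := by
        refine mul_le_mul_of_nonneg_left ?_ hμ0
        rw [card_product, Nat.cast_mul, blkLA]
        refine mul_le_mul_of_nonneg_left ?_ (Nat.cast_nonneg _)
        have : (0 : ℝ) ≤ p.G * p.D * p.Q := by positivity
        linarith
      have c7 : (I.card : ℝ) * (p.Q * dens p ^ 2 / 8 * ((T ×ˢ p.LA).card : ℝ)) =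
          μ * ((T ×ˢ p.LA).card : ℝ) := by
        rw [hμ]
        ring
      have c8 : p.G * p.Y * (p.D * p.G * (R * δ * σ + 36 * (p.D * (p.Q : ℝ) ^ 2 / p.Y))) =
          R * (p.Lam * δ) * σ + 3 * (p.G * p.D) * (12 * (p.G * p.D * (p.Q : ℝ) ^ 2)) := by
        rw [Par.Lam]
        field_simp
        ring
      have c9 : 0 ≤ R * (p.Lam * δ) * σ :=
        mul_nonneg (mul_nonneg (Nat.cast_nonneg _) (mul_nonneg hp.Lam_pos.le hδ0)) hσ0
      refine le_of_mul_le_mul_left ?_ hGY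
      rw [zero_mul, zero_add, c8, sum_sub_distrib, sum_const, nsmul_eq_mul, mul_sub]
      linarith
  simp only [sub_zero] at key
  exact key

end Pool.Agent.Lib.MP_127c84_nt.EN
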