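import Pool.Agent.Lib.MP_0d244d_nt.PS.MeasB

/-! Definitions for the series of reciprocal gaps between indices with prime floor (n ^ c). -/

open Finset Filter Topology
open Pool.Agent.Lib.MP_0d244d_nt.PS

namespace Pool.Agent.Lib.MP_127c84_nt.EN

open Classical in
/-- positions of the window `[n, n + Q)` with prime value -/
noncomputable def win (c : ℝ) (n Q : ℕ) : Finset ℕ :=
  (range Q).filter fun h => PR (val c (n + h))

/-- distance to the next index with prime value -/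
noncomputable def gp (c : ℝ) (n : ℕ) : ℕ := sInf {k | 0 < k ∧ PR (val c (n + k))}

/-- sum of the reciprocal gaps over the indices of `[lo, hi)` -/
noncomputable def RG (c : ℝ) (lo hi : ℕ) : ℝ := ∑ n ∈ ps c lo hi, 1 / (gp c n : ℝ)

/-- lower statistic: surplus points in the windows of length `2 ^ i` -/
noncomputable def Flo (I : Finset ℕ) (Q : ℕ) (S : Finset ℕ) : ℝ :=
  ∑ i ∈ I, (∑ j ∈ range (Q / 2 ^ i), ((cw (2 ^ i) S j - 1 : ℕ) : ℝ)) / (2 * 2 ^ i)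

/-- upper statistic -/
noncomputable def Fup (Q : ℕ) (S : Finset ℕ) : ℝ :=
  ∑ h ∈ S, (∑ h' ∈ S.filter (fun h' => h < h'), 1 / ((h' : ℝ) - h) + 1 / ((Q : ℝ) - h))

/-- the number of points -/
def Fc (S : Finset ℕ) : ℝ := S.card

/-- a statistic read on lines -/
noncomputable def onL (Q : ℕ) (F : Finset ℕ → ℝ) (A B : ℤ) : ℝ := F (hit (Q ^ 10) Q PR A B)

/-- sum of a statistic over the windows -/
noncomputable def WS (N Q : ℕ) (c : ℝ) (F : Finset ℕ → ℝ) : ℝ :=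
  ∑ k ∈ range (Q ^ 5 * nU N Q), F (win c (N + k * Q) Q)

/-- sum of the block averages over the windows -/
noncomputable def BS (N Q Y : ℕ) (t c : ℝ) (F : Finset ℕ → ℝ) : ℝ :=
  (∑ x ∈ allU N Q, barS Q Y t (onL Q F) (sb Q Y (st N Q c x))) / (Q : ℝ) ^ 5

/-- level of a dyadic block -/
def lv (m : ℕ) : ℕ := Nat.log 2 m

/-- mesh of the grid of exponents -/
noncomputable def rh (m : ℕ) : ℝ := (1 / 2) ^ (m / 2)

/-- indices of the grid points -/
noncomputable def TT (η : ℝ) (m : ℕ) : Finset ℕ :=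
  (range (2 ^ (m / 2))).filter fun k : ℕ => 1 + η + k * rh m ≤ 3 / 2 - η

/-- the grid point below `c` -/
noncomputable def tg (η : ℝ) (m : ℕ) (c : ℝ) : ℝ := 1 + η + (⌊(c - (1 + η)) / rh m⌋₊ : ℕ) * rh m

/-- a function of the slope read at the slope of block `s` -/
noncomputable def xiS (J e j : ℕ) (ξ : ℕ → ℤ → ℝ) (t : ℝ) (s : ℕ) : ℝ :=
  if sl (QQ 4 J e) (2 ^ (j + kk J e)) t s ∈ (par 4 J e j s).LB then
    ξ s (sl (QQ 4 J e) (2 ^ (j + kk J e)) t s) else 0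

/-- normalised sum over the blocks -/
noncomputable def VV (J e m : ℕ) (ξ : ℕ → ℕ → ℤ → ℝ) (t : ℝ) : ℝ :=
  2 * 2 ^ (jj (2 ^ m) t + kk J e) / (2 ^ m * 2 ^ jj (2 ^ m) t) *
    ∑ s ∈ SR (2 ^ m * 2 ^ jj (2 ^ m) t) (2 ^ (jj (2 ^ m) t + kk J e)),
      xiS J e (jj (2 ^ m) t) (ξ (jj (2 ^ m) t)) t s

/-- the scales used at level `e` -/
def sc (a e : ℕ) : Finset ℕ := Ico (e + 2 - a - e / 50) (e + 2 - a)

/-- density of the primes in a block -/
noncomputable def dens (p : Par) : ℝ := (∑ x ∈ p.blk, iP PR x) / p.Y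

/-- deficit of the lower statistic -/
noncomputable def defi (p : Par) (I : Finset ℕ) (B : ℤ) : ℝ :=
  max (I.card * (p.Q * dens p ^ 2) / 8 -
    p.bar (fun A B => Flo I p.Q (hit p.G p.Q PR A B)) B) 0

/-- deficit at level `e` -/
noncomputable def xiLo (a e j s : ℕ) (B : ℤ) : ℝ := defi (par 4 (2 ^ a) e j s) (sc a e) B

/-- average of the upper statistic at level `e` -/
noncomputable def xiUp (J e j s : ℕ) (B : ℤ) : ℝ :=
  (par 4 J e j s).bar (onL (QQ 4 J e) (Fup (QQ 4 J e))) B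

/-- the number of indices in the dyadic blocks has the expected order -/
def Cnt (c : ℝ) : Prop := ∃ K : ℝ, ∀ᶠ m : ℕ in atTop,
  (2 : ℝ) ^ m / (100 * m) ≤ (ps c (2 ^ m) (2 * 2 ^ m)).card ∧
    ((ps c (2 ^ m) (2 * 2 ^ m)).card : ℝ) ≤ K * 2 ^ m / m

/-- the terms of the series -/
noncomputable def term (c g : ℝ) (n : ℕ) : ℝ :=
  1 / (((n : ℝ) + 3) * Real.log (Real.log ((n : ℝ) + 3)) ^ g *
    ((nu c (n + 3) : ℝ) - nu c (n + 2)))

lemma mem_win {c : ℝ} {n Q h : ℕ} : h ∈ win c n Q ↔ h < Q ∧ PR (val c (n + h)) := by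
  simp [win]

lemma win_sub (c : ℝ) (n Q : ℕ) : win c n Q ⊆ range Q := fun _ h => mem_range.2 (mem_win.1 h).1

lemma rh_pos (m : ℕ) : 0 < rh m := by unfold rh; positivity

lemma lv_le {m : ℕ} (hm : m ≠ 0) : 2 ^ lv m ≤ m := Nat.pow_log_le_self 2 hm

lemma lt_lv (m : ℕ) : m < 2 ^ (lv m + 1) := Nat.lt_pow_succ_log_self (by norm_num) m

lemma lv_tendsto : Tendsto lv atTop atTop :=
  tendsto_atTop_atTop.2 fun b => ⟨2 ^ b, fun _ h => Nat.le_log_of_pow_le (by norm_num) h⟩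

/-- statements for large levels hold for large blocks -/
lemma ev_lv {P : ℕ → ℕ → Prop}
    (h : ∀ᶠ e : ℕ in atTop, ∀ m, 2 ^ e ≤ m → m < 2 ^ (e + 1) → P e m) :
    ∀ᶠ m : ℕ in atTop, P (lv m) m := by
  filter_upwards [lv_tendsto.eventually h, eventually_ne_atTop 0] with m h1 h2
  exact h1 m (lv_le h2) (lt_lv m)

lemma bar_eq (J e j s : ℕ) (t : ℝ) (Ψ : ℤ → ℤ → ℝ) :
    barS (QQ 4 J e) (2 ^ (j + kk J e)) t Ψ s =
      (par 4 J e j s).bar Ψ (sl (QQ 4 J e) (2 ^ (j + kk J e)) t s) := rfl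

lemma dens_eq (J e j s : ℕ) :
    dens (par 4 J e j s) = piB (2 ^ (j + kk J e)) s / ((2 ^ (j + kk J e) : ℕ) : ℝ) := rfl

end Pool.Agent.Lib.MP_127c84_nt.EN
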