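import Pool.Agent.Lib.MP_127c84_nt.EN.Defs

open Finset Filter Topology MeasureTheory
open Pool.Agent.Lib.MP_0d244d_nt.PS

namespace Pool.Agent.Lib.MP_127c84_nt.EN

lemma detLo_Ico (i0 k : ℕ) :
    ∑ i ∈ Ico i0 (i0 + k), (1 : ℝ) / (2 * 2 ^ i) = 1 / 2 ^ i0 - 1 / 2 ^ (i0 + k) := by
  induction k with
  | zero => simp
  | succ k ih =>
    rw [← add_assoc, sum_Ico_succ_top (Nat.le_add_right _ _), ih, pow_succ]
    field_simp
    ring

lemma detLo_tail (I : Finset ℕ) (i0 : ℕ) (h : ∀ i ∈ I, i0 ≤ i) :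
    ∑ i ∈ I, (1 : ℝ) / (2 * 2 ^ i) ≤ 1 / 2 ^ i0 := by
  have h1 : I ⊆ Ico i0 (i0 + (I.sup id + 1)) := fun i hi => by
    have : i ≤ I.sup id := le_sup (f := id) hi
    exact mem_Ico.2 ⟨h i hi, by omega⟩
  refine (sum_le_sum_of_subset_of_nonneg h1 fun i _ _ => by positivity).trans ?_
  rw [detLo_Ico]
  have : (0 : ℝ) ≤ 1 / 2 ^ (i0 + (I.sup id + 1)) := by positivity
  linarith

lemma detLo_geo (I : Finset ℕ) (g : ℕ) :
    ∑ i ∈ I, (if 0 < g ∧ g < 2 ^ i then (1 : ℝ) else 0) / (2 * 2 ^ i) ≤ 1 / (g : ℝ) := by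
  have e : ∑ i ∈ I, (if 0 < g ∧ g < 2 ^ i then (1 : ℝ) else 0) / (2 * 2 ^ i) =
      ∑ i ∈ I.filter (fun i => 0 < g ∧ g < 2 ^ i), (1 : ℝ) / (2 * 2 ^ i) := by
    rw [sum_filter]
    refine sum_congr rfl fun i _ => ?_
    split_ifs <;> simp
  rw [e]
  rcases (I.filter fun i => 0 < g ∧ g < 2 ^ i).eq_empty_or_nonempty with h | h
  · rw [h, sum_empty]
    positivity
  · refine (detLo_tail _ (min' _ h) fun i hi => min'_le _ i hi).trans ?_
    obtain ⟨h1, h2⟩ := (mem_filter.1 (min'_mem _ h)).2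
    exact one_div_le_one_div_of_le (by exact_mod_cast h1) (by exact_mod_cast h2.le)

lemma detLo_cw (l K : ℕ) (S : Finset ℕ) : ∑ j ∈ range K, cw l S j ≤ S.card := by
  unfold cw
  rw [sum_card_fiberwise_eq_card_filter]
  exact card_filter_le _ _

lemma detLo_sur (l K : ℕ) (S T : Finset ℕ)
    (hT : ∀ h ∈ S, ∀ h' ∈ S, h < h' → h' / l = h / l → h ∈ T) :
    ∑ j ∈ range K, (cw l S j - 1) ≤ T.card := by
  refine le_trans (sum_le_sum fun j _ => ?_) (detLo_cw l K T)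
  unfold cw
  rcases (S.filter fun h => h / l = j).eq_empty_or_nonempty with h | h
  · rw [h]
    simp
  · have hm := max'_mem _ h
    rw [← card_erase_of_mem hm]
    refine card_le_card fun x hx => ?_
    obtain ⟨h1, h2⟩ := mem_erase.1 hx
    have h3 := lt_of_le_of_ne (le_max' _ x h2) h1
    obtain ⟨h4, h5⟩ := mem_filter.1 h2
    obtain ⟨h6, h7⟩ := mem_filter.1 hm
    exact mem_filter.2 ⟨hT x h4 _ h6 h3 (h7.trans h5.symm), h5⟩

lemma detLo_ps (c : ℝ) (n Q : ℕ) : ps c n (n + Q) = (win c n Q).image fun k => n + k := by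
  ext m
  simp only [mem_ps, mem_image, mem_win]
  constructor
  · rintro ⟨⟨h1, h2⟩, h3⟩
    obtain ⟨k, rfl⟩ := Nat.exists_eq_add_of_le h1
    exact ⟨k, ⟨by omega, h3⟩, rfl⟩
  · rintro ⟨k, ⟨h1, h2⟩, rfl⟩
    exact ⟨⟨by omega, by omega⟩, h2⟩

lemma detLo_gp {c : ℝ} {n h h' : ℕ} (hh : h < h') (hp : PR (val c (n + h'))) :
    0 < gp c (n + h) ∧ gp c (n + h) ≤ h' - h := by
  have hm : h' - h ∈ {k | 0 < k ∧ PR (val c (n + h + k))} := by
    have e : n + h + (h' - h) = n + h' := by omega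
    refine ⟨by omega, ?_⟩
    rw [e]
    exact hp
  exact ⟨(Nat.sInf_mem ⟨_, hm⟩).1, Nat.sInf_le hm⟩

lemma detLo_close {l h h' : ℕ} (hl : 0 < l) (e : h' / l = h / l) : h' - h < l := by
  have h1 := Nat.div_add_mod h' l
  have h2 := Nat.div_add_mod h l
  have h3 := Nat.mod_lt h' hl
  rw [e] at h1
  omega

theorem Flo_nonneg (I : Finset ℕ) (Q : ℕ) (S : Finset ℕ) : 0 ≤ Flo I Q S := by
  unfold Flo
  positivity

theorem Flo_le (I : Finset ℕ) (Q : ℕ) (S : Finset ℕ) : Flo I Q S ≤ S.card := by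
  have h1 : Flo I Q S ≤ ∑ i ∈ I, (S.card : ℝ) * (1 / (2 * 2 ^ i)) := by
    refine sum_le_sum fun i _ => ?_
    rw [mul_one_div]
    refine div_le_div_of_nonneg_right ?_ (by positivity)
    rw [← Nat.cast_sum]
    exact Nat.cast_le.2 ((sum_le_sum fun j _ => Nat.sub_le _ _).trans (detLo_cw _ _ _))
  rw [← mul_sum] at h1
  have h2 := detLo_tail I 0 fun i _ => Nat.zero_le i
  rw [pow_zero, div_one] at h2
  exact h1.trans (mul_le_of_le_one_right (Nat.cast_nonneg _) h2)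

/-- the lower statistic is below the sum of the reciprocal gaps -/
theorem Flo_gap (I : Finset ℕ) (c : ℝ) (n Q : ℕ) :
    Flo I Q (win c n Q) ≤ RG c n (n + Q) := by
  have h1 : Flo I Q (win c n Q) ≤ ∑ i ∈ I, ∑ h ∈ win c n Q,
      (if 0 < gp c (n + h) ∧ gp c (n + h) < 2 ^ i then (1 : ℝ) else 0) / (2 * 2 ^ i) := by
    refine sum_le_sum fun i _ => ?_
    rw [← sum_div]
    refine div_le_div_of_nonneg_right ?_ (by positivity)
    rw [← Nat.cast_sum, sum_boole]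
    refine Nat.cast_le.2 (detLo_sur _ _ _ _ fun h hh h' hh' hlt e => ?_)
    obtain ⟨a1, a2⟩ := detLo_gp hlt (mem_win.1 hh').2
    exact mem_filter.2 ⟨hh, a1, a2.trans_lt (detLo_close (by positivity) e)⟩
  rw [sum_comm] at h1
  unfold RG
  rw [detLo_ps, sum_image fun a _ b _ h => Nat.add_left_cancel h]
  exact h1.trans (sum_le_sum fun h _ => detLo_geo I _)

/-- polynomial minorant of the surplus -/
theorem surplus (N : ℕ) :
    ((N.descFactorial 2 : ℝ) - N.descFactorial 3) / 2 ≤ ((N - 1 : ℕ) : ℝ) := by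
  rcases N with _ | _ | _ | N
  · simp
  · simp
  · norm_num [Nat.descFactorial]
  · have h1 : (N + 1 + 1 + 1).descFactorial 2 ≤ (N + 1 + 1 + 1).descFactorial 3 := by
      rw [Nat.descFactorial_succ _ 2]
      exact Nat.le_mul_of_pos_left _ (by omega)
    have h2 : (((N + 1 + 1 + 1).descFactorial 2 : ℕ) : ℝ) ≤ (N + 1 + 1 + 1).descFactorial 3 :=
      Nat.cast_le.2 h1
    have h3 : (0 : ℝ) ≤ ((N + 1 + 1 + 1 - 1 : ℕ) : ℝ) := Nat.cast_nonneg _
    linarith

theorem RG_nonneg (c : ℝ) (lo hi : ℕ) : 0 ≤ RG c lo hi := by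
  unfold RG
  positivity

theorem RG_le (c : ℝ) (lo hi : ℕ) : RG c lo hi ≤ ((hi - lo : ℕ) : ℝ) := by
  have h1 : RG c lo hi ≤ ∑ _n ∈ ps c lo hi, (1 : ℝ) := by
    refine sum_le_sum fun n _ => ?_
    rcases Nat.eq_zero_or_pos (gp c n) with h | h
    · rw [h]
      simp
    · rw [div_le_one (by exact_mod_cast h)]
      exact_mod_cast h
  rw [sum_const, nsmul_eq_mul, mul_one] at h1
  refine h1.trans (Nat.cast_le.2 ?_)
  rw [← Nat.card_Ico]
  exact card_le_card fun n hn => mem_Ico.2 (mem_ps.1 hn).1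

theorem RG_split (c : ℝ) {lo mid hi : ℕ} (h1 : lo ≤ mid) (h2 : mid ≤ hi) :
    RG c lo hi = RG c lo mid + RG c mid hi := by
  unfold RG
  rw [chiL_lo c lo h2, chiL_hi c hi h1, ← sum_filter_add_sum_filter_not _ (fun h => h < mid)]
  simp only [not_lt]

theorem RG_windows (c : ℝ) (N Q k : ℕ) :
    RG c N (N + k * Q) = ∑ i ∈ range k, RG c (N + i * Q) (N + i * Q + Q) := by
  induction k with
  | zero => simp [RG, ps]
  | succ k ih =>
    have e : N + (k + 1) * Q = N + k * Q + Q := by ring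
    rw [sum_range_succ, ← ih, e]
    exact RG_split c (Nat.le_add_right _ _) (Nat.le_add_right _ _)

theorem card_win (c : ℝ) (n Q : ℕ) : (win c n Q).card = (ps c n (n + Q)).card := by
  rw [detLo_ps, card_image_of_injective _ (add_right_injective n)]

end Pool.Agent.Lib.MP_127c84_nt.EN
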