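import Pool.Agent.Lib.MP_127c84_nt.EN.Defs

open Finset Filter Topology MeasureTheory
open Pool.Agent.Lib.MP_0d244d_nt.PS

namespace Pool.Agent.Lib.MP_127c84_nt.EN

lemma DetUp_in_nonneg (S : Finset ℕ) (h : ℕ) :
    ∀ h' ∈ S.filter (fun h' => h < h'), 0 ≤ 1 / ((h' : ℝ) - h) := fun h' hh' => by
  have : (h : ℝ) < h' := by exact_mod_cast (mem_filter.1 hh').2
  exact one_div_nonneg.2 (by linarith)

lemma DetUp_end_nonneg {Q h : ℕ} (hh : h < Q) : 0 ≤ 1 / ((Q : ℝ) - h) := by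
  have : (h : ℝ) < Q := by exact_mod_cast hh
  exact one_div_nonneg.2 (by linarith)

theorem Fup_nonneg {Q : ℕ} {S : Finset ℕ} (hS : S ⊆ range Q) : 0 ≤ Fup Q S :=
  sum_nonneg fun h hh => add_nonneg (sum_nonneg (DetUp_in_nonneg S h))
    (DetUp_end_nonneg (mem_range.1 (hS hh)))

lemma DetUp_harm (Q : ℕ) : ∑ i ∈ range Q, 1 / ((i : ℝ) + 1) ≤ 1 + Real.log Q := by
  have h := harmonic_le_one_add_log Q
  have e : ((harmonic Q : ℚ) : ℝ) = ∑ i ∈ range Q, 1 / ((i : ℝ) + 1) := by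
    unfold harmonic
    push_cast
    exact sum_congr rfl fun i _ => (one_div _).symm
  rwa [e] at h

theorem harm_up (h Q : ℕ) :
    ∑ h' ∈ (range Q).filter (fun h' => h < h'), 1 / ((h' : ℝ) - h) ≤ 1 + Real.log Q := by
  refine le_trans ?_ (DetUp_harm Q)
  have e : ∑ h' ∈ (range Q).filter (fun h' => h < h'), 1 / ((h' : ℝ) - h) =
      ∑ i ∈ range (Q - (h + 1)), 1 / ((i : ℝ) + 1) := by
    refine sum_nbij' (fun h' => h' - (h + 1)) (fun i => i + (h + 1)) ?_ ?_ ?_ ?_ ?_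
    · intro a ha; simp only [mem_filter, mem_range] at ha ⊢; omega
    · intro a ha; simp only [mem_filter, mem_range] at ha ⊢; omega
    · intro a ha; simp only [mem_filter, mem_range] at ha ⊢; omega
    · intro a _; simp
    · intro a ha
      simp only [mem_filter, mem_range] at ha
      rw [Nat.cast_sub (by omega)]
      push_cast
      congr 1
      ring
  rw [e]
  exact sum_le_sum_of_subset_of_nonneg (range_subset_range.2 (Nat.sub_le _ _))
    fun i _ _ => by positivity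

theorem harm_dn (Q : ℕ) : ∑ h ∈ range Q, 1 / ((Q : ℝ) - h) ≤ 1 + Real.log Q := by
  refine le_trans (le_of_eq ?_) (DetUp_harm Q)
  rw [← sum_range_reflect (fun i => 1 / ((i : ℝ) + 1)) Q]
  refine sum_congr rfl fun h hh => ?_
  have hh' := mem_range.1 hh
  rw [Nat.sub_sub, Nat.cast_sub (by omega)]
  push_cast
  congr 1
  ring

theorem Fup_le {Q : ℕ} {S : Finset ℕ} (hS : S ⊆ range Q) :
    Fup Q S ≤ 2 * Q * (1 + Real.log Q) := by
  have hl : 0 ≤ Real.log Q := Real.log_natCast_nonneg Q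
  have hc : (S.card : ℝ) ≤ Q := by exact_mod_cast (card_le_card hS).trans (card_range Q).le
  have h1 : Fup Q S ≤ S.card • (2 * (1 + Real.log Q)) := by
    refine sum_le_card_nsmul _ _ _ fun h hh => ?_
    have a1 : ∑ h' ∈ S.filter (fun h' => h < h'), 1 / ((h' : ℝ) - h) ≤ 1 + Real.log Q :=
      le_trans (sum_le_sum_of_subset_of_nonneg (filter_subset_filter _ hS)
        fun i hi _ => DetUp_in_nonneg _ h i hi) (harm_up h Q)
    have a2 : 1 / ((Q : ℝ) - h) ≤ 1 := by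
      have : ((h + 1 : ℕ) : ℝ) ≤ Q := by exact_mod_cast mem_range.1 (hS hh)
      push_cast at this
      exact (div_le_one (by linarith)).2 (by linarith)
    linarith
  rw [nsmul_eq_mul] at h1
  nlinarith

/-- the upper statistic is above the sum of the reciprocal gaps -/
theorem gap_Fup (c : ℝ) (n Q : ℕ) : RG c n (n + Q) ≤ Fup Q (win c n Q) := by
  have e : RG c n (n + Q) = ∑ h ∈ win c n Q, 1 / (gp c (n + h) : ℝ) := by
    refine sum_nbij' (fun m => m - n) (fun h => n + h) ?_ ?_ ?_ ?_ ?_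
    · intro a ha
      rw [mem_ps] at ha
      refine mem_win.2 ⟨by omega, ?_⟩
      rw [show n + (a - n) = a by omega]
      exact ha.2
    · intro a ha
      rw [mem_win] at ha
      exact mem_ps.2 ⟨⟨by omega, by omega⟩, ha.2⟩
    · intro a ha
      rw [mem_ps] at ha
      omega
    · intro a _; simp
    · intro a ha
      rw [mem_ps] at ha
      rw [show n + (a - n) = a by omega]
  rw [e]
  refine sum_le_sum fun h hh => ?_
  have hQ := (mem_win.1 hh).1
  have n1 := sum_nonneg (DetUp_in_nonneg (win c n Q) h)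
  have n2 := DetUp_end_nonneg hQ
  rcases Nat.eq_zero_or_pos (gp c (n + h)) with h0 | h0
  · rw [h0, Nat.cast_zero, div_zero]
    linarith
  have hne : {k | 0 < k ∧ PR (val c (n + h + k))}.Nonempty := by
    by_contra hc
    rw [Set.not_nonempty_iff_eq_empty] at hc
    have : gp c (n + h) = 0 := by unfold gp; rw [hc, Nat.sInf_empty]
    omega
  have hm : 0 < gp c (n + h) ∧ PR (val c (n + h + gp c (n + h))) := Nat.sInf_mem hne
  by_cases hlt : h + gp c (n + h) < Q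
  · have hmem : h + gp c (n + h) ∈ (win c n Q).filter (fun h' => h < h') :=
      mem_filter.2 ⟨mem_win.2 ⟨hlt, by rw [← add_assoc]; exact hm.2⟩, by omega⟩
    have a := single_le_sum (DetUp_in_nonneg (win c n Q) h) hmem
    simp only [Nat.cast_add, add_sub_cancel_left] at a
    linarith
  · have a1 : (Q : ℝ) ≤ h + gp c (n + h) := by exact_mod_cast not_lt.1 hlt
    have a2 : (h : ℝ) < Q := by exact_mod_cast hQ
    have a3 : 1 / (gp c (n + h) : ℝ) ≤ 1 / ((Q : ℝ) - h) :=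
      one_div_le_one_div_of_le (by linarith) (by linarith)
    linarith

lemma DetUp_hit (G Q : ℕ) (A B : ℤ) (f : ℕ → ℝ) :
    ∑ h ∈ hit G Q PR A B, f h = ∑ h ∈ range Q, iP PR (pt G A B h) * f h := by
  classical
  unfold hit
  rw [sum_filter]
  refine sum_congr rfl fun h _ => ?_
  by_cases hp : PR (pt G A B h)
  · rw [if_pos hp, iP_pos hp, one_mul]
  · rw [if_neg hp, iP_neg hp, zero_mul]

/-- the upper statistic on a line, with indicators -/
theorem Fup_hit (G Q : ℕ) (A B : ℤ) : Fup Q (hit G Q PR A B) =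
    ∑ h ∈ range Q, (∑ h' ∈ (range Q).filter (fun h' => h < h'),
      iP PR (pt G A B h) * iP PR (pt G A B h') / ((h' : ℝ) - h) +
        iP PR (pt G A B h) / ((Q : ℝ) - h)) := by
  unfold Fup
  rw [DetUp_hit]
  refine sum_congr rfl fun h _ => ?_
  rw [mul_add, mul_one_div, sum_filter, DetUp_hit, sum_filter, mul_sum]
  congr 1
  refine sum_congr rfl fun h' _ => ?_
  split_ifs
  · ring
  · ring

theorem Fc_hit (G Q : ℕ) (A B : ℤ) :
    Fc (hit G Q PR A B) = ∑ h ∈ range Q, iP PR (pt G A B h) := by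
  have h := DetUp_hit G Q A B fun _ => 1
  simpa [Fc] using h

lemma DetUp_end {u σ : ℤ} (hσ : 0 ≤ σ) {F : ℤ → ℝ} (h0 : ∀ x, 0 ≤ F x) (h1 : ∀ x, F x ≤ 1) :
    0 ≤ ∑ x ∈ Ico u (u + σ), F x ∧ ∑ x ∈ Ico u (u + σ), F x ≤ σ := by
  refine ⟨sum_nonneg fun x _ => h0 x, (sum_le_card_nsmul _ _ 1 fun x _ => h1 x).trans ?_⟩
  rw [nsmul_eq_mul, blkCard (by linarith)]
  push_cast
  linarith

/-- a shift of the starting points -/
theorem bar_pt {G : ℕ} (hG : 0 < G) (Y : ℕ) (x0 : ℤ) {σ : ℤ} (hσ : 0 ≤ σ) :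
    |∑ A ∈ Ico ((G : ℤ) * x0) (G * (x0 + Y)), iP PR ((A + σ) / G) -
      G * ∑ x ∈ Ico x0 (x0 + Y), iP PR x| ≤ σ := by
  have hG' : (0 : ℤ) < G := by exact_mod_cast hG
  have hab : (G : ℤ) * x0 ≤ G * (x0 + Y) :=
    mul_le_mul_of_nonneg_left (by linarith [Int.natCast_nonneg Y]) hG'.le
  have e1 := opBlow hG' (iP PR) x0 (x0 + Y)
  rw [Int.cast_natCast] at e1
  rw [← e1]
  generalize (G : ℤ) * x0 = a at hab ⊢
  generalize (G : ℤ) * (x0 + Y) = b at hab ⊢
  have e2 : ∑ A ∈ Ico a b, iP PR ((A + σ) / G) = ∑ u ∈ Ico (a + σ) (b + σ), iP PR (u / G) := by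
    refine sum_nbij' (fun A => A + σ) (fun u => u - σ) ?_ ?_ ?_ ?_ ?_
    · intro s hs; simp only [mem_Ico] at hs ⊢; omega
    · intro s hs; simp only [mem_Ico] at hs ⊢; omega
    · intro s _; simp
    · intro s _; simp
    · intro s _; rfl
  have e3 := blkSplit (u := a) (v := a + σ) (w := b + σ) (by linarith) (by linarith)
    fun u => iP PR (u / G)
  have e4 := blkSplit (u := a) (v := b) (w := b + σ) hab (by linarith) fun u => iP PR (u / G)
  have b1 := DetUp_end (u := a) hσ (F := fun u => iP PR (u / G)) (fun _ => iP_nonneg _ _)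
    fun _ => iP_le_one _ _
  have b2 := DetUp_end (u := b) hσ (F := fun u => iP PR (u / G)) (fun _ => iP_nonneg _ _)
    fun _ => iP_le_one _ _
  rw [e2, abs_le]
  constructor <;> linarith [b1.1, b1.2, b2.1, b2.2]

/-- the average number of primes on the lines with a fixed slope -/
theorem bar_cnt {Q D Y : ℕ} (hQ : 0 < Q) (hY : 0 < Y) (t : ℝ) (s : ℤ) (h0 : 0 ≤ sl Q Y t s)
    (h1 : sl Q Y t s ≤ 4 * (((Q ^ 10 : ℕ) : ℤ) * D)) :
    |barS Q Y t (onL Q Fc) s - Q * (piB Y s / Y)| ≤ 4 * D * (Q : ℝ) ^ 2 / Y := by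
  have hG : 0 < Q ^ 10 := by positivity
  unfold barS onL piB
  generalize sl Q Y t s = B at h0 h1 ⊢
  generalize Q ^ 10 = G at hG h1 ⊢
  have hG' : (0 : ℝ) < G := by exact_mod_cast hG
  have hY' : (0 : ℝ) < Y := by exact_mod_cast hY
  rw [sum_congr rfl fun A _ => Fc_hit G Q A B, sum_comm]
  have k : ∀ h ∈ range Q, |∑ A ∈ Ico ((G : ℤ) * (s * Y)) (G * (s * Y + Y)), iP PR (pt G A B h) -
      G * ∑ x ∈ Ico (s * Y) (s * Y + Y), iP PR x| ≤ 4 * (G * D) * Q := fun h hh => by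
    have hn : (0 : ℤ) ≤ h := Int.natCast_nonneg h
    have hq : (h : ℤ) ≤ Q := by exact_mod_cast (mem_range.1 hh).le
    have a1 := bar_pt hG Y (s * Y) (σ := B * h) (mul_nonneg h0 hn)
    have a2 : B * h ≤ 4 * ((G : ℤ) * D) * Q := mul_le_mul h1 hq hn (by positivity)
    have a3 : ((B * h : ℤ) : ℝ) ≤ 4 * (G * D) * Q := by exact_mod_cast a2
    exact a1.trans a3
  have k2 := (abs_sum_le_sum_abs _ _).trans (sum_le_card_nsmul _ _ _ k)
  rw [sum_sub_distrib, sum_const, card_range, nsmul_eq_mul, nsmul_eq_mul] at k2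
  generalize ∑ h ∈ range Q, ∑ A ∈ Ico ((G : ℤ) * (s * Y)) (G * (s * Y + Y)),
    iP PR (pt G A B h) = U at k2 ⊢
  generalize ∑ x ∈ Ico (s * Y) (s * Y + Y), iP PR x = P at k2 ⊢
  have e : U / (G * Y) - Q * (P / Y) = (U - Q * (G * P)) / (G * Y) := by field_simp
  rw [e, abs_div, abs_of_pos (mul_pos hG' hY'), div_le_div_iff₀ (mul_pos hG' hY') hY']
  nlinarith [mul_le_mul_of_nonneg_right k2 hY'.le]

end Pool.Agent.Lib.MP_127c84_nt.EN
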