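import Pool.Agent.Lib.MP_127c84_nt.EN.DetLo

open Finset Filter Topology MeasureTheory
open Pool.Agent.Lib.MP_0d244d_nt.PS

namespace Pool.Agent.Lib.MP_127c84_nt.EN

open Classical in
/-- a series over the elements of an infinite set, cut into dyadic blocks -/
theorem blocks {p : ℕ → Prop} (hp : {n | p n}.Infinite) {f : ℕ → ℝ} (hf : ∀ n, 0 ≤ f n) :
    Summable (fun i => f (Nat.nth p i)) ↔
      Summable fun m : ℕ => ∑ n ∈ (Ico (2 ^ m) (2 * 2 ^ m)).filter p, f n := by
  have h1 : Summable (fun i => f (Nat.nth p i)) ↔ Summable fun n => if p n then f n else 0 := by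
    rw [← (Nat.nth_injective hp).summable_iff (f := fun n => if p n then f n else 0)]
    · refine summable_congr fun i => ?_
      simp only [Function.comp, if_pos (Nat.nth_mem_of_infinite hp i)]
    · intro x hx
      rw [Nat.range_nth_of_infinite hp] at hx
      exact if_neg hx
  have h0 : ∀ n, 0 ≤ if p n then f n else 0 := fun n => by
    split_ifs
    · exact hf n
    · exact le_rfl
  have hb : ∀ m : ℕ, 0 ≤ ∑ n ∈ (Ico (2 ^ m) (2 * 2 ^ m)).filter p, f n :=
    fun m => sum_nonneg fun n _ => hf n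
  have h2 : ∀ M : ℕ, ∑ n ∈ range (2 ^ M), (if p n then f n else 0) = (if p 0 then f 0 else 0) +
      ∑ m ∈ range M, ∑ n ∈ (Ico (2 ^ m) (2 * 2 ^ m)).filter p, f n := by
    intro M
    induction M with
    | zero => simp
    | succ M ih =>
      rw [sum_range_succ, ← add_assoc, ← ih, sum_filter, pow_succ',
        sum_range_add_sum_Ico _ (by omega)]
  rw [h1]
  refine ⟨fun h => summable_of_sum_range_le (c := ∑' n, if p n then f n else 0) hb fun M => ?_,
    fun h => summable_of_sum_range_le (c := (if p 0 then f 0 else 0) +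
      ∑' m : ℕ, ∑ n ∈ (Ico (2 ^ m) (2 * 2 ^ m)).filter p, f n) h0 fun M => ?_⟩
  · have h3 := h.sum_le_tsum (range (2 ^ M)) fun n _ => h0 n
    have h4 := h0 0
    rw [h2] at h3
    linarith
  · have h3 := h.sum_le_tsum (range M) fun n _ => hb n
    have h4 : ∑ n ∈ range M, (if p n then f n else 0) ≤
        ∑ n ∈ range (2 ^ M), (if p n then f n else 0) :=
      sum_le_sum_of_subset_of_nonneg (range_subset_range.2 Nat.lt_two_pow_self.le)
        fun n _ _ => h0 n
    rw [h2] at h4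
    linarith

theorem cnt_inf {c : ℝ} (h : Cnt c) : {n | PR (val c n)}.Infinite := by
  obtain ⟨K, hK⟩ := h
  refine Set.infinite_of_forall_exists_gt fun a => ?_
  obtain ⟨m, h1, h2⟩ := (hK.and (eventually_gt_atTop a)).exists
  have h3 : (0 : ℝ) < m := by exact_mod_cast (Nat.zero_le a).trans_lt h2
  have h4 : (0 : ℝ) < (ps c (2 ^ m) (2 * 2 ^ m)).card := lt_of_lt_of_le (by positivity) h1.1
  obtain ⟨n, hn⟩ := card_pos.1 (Nat.cast_pos.1 h4)
  rw [mem_ps] at hn
  exact ⟨n, hn.2, (h2.trans Nat.lt_two_pow_self).trans_le hn.1.1⟩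

theorem nu_gap {c : ℝ} (h : {n | PR (val c n)}.Infinite) (i : ℕ) :
    (nu c (i + 1) : ℝ) - nu c i = gp c (nu c i) ∧ (ps c 0 (nu c i)).card = i := by
  have hm : StrictMono (nu c) := Nat.nth_strictMono h
  have h1 : nu c i < nu c (i + 1) := hm (Nat.lt_succ_self i)
  have h2 : gp c (nu c i) = nu c (i + 1) - nu c i := by
    have h3 : nu c (i + 1) - nu c i ∈ {k | 0 < k ∧ PR (val c (nu c i + k))} := by
      refine ⟨by omega, ?_⟩
      rw [Nat.add_sub_cancel' h1.le]
      exact Nat.nth_mem_of_infinite h (i + 1)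
    refine le_antisymm (Nat.sInf_le h3) ?_
    obtain ⟨h4, h5⟩ := Nat.sInf_mem ⟨_, h3⟩
    have h6 : nu c (i + 1) ≤ nu c i + gp c (nu c i) := by
      unfold nu
      rw [Nat.nth_eq_sInf _ (i + 1)]
      refine Nat.sInf_le ⟨h5, fun k hk => ?_⟩
      have h7 : nu c k ≤ nu c i := hm.monotone (by omega)
      exact h7.trans_lt (Nat.lt_add_of_pos_right h4)
    omega
  refine ⟨by rw [h2, Nat.cast_sub h1.le], ?_⟩
  classical
  have h3 := Nat.count_nth_of_infinite (p := fun n => PR (val c n)) h i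
  rw [Nat.count_eq_card_filter_range] at h3
  rw [ps, Nat.Ico_zero_eq_range]
  convert h3
  rfl

/-- the rank of an index in the block `m` -/
theorem rank {c : ℝ} (h : Cnt c) : ∃ K : ℝ, 0 < K ∧ ∀ᶠ m : ℕ in atTop,
    ∀ n, 2 ^ m ≤ n → n < 2 * 2 ^ m →
      (2 : ℝ) ^ m / (200 * m) ≤ (ps c 0 n).card + 1 ∧
      ((ps c 0 n).card : ℝ) + 1 ≤ K * 2 ^ m / m ∧
      Real.log m / 2 ≤ Real.log (Real.log (((ps c 0 n).card : ℝ) + 1)) ∧
      Real.log (Real.log (((ps c 0 n).card : ℝ) + 1)) ≤ Real.log m := by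
  obtain ⟨K, hK⟩ := h
  obtain ⟨M, hM⟩ := eventually_atTop.1 (hK.and (eventually_ge_atTop 3))
  have hM3 : 3 ≤ M := (hM M le_rfl).2
  have hle : ∀ n, (ps c 0 n).card ≤ n := fun n =>
    (card_le_card fun x hx => mem_range.2 (mem_ps.1 hx).1.2).trans (card_range n).le
  have hmono : ∀ a b, a ≤ b → (ps c 0 a).card ≤ (ps c 0 b).card := fun a b hab => by
    rw [ps_card_split c (Nat.zero_le a) hab]
    omega
  have hK' : (0 : ℝ) < 3 * |K| + 3 * M := by
    have : (3 : ℝ) ≤ M := by exact_mod_cast hM3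
    have := abs_nonneg K
    linarith
  have up : ∀ m, M ≤ m →
      ((ps c 0 (2 * 2 ^ m)).card : ℝ) + 1 ≤ (3 * |K| + 3 * M) * 2 ^ m / m := by
    intro m hm
    induction m, hm using Nat.le_induction with
    | base =>
      have h1 : ((ps c 0 (2 * 2 ^ M)).card : ℝ) ≤ 2 * 2 ^ M := by exact_mod_cast hle _
      have h2 : (0 : ℝ) < M := by exact_mod_cast (by omega : 0 < M)
      have h3 : (1 : ℝ) ≤ 2 ^ M := one_le_pow₀ (by norm_num)
      rw [le_div_iff₀ h2]
      have h4 : 0 ≤ |K| * 2 ^ M := by positivity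
      nlinarith
    | succ m hm ih =>
      have h1 := (hM (m + 1) (by omega)).1.2
      have h2 : (3 : ℝ) ≤ m := by exact_mod_cast hM3.trans hm
      rw [ps_card_split c (Nat.zero_le (2 ^ (m + 1))) (by omega), Nat.cast_add]
      rw [← pow_succ'] at ih
      have h3 : K * 2 ^ (m + 1) / ((m + 1 : ℕ) : ℝ) ≤ |K| * 2 ^ (m + 1) / ((m + 1 : ℕ) : ℝ) := by
        gcongr
        exact le_abs_self K
      have h4 : (3 * |K| + 3 * M) * 2 ^ m / m ≤
          (2 * |K| + 2 * M) * 2 ^ (m + 1) / ((m + 1 : ℕ) : ℝ) := by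
        rw [div_le_div_iff₀ (by linarith) (by positivity), pow_succ]
        push_cast
        have h5 : 0 ≤ (|K| + M) * 2 ^ m * ((m : ℝ) - 3) :=
          mul_nonneg (by positivity) (by linarith)
        nlinarith
      have h5 : (3 * |K| + 3 * M) * 2 ^ (m + 1) / ((m + 1 : ℕ) : ℝ) =
          (2 * |K| + 2 * M) * 2 ^ (m + 1) / ((m + 1 : ℕ) : ℝ) +
          |K| * 2 ^ (m + 1) / ((m + 1 : ℕ) : ℝ) + M * 2 ^ (m + 1) / ((m + 1 : ℕ) : ℝ) := by ring
      have h6 : (0 : ℝ) ≤ M * 2 ^ (m + 1) / ((m + 1 : ℕ) : ℝ) := by positivity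
      linarith
  refine ⟨_, hK', ?_⟩
  filter_upwards [eventually_ge_atTop (M + 400)] with m hm n h1 h2
  have hm0 : (400 : ℝ) ≤ m := by exact_mod_cast (by omega : 400 ≤ m)
  have lo : (2 : ℝ) ^ m / (200 * m) ≤ (ps c 0 n).card + 1 := by
    obtain ⟨k, rfl⟩ : ∃ k, m = k + 1 := ⟨m - 1, by omega⟩
    have h3 := (hM k (by omega)).1.1
    have h4 : (ps c (2 ^ k) (2 * 2 ^ k)).card ≤ (ps c 0 n).card := by
      refine le_trans ?_ (hmono (2 * 2 ^ k) n (by rw [← pow_succ']; exact h1))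
      exact card_le_card fun x hx => mem_ps.2 ⟨⟨Nat.zero_le _, (mem_ps.1 hx).1.2⟩, (mem_ps.1 hx).2⟩
    have h5 : ((ps c (2 ^ k) (2 * 2 ^ k)).card : ℝ) ≤ (ps c 0 n).card := by exact_mod_cast h4
    have h6 : (0 : ℝ) < k := by exact_mod_cast (by omega : 0 < k)
    have h7 : (2 : ℝ) ^ (k + 1) / (200 * ((k + 1 : ℕ) : ℝ)) ≤ 2 ^ k / (100 * k) := by
      rw [div_le_div_iff₀ (by positivity) (by positivity), pow_succ]
      push_cast
      have : (0 : ℝ) < 2 ^ k := by positivity
      generalize (2 : ℝ) ^ k = x at this ⊢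
      linarith
    linarith
  have l1 := Real.log_two_gt_d9
  have l2 := Real.log_two_lt_d9
  have hs : Real.sqrt m ≤ Real.log (((ps c 0 n).card : ℝ) + 1) := by
    have h3 := Real.log_le_log (by positivity) lo
    have h4 : (20 : ℝ) ≤ Real.sqrt m := Real.le_sqrt_of_sq_le (by linarith)
    have h5 : Real.sqrt m ^ 2 = m := Real.sq_sqrt (by positivity)
    rw [Real.log_div (by positivity) (by positivity), Real.log_mul (by positivity) (by positivity),
      Real.log_pow] at h3
    have h6 : Real.log m = 2 * Real.log (Real.sqrt m) := by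
      rw [Real.log_sqrt (by positivity)]
      ring
    have h7 := Real.log_le_sub_one_of_pos (show 0 < Real.sqrt m by linarith)
    have h8 := Real.log_le_sub_one_of_pos (show (0 : ℝ) < 200 by norm_num)
    have h9 : 0.69 * (m : ℝ) ≤ m * Real.log 2 := by nlinarith
    nlinarith
  have hs0 : 0 < Real.sqrt m := Real.sqrt_pos.2 (by linarith)
  refine ⟨lo, le_trans ?_ (up m (by omega)), ?_, Real.log_le_log (hs0.trans_le hs) ?_⟩
  · have h3 : ((ps c 0 n).card : ℝ) ≤ (ps c 0 (2 * 2 ^ m)).card := by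
      exact_mod_cast hmono _ _ h2.le
    linarith
  · rw [← Real.log_sqrt (by positivity)]
    exact Real.log_le_log hs0 hs
  · have h3 : ((ps c 0 n).card : ℝ) + 1 ≤ 2 ^ (m + 1) := by
      have h4 : (ps c 0 n).card + 1 ≤ 2 ^ (m + 1) := by
        have := hle n
        rw [pow_succ']
        omega
      exact_mod_cast h4
    have h4 := Real.log_le_log (by positivity) h3
    rw [Real.log_pow] at h4
    push_cast at h4
    nlinarith

end Pool.Agent.Lib.MP_127c84_nt.EN
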