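import Pool.Agent.Lib.MP_127c84_nt.EN.FinA
import Pool.Agent.Lib.MP_127c84_nt.EN.Lev

open Finset Filter Topology MeasureTheory
open Pool.Agent.Lib.MP_0d244d_nt.PS

namespace Pool.Agent.Lib.MP_127c84_nt.EN

/-- the term of the series read at the index `x` -/
noncomputable def FinB_f (c g : ℝ) (x : ℕ) : ℝ :=
  |1 / ((((ps c 0 x).card : ℝ) + 1) *
    Real.log (Real.log (((ps c 0 x).card : ℝ) + 1)) ^ g * (gp c x : ℝ))|

lemma FinB_ll (n : ℕ) : 0 < Real.log (Real.log ((n : ℝ) + 3)) := by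
  apply Real.log_pos
  have h1 : Real.exp 1 < (n : ℝ) + 3 := by
    have := Real.exp_one_lt_d9
    have h0 : (0 : ℝ) ≤ n := Nat.cast_nonneg n
    linarith
  exact (Real.lt_log_iff_exp_lt (by positivity)).2 h1

lemma FinB_term {c : ℝ} (h : {n | PR (val c n)}.Infinite) (g : ℝ) (n : ℕ) :
    term c g n = FinB_f c g (nu c (n + 2)) := by
  obtain ⟨h1, h2⟩ := nu_gap h (n + 2)
  have h3 : (((n + 2 : ℕ) : ℝ) + 1) = (n : ℝ) + 3 := by push_cast; ring
  unfold term FinB_f
  rw [h2, h3, ← h1]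
  have h4 : (0 : ℝ) ≤ (nu c (n + 2 + 1) : ℝ) - nu c (n + 2) := by
    rw [h1]; exact Nat.cast_nonneg _
  have h5 := Real.rpow_pos_of_pos (FinB_ll n) g
  rw [abs_of_nonneg (by positivity)]

lemma FinB_iff {c : ℝ} (h : Cnt c) (g : ℝ) :
    Summable (term c g) ↔
      Summable fun m : ℕ => ∑ n ∈ ps c (2 ^ m) (2 * 2 ^ m), FinB_f c g n := by
  have hi := cnt_inf h
  have e : term c g = fun n => FinB_f c g (Nat.nth (fun n => PR (val c n)) (n + 2)) :=
    funext fun n => FinB_term hi g n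
  rw [e, summable_nat_add_iff (f := fun i => FinB_f c g (Nat.nth (fun n => PR (val c n)) i)) 2]
  exact blocks (p := fun n => PR (val c n)) hi (fun n => abs_nonneg _)

lemma FinB_log : ∀ᶠ m : ℕ in atTop, 2 ≤ Real.log m :=
  (Real.tendsto_log_atTop.comp tendsto_natCast_atTop_atTop).eventually_ge_atTop 2

lemma FinB_mem {c : ℝ} {lo hi n : ℕ} (h : n ∈ ps c lo hi) : lo ≤ n ∧ n < hi := by
  classical
  unfold ps at h
  exact mem_Ico.1 (mem_filter.1 h).1

lemma FinB_split {c g : ℝ} {x : ℕ}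
    (h : 1 ≤ Real.log (Real.log (((ps c 0 x).card : ℝ) + 1))) :
    FinB_f c g x = 1 / ((((ps c 0 x).card : ℝ) + 1) *
      Real.log (Real.log (((ps c 0 x).card : ℝ) + 1)) ^ g) * (1 / (gp c x : ℝ)) := by
  have h5 := Real.rpow_pos_of_pos (lt_of_lt_of_le one_pos h) g
  unfold FinB_f
  rw [abs_of_nonneg (by positivity), one_div_mul_one_div]

theorem fin_div {c g : ℝ} (h : Cnt c) (hg : g ≤ 2) {δ : ℝ} (hδ : 0 < δ) {v : ℕ → ℝ}
    (hv : Summable v) (hl : ∀ᶠ m : ℕ in atTop,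
      δ * Real.log m / m - v m ≤ m / 2 ^ m * RG c (2 ^ m) (2 * 2 ^ m)) :
    ¬ Summable (term c g) := by
  intro hs
  rw [FinB_iff h] at hs
  obtain ⟨K, hK, hr⟩ := rank h
  apply not_bertrand
  refine Summable.of_norm_bounded_eventually_nat
    (((hs.mul_left K).add hv.abs).mul_left (1 / δ)) ?_
  filter_upwards [hl, hr, FinB_log, eventually_ge_atTop 1] with m h1 h2 h3 h4
  have hm : (0 : ℝ) < m := by exact_mod_cast h4
  have hL : 0 < Real.log m := by linarith
  have key : m / 2 ^ m * RG c (2 ^ m) (2 * 2 ^ m) ≤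
      K * Real.log m ^ 2 * ∑ n ∈ ps c (2 ^ m) (2 * 2 ^ m), FinB_f c g n := by
    unfold RG
    rw [mul_sum, mul_sum]
    refine sum_le_sum fun n hn => ?_
    obtain ⟨-, a2, a3, a4⟩ := h2 n (FinB_mem hn).1 (FinB_mem hn).2
    have a1 : 1 ≤ Real.log (Real.log (((ps c 0 n).card : ℝ) + 1)) := by linarith
    rw [FinB_split a1, ← mul_assoc]
    refine mul_le_mul_of_nonneg_right ?_ (by positivity)
    have b1 : Real.log (Real.log (((ps c 0 n).card : ℝ) + 1)) ^ g ≤ Real.log m ^ 2 := by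
      calc _ ≤ Real.log (Real.log (((ps c 0 n).card : ℝ) + 1)) ^ (2 : ℝ) :=
            Real.rpow_le_rpow_of_exponent_le a1 hg
        _ = Real.log (Real.log (((ps c 0 n).card : ℝ) + 1)) ^ 2 := Real.rpow_two _
        _ ≤ Real.log m ^ 2 := by gcongr
    have b2 := Real.rpow_pos_of_pos (lt_of_lt_of_le one_pos a1) g
    have b3 : 1 / (K * 2 ^ m / m * Real.log m ^ 2) ≤ 1 / ((((ps c 0 n).card : ℝ) + 1) *
        Real.log (Real.log (((ps c 0 n).card : ℝ) + 1)) ^ g) := by
      apply one_div_le_one_div_of_le (by positivity)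
      exact mul_le_mul a2 b1 b2.le (by positivity)
    calc (m : ℝ) / 2 ^ m = K * Real.log m ^ 2 * (1 / (K * 2 ^ m / m * Real.log m ^ 2)) := by
          field_simp
      _ ≤ _ := by gcongr
  set S := ∑ n ∈ ps c (2 ^ m) (2 * 2 ^ m), FinB_f c g n
  have hL2 : 1 ≤ Real.log m ^ 2 := by nlinarith
  have c1 : δ * Real.log m / m ≤ (K * S + |v m|) * Real.log m ^ 2 := by
    have c2 := le_abs_self (v m)
    have c3 : |v m| ≤ |v m| * Real.log m ^ 2 := le_mul_of_one_le_right (abs_nonneg _) hL2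
    nlinarith
  rw [Real.norm_of_nonneg (by positivity)]
  calc 1 / ((m : ℝ) * Real.log m) = 1 / δ * (δ * Real.log m / m / Real.log m ^ 2) := by
        field_simp
    _ ≤ 1 / δ * (K * S + |v m|) := by
        gcongr
        rw [div_le_iff₀ (by positivity)]
        exact c1

theorem fin_conv {c g g' : ℝ} (h : Cnt c) (h0 : 0 ≤ g') (hg : g' ≤ g)
    (hs : Summable fun m : ℕ => m / 2 ^ m / Real.log m ^ g' * RG c (2 ^ m) (2 * 2 ^ m)) :
    Summable (term c g) := by
  rw [FinB_iff h]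
  obtain ⟨K, -, hr⟩ := rank h
  refine Summable.of_norm_bounded_eventually_nat (hs.mul_left (200 * 2 ^ g')) ?_
  filter_upwards [hr, FinB_log, eventually_ge_atTop 1] with m h2 h3 h4
  have hm : (0 : ℝ) < m := by exact_mod_cast h4
  have hL : 0 < Real.log m := by linarith
  have hnn : ∀ n, 0 ≤ FinB_f c g n := fun n => abs_nonneg _
  rw [Real.norm_of_nonneg (sum_nonneg fun n _ => hnn n)]
  unfold RG
  rw [← mul_assoc, mul_sum]
  refine sum_le_sum fun n hn => ?_
  obtain ⟨a2, -, a3, -⟩ := h2 n (FinB_mem hn).1 (FinB_mem hn).2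
  have a1 : 1 ≤ Real.log (Real.log (((ps c 0 n).card : ℝ) + 1)) := by linarith
  rw [FinB_split a1]
  refine mul_le_mul_of_nonneg_right ?_ (by positivity)
  have p1 := Real.rpow_pos_of_pos hL g'
  have p2 := Real.rpow_pos_of_pos (show (0 : ℝ) < 2 by norm_num) g'
  have b1 : Real.log m ^ g' / 2 ^ g' ≤
      Real.log (Real.log (((ps c 0 n).card : ℝ) + 1)) ^ g := by
    calc _ = (Real.log m / 2) ^ g' := (Real.div_rpow hL.le (by norm_num) g').symm
      _ ≤ Real.log (Real.log (((ps c 0 n).card : ℝ) + 1)) ^ g' :=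
          Real.rpow_le_rpow (by positivity) a3 h0
      _ ≤ _ := Real.rpow_le_rpow_of_exponent_le a1 hg
  calc _ ≤ 1 / ((2 : ℝ) ^ m / (200 * m) * (Real.log m ^ g' / 2 ^ g')) := by
        apply one_div_le_one_div_of_le (by positivity)
        exact mul_le_mul a2 b1 (by positivity) (by positivity)
    _ = _ := by field_simp

end Pool.Agent.Lib.MP_127c84_nt.EN
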