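import Pool.Agent.Lib.MP_127c84_nt.EN.Main
import Pool.Agent.Lib.MP_0d244d_nt.PS.FinC

open Finset Filter Topology MeasureTheory
open Pool.Agent.Lib.MP_0d244d_nt.PS

namespace Pool.Agent.Lib.MP_127c84_nt.EN

/-- the terms of the series over the primes -/
noncomputable def termP (c g : ℝ) (n : ℕ) : ℝ :=
  1 / (((n : ℝ) + 3) * Real.log (Real.log ((n : ℝ) + 3)) ^ g *
    ((Nat.nth (PSP c) (n + 3) : ℝ) ^ (1 / c) - (Nat.nth (PSP c) (n + 2) : ℝ) ^ (1 / c)))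

lemma link_root {c : ℝ} (hc : 1 < c) : ∀ᶠ m : ℕ in atTop,
    (m : ℝ) - 1 / 2 ≤ (⌊(m : ℝ) ^ c⌋₊ : ℝ) ^ (1 / c) ∧ (⌊(m : ℝ) ^ c⌋₊ : ℝ) ^ (1 / c) ≤ m := by
  have c0 : 0 < c := by linarith
  have t1 : Tendsto (fun m : ℕ => ((m : ℝ) - 1 / 2) ^ (c - 1)) atTop atTop :=
    (tendsto_rpow_atTop (sub_pos.2 hc)).comp
      (tendsto_atTop_add_const_right _ (-(1 / 2)) tendsto_natCast_atTop_atTop)
  filter_upwards [t1.eventually_ge_atTop 2, eventually_ge_atTop 1] with m h1 h2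
  have m1 : (1 : ℝ) ≤ m := by exact_mod_cast h2
  have e : ∀ x : ℝ, 0 ≤ x → (x ^ c) ^ (1 / c) = x := fun x hx => by
    rw [one_div, Real.rpow_rpow_inv hx c0.ne']
  constructor
  · rw [← e ((m : ℝ) - 1 / 2) (by linarith)]
    refine Real.rpow_le_rpow (Real.rpow_nonneg (by linarith) _) ?_ (by positivity)
    have a1 := kerB_cvx (x := (m : ℝ)) (y := (m : ℝ) - 1 / 2) (by linarith) (by linarith) hc.le
    have a2 := Nat.lt_floor_add_one ((m : ℝ) ^ c)
    nlinarith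
  · conv_rhs => rw [← e (m : ℝ) (by linarith)]
    exact Real.rpow_le_rpow (Nat.cast_nonneg _) (Nat.floor_le (by positivity)) (by positivity)

lemma link_nth {c : ℝ} (hc : 1 < c) (h : {n | PR (val c n)}.Infinite) (i : ℕ) :
    Nat.nth (PSP c) i = ⌊(nu c i : ℝ) ^ c⌋₊ := by
  have h1 := (link hc h).1
  rw [← Nat.nth_comp_of_strictMono (finC_mono hc) (fun k hk => by
    obtain ⟨-, n, rfl⟩ := hk
    exact ⟨n, rfl⟩) fun hfi => absurd hfi h1]
  simp only [nu, finC_PR]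

lemma link_cmp {c : ℝ} (hc : 1 < c) (h : {n | PR (val c n)}.Infinite) (g : ℝ) :
    ∀ᶠ n : ℕ in atTop, |termP c g n| ≤ 2 * |term c g n| ∧ |term c g n| ≤ 2 * |termP c g n| := by
  have h3 : StrictMono (nu c) := Nat.nth_strictMono h
  obtain ⟨m0, hm⟩ := eventually_atTop.1 (link_root hc)
  filter_upwards [eventually_ge_atTop m0] with n hn
  have a1 := hm (nu c (n + 2)) (le_trans (show m0 ≤ n + 2 by omega) (h3.id_le (n + 2)))
  have a2 := hm (nu c (n + 3)) (le_trans (show m0 ≤ n + 3 by omega) (h3.id_le (n + 3)))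
  have a3 : (nu c (n + 2) : ℝ) + 1 ≤ nu c (n + 3) := by
    exact_mod_cast h3 (show n + 2 < n + 3 by omega)
  unfold termP term
  rw [link_nth hc h, link_nth hc h]
  set u : ℝ := (⌊(nu c (n + 3) : ℝ) ^ c⌋₊ : ℝ) ^ (1 / c) - (⌊(nu c (n + 2) : ℝ) ^ c⌋₊ : ℝ) ^ (1 / c)
    with hu
  set v : ℝ := (nu c (n + 3) : ℝ) - nu c (n + 2) with hv
  have v1 : 1 ≤ v := by linarith
  have b1 : v ≤ 2 * u := by linarith [a1.2, a2.1]
  have b2 : u ≤ 2 * v := by linarith [a1.1, a2.2]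
  have u0 : 0 < u := by linarith
  have v0 : 0 < v := by linarith
  generalize ((n : ℝ) + 3) * Real.log (Real.log ((n : ℝ) + 3)) ^ g = w
  rw [← one_div_mul_one_div, ← one_div_mul_one_div, abs_mul, abs_mul,
    abs_of_pos (one_div_pos.2 u0), abs_of_pos (one_div_pos.2 v0)]
  have c1 : 1 / u ≤ 2 * (1 / v) := by
    rw [mul_one_div, div_le_div_iff₀ u0 v0]; linarith
  have c2 : 1 / v ≤ 2 * (1 / u) := by
    rw [mul_one_div, div_le_div_iff₀ v0 u0]; linarith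
  have w0 := abs_nonneg (1 / w)
  constructor <;> nlinarith

theorem mainP : ∀ᵐ c : ℝ, 1 < c → c < 3 / 2 →
    {p | PSP c p}.Infinite ∧ ∀ g : ℝ, Summable (termP c g) ↔ 2 < g := by
  filter_upwards [main] with c h h1 h2
  obtain ⟨a1, a2⟩ := h h1 h2
  refine ⟨(link h1 a1).1, fun g => Iff.trans ⟨fun hs => ?_, fun hs => ?_⟩ (a2 g)⟩
  · exact Summable.of_norm_bounded_eventually_nat (hs.abs.mul_left 2)
      ((link_cmp h1 a1 g).mono fun n hn => hn.2)
  · exact Summable.of_norm_bounded_eventually_nat (hs.abs.mul_left 2)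
      ((link_cmp h1 a1 g).mono fun n hn => hn.1)

end Pool.Agent.Lib.MP_127c84_nt.EN
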