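import Pool.Agent.Lib.MP_127c84_nt.EN.AeA
import Pool.Agent.Lib.MP_127c84_nt.EN.AeB
import Pool.Agent.Lib.MP_127c84_nt.EN.AeC
import Pool.Agent.Lib.MP_127c84_nt.EN.FinB

open Finset Filter Topology MeasureTheory
open Pool.Agent.Lib.MP_0d244d_nt.PS

namespace Pool.Agent.Lib.MP_127c84_nt.EN

theorem main_eta {η : ℝ} (h0 : 0 < η) (h1 : η < 1 / 8) :
    ∀ᵐ c : ℝ, c ∈ Set.Icc (1 + η) (3 / 2 - η) →
      {n | PR (val c n)}.Infinite ∧ ∀ g : ℝ, Summable (term c g) ↔ 2 < g := by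
  have hC : ∀ᵐ c : ℝ, ∀ k : ℕ, c ∈ Set.Icc (1 + η) (3 / 2 - η) →
      Summable fun m : ℕ => m / 2 ^ m / Real.log m ^ (2 + 1 / ((k : ℝ) + 1)) *
        RG c (2 ^ m) (2 * 2 ^ m) :=
    ae_all_iff.2 fun k => ae_up h0 h1 (lt_add_of_pos_right _ (by positivity))
  filter_upwards [ae_cnt h0 h1, ae_low h0 h1, hC] with c a1 a2 a3 hc
  obtain ⟨δ, hδ, v, hv, hl⟩ := a2 hc
  refine ⟨cnt_inf (a1 hc), fun g => ⟨fun hs => not_le.1 fun hg => fin_div (a1 hc) hg hδ hv hl hs,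
    fun hg => ?_⟩⟩
  obtain ⟨k, hk⟩ := exists_nat_one_div_lt (sub_pos.2 hg)
  exact fin_conv (a1 hc) (by positivity) (by linarith) (a3 k hc)

theorem main : ∀ᵐ c : ℝ, 1 < c → c < 3 / 2 →
    {n | PR (val c n)}.Infinite ∧ ∀ g : ℝ, Summable (term c g) ↔ 2 < g := by
  have h : ∀ᵐ c : ℝ, ∀ n : ℕ,
      c ∈ Set.Icc (1 + 1 / ((n : ℝ) + 1) / 9) (3 / 2 - 1 / ((n : ℝ) + 1) / 9) →
      {n | PR (val c n)}.Infinite ∧ ∀ g : ℝ, Summable (term c g) ↔ 2 < g := by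
    refine ae_all_iff.2 fun n => main_eta (by positivity) ?_
    have h1 : 1 / ((n : ℝ) + 1) ≤ 1 := by
      rw [div_le_one (by positivity)]
      linarith [Nat.cast_nonneg (α := ℝ) n]
    linarith
  filter_upwards [h] with c hc h1 h2
  obtain ⟨n, hn⟩ := exists_nat_one_div_lt (lt_min (sub_pos.2 h1) (sub_pos.2 h2))
  have hn1 := lt_of_lt_of_le hn (min_le_left _ _)
  have hn2 := lt_of_lt_of_le hn (min_le_right _ _)
  have hp : 0 < 1 / ((n : ℝ) + 1) := by positivity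
  exact hc n ⟨by linarith, by linarith⟩

end Pool.Agent.Lib.MP_127c84_nt.EN
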