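import Pool.Agent.Lib.MP_127c84_nt.EN.Defs

open Finset Filter Topology MeasureTheory
open Pool.Agent.Lib.MP_0d244d_nt.PS

namespace Pool.Agent.Lib.MP_127c84_nt.EN

/-- sizes -/
theorem geo_sizes {N Q D Y : ℕ} {t ρ : ℝ} (h : Geo N Q D Y t ρ) :
    Q ^ 5 * nU N Q * Q ≤ N ∧ N ≤ Q ^ 5 * nU N Q * Q + Q ^ 6 ∧ Q ^ 8 ≤ N ∧
      (allU N Q).card = Q ^ 5 * nU N Q * Q ^ 5 ∧ 0 < Y := by
  have hQ' := h.hQ
  have hY : 0 < Y := lt_of_lt_of_le (by have := h.hD; positivity) h.hY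
  have n1 : Q ^ 24 ≤ N := (Nat.le_mul_of_pos_left _ hY).trans h.s2
  have n2 : Q ^ 6 * nU N Q ≤ N := Nat.mul_div_le N _
  have n3 : N < Q ^ 6 * nU N Q + Q ^ 6 := Nat.lt_mul_div_succ N (by positivity)
  have e : Q ^ 5 * nU N Q * Q = Q ^ 6 * nU N Q := by ring
  refine ⟨e ▸ n2, e ▸ n3.le, le_trans (Nat.pow_le_pow_right (by omega) (by norm_num)) n1, ?_, hY⟩
  rw [allU, card_product, card_range, card_range]

theorem OneG_win {c : ℝ} {n Q : ℕ} {A B : ℤ}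
    (e : ∀ h < Q, val c (n + h) = pt (Q ^ 10) A B h) : win c n Q = hit (Q ^ 10) Q PR A B := by
  ext k
  rw [mem_win, mem_hit]
  constructor
  · rintro ⟨h1, h2⟩
    exact ⟨h1, e k h1 ▸ h2⟩
  · rintro ⟨h1, h2⟩
    exact ⟨h1, (e k h1).symm ▸ h2⟩

theorem OneG_main {N Q D Y : ℕ} {t ρ : ℝ} (h : Geo N Q D Y t ρ) {c : ℝ}
    (hc : c ∈ Set.Ico t (t + ρ)) (F : Finset ℕ → ℝ) {C : ℝ} (hC : 0 < C)
    (hF : ∀ S, S ⊆ range Q → |F S| ≤ C)
    (h2 : ∀ i < Q ^ 5, |∑ x ∈ unit N Q i,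
      (onL Q F (st N Q c x) (sl Q Y t (sb Q Y (st N Q c x))) -
      barS Q Y t (onL Q F) (sb Q Y (st N Q c x)))| ≤ C * (unit N Q i).card / (Q : ℝ) ^ 2)
    (h3 : ∀ i < Q ^ 5, |∑ x ∈ unit N Q i, (badL (Q ^ 10) Q (2 * Q ^ 5) (st N Q c x)
      (sl Q Y t (sb Q Y (st N Q c x))) - barS Q Y t (badL (Q ^ 10) Q (2 * Q ^ 5))
      (sb Q Y (st N Q c x)))| ≤ 1 * (unit N Q i).card / (Q : ℝ) ^ 2) :
    |WS N Q c F - BS N Q Y t c F| ≤ 4 * C * N / (Q : ℝ) ^ 3 := by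
  have hQ : (1000 : ℝ) ≤ Q := by exact_mod_cast h.hQ
  have hQ0 : (0 : ℝ) < Q := by linarith
  obtain ⟨g1, -, -, g4, hY⟩ := geo_sizes h
  have cu : ∀ i, ((unit N Q i).card : ℝ) = nU N Q * (Q : ℝ) ^ 5 := fun i => by
    rw [unit, card_product, Nat.card_Ico, card_range, add_mul, one_mul, Nat.add_sub_cancel_left]
    push_cast
    rfl
  simp only [cu] at h2 h3
  have a2 := oneUnits _ h2 _ le_rfl
  have a3 := (le_abs_self _).trans (oneUnits _ h3 _ le_rfl)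
  have cU : ((allU N Q).card : ℝ) = (Q : ℝ) ^ 5 * nU N Q * (Q : ℝ) ^ 5 := by
    rw [g4]
    push_cast
    rfl
  have e0 : (Q : ℝ) ^ 5 * WS N Q c F = ∑ x ∈ allU N Q, F (win c (N + x.1 * Q) Q) := by
    rw [WS, allU, sum_product, mul_sum]
    simp
  have e00 : (Q : ℝ) ^ 5 * BS N Q Y t c F =
      ∑ x ∈ allU N Q, barS Q Y t (onL Q F) (sb Q Y (st N Q c x)) := by
    rw [BS]
    field_simp
  change |∑ x ∈ allU N Q, _| ≤ _ at a2
  change ∑ x ∈ allU N Q, _ ≤ _ at a3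
  have b1 : |∑ x ∈ allU N Q, (F (win c (N + x.1 * Q) Q) -
      onL Q F (st N Q c x) (sl Q Y t (sb Q Y (st N Q c x))))| ≤
      2 * C * ∑ x ∈ allU N Q, badL (Q ^ 10) Q (2 * Q ^ 5) (st N Q c x)
        (sl Q Y t (sb Q Y (st N Q c x))) := by
    rw [mul_sum]
    refine (abs_sum_le_sum_abs _ _).trans (sum_le_sum fun x hx => ?_)
    rcases oneBad (Q ^ 10) Q (2 * Q ^ 5) (st N Q c x) (sl Q Y t (sb Q Y (st N Q c x))) with e | e
    · rw [OneG_win (apx_line h hc hx e), e, onL]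
      simp
    · rw [e]
      refine (abs_sub _ _).trans ?_
      have k1 := hF _ (win_sub c (N + x.1 * Q) Q)
      have k2 : |onL Q F (st N Q c x) (sl Q Y t (sb Q Y (st N Q c x)))| ≤ C :=
        hF _ (hit_sub _ _ _ _ _)
      linarith
  have b2 : ∑ x ∈ allU N Q, barS Q Y t (badL (Q ^ 10) Q (2 * Q ^ 5)) (sb Q Y (st N Q c x)) ≤
      (allU N Q).card * (1 / (Q : ℝ) ^ 3) := by
    rw [← nsmul_eq_mul]
    exact sum_le_card_nsmul _ _ _ fun x _ => bad_avg (by have := h.hQ; omega) hY t _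
  rw [sum_sub_distrib] at a2 a3 b1
  rw [cU] at b2
  have g1' : (Q : ℝ) ^ 5 * nU N Q * Q ≤ N := by exact_mod_cast g1
  obtain ⟨u, hu⟩ : ∃ u : ℝ, u = (Q : ℝ) ^ 5 * nU N Q * (Q : ℝ) ^ 2 := ⟨_, rfl⟩
  have hu0 : 0 ≤ u := by rw [hu]; positivity
  have hu1 : u ≤ N * Q := by
    rw [hu, show (Q : ℝ) ^ 5 * nU N Q * (Q : ℝ) ^ 2 = (Q : ℝ) ^ 5 * nU N Q * Q * Q by ring]
    exact mul_le_mul_of_nonneg_right g1' hQ0.le
  have e1 : ((Q ^ 5 : ℕ) : ℝ) * (C * (nU N Q * (Q : ℝ) ^ 5) / (Q : ℝ) ^ 2) = C * (u * Q) := by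
    rw [hu]
    push_cast
    field_simp
  have e2 : ((Q ^ 5 : ℕ) : ℝ) * (1 * (nU N Q * (Q : ℝ) ^ 5) / (Q : ℝ) ^ 2) = u * Q := by
    rw [hu]
    push_cast
    field_simp
  have e3 : (Q : ℝ) ^ 5 * nU N Q * (Q : ℝ) ^ 5 * (1 / (Q : ℝ) ^ 3) = u := by
    rw [hu]
    field_simp
  rw [e1] at a2
  rw [e2] at a3
  rw [e3] at b2
  have b4 := mul_le_mul_of_nonneg_left ((sub_le_iff_le_add.1 a3).trans (add_le_add_right b2 _))
    (show 0 ≤ 2 * C by positivity)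
  have q5 : (0 : ℝ) < (Q : ℝ) ^ 5 := by positivity
  have e4 : (Q : ℝ) ^ 5 * (4 * C * N / (Q : ℝ) ^ 3) = 4 * C * (N * Q * Q) := by
    field_simp
  have b5 : u * Q ≤ N * Q * Q := mul_le_mul_of_nonneg_right hu1 hQ0.le
  have b6 : 2 * u ≤ u * Q := by nlinarith
  have b7 : C * (3 * (u * Q) + 2 * u) ≤ C * (4 * (N * Q * Q)) :=
    mul_le_mul_of_nonneg_left (by linarith) hC.le
  refine le_of_mul_le_mul_left ?_ q5
  rw [← abs_of_pos q5, ← abs_mul, abs_of_pos q5, mul_sub, e0, e00, e4]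
  rw [abs_le] at a2 b1 ⊢
  constructor <;> nlinarith [a2.1, a2.2, b1.1, b1.2]

/-- one interval of exponents: window sums follow the block averages -/
theorem one_gen {N Q D Y : ℕ} {t ρ : ℝ} (h : Geo N Q D Y t ρ) (F : Finset ℕ → ℝ) {C : ℝ}
    (hC : 0 < C) (hF : ∀ S, S ⊆ range Q → |F S| ≤ C) :
    volume {c | c ∈ Set.Ico t (t + ρ) ∧
      4 * C * N / (Q : ℝ) ^ 3 < |WS N Q c F - BS N Q Y t c F|} ≤
      ENNReal.ofReal (4 * ρ / (Q : ℝ) ^ 2) := by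
  have hQ : (1000 : ℝ) ≤ Q := by exact_mod_cast h.hQ
  have hρ := h.ρ_pos
  have c1 : ∀ A B, |onL Q F A B| ≤ C := fun A B => hF _ (hit_sub _ _ _ _ _)
  have c3 : ∀ A B, |badL (Q ^ 10) Q (2 * Q ^ 5) A B| ≤ 1 := fun A B => by
    rcases oneBad (Q ^ 10) Q (2 * Q ^ 5) A B with e | e <;> simp [e]
  let E : (ℤ → ℤ → ℝ) → ℝ → ℕ → Set ℝ := fun Ψ C i =>
    {c | c ∈ Set.Ico t (t + ρ) ∧ C * (unit N Q i).card / (Q : ℝ) ^ 2 <
      |∑ x ∈ unit N Q i, (Ψ (st N Q c x) (sl Q Y t (sb Q Y (st N Q c x))) -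
        barS Q Y t Ψ (sb Q Y (st N Q c x)))|}
  refine le_trans (measure_mono (t := ⋃ i ∈ range (Q ^ 5), (E (onL Q F) C i ∪
    E (badL (Q ^ 10) Q (2 * Q ^ 5)) 1 i)) ?_) ?_
  swap
  · refine (measure_biUnion_finset_le _ _).trans ((sum_le_sum
      (g := fun _ => ENNReal.ofReal (4 * ρ / (Q : ℝ) ^ 7)) fun i hi => ?_).trans ?_)
    · have p : 0 ≤ 2 * ρ / (Q : ℝ) ^ 7 := by positivity
      rw [show 4 * ρ / (Q : ℝ) ^ 7 = 2 * ρ / (Q : ℝ) ^ 7 + 2 * ρ / (Q : ℝ) ^ 7 by ring,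
        ENNReal.ofReal_add p p]
      exact (measure_union_le _ _).trans (add_le_add
        (conc_unit h (mem_range.1 hi) _ hC c1) (conc_unit h (mem_range.1 hi) _ one_pos c3))
    · rw [← ENNReal.ofReal_sum_of_nonneg fun _ _ => by positivity, sum_const, card_range,
        nsmul_eq_mul]
      refine ENNReal.ofReal_le_ofReal (le_of_eq ?_)
      push_cast
      field_simp
  rintro c ⟨hc, hb⟩
  by_contra hn
  simp only [Set.mem_iUnion, Set.mem_union, mem_range, not_exists, not_or, E, Set.mem_ofPred_eq,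
    not_and, not_lt] at hn
  exact absurd hb (not_lt.2 (OneG_main h hc F hC hF (fun i hi => (hn i hi).1 hc)
    fun i hi => (hn i hi).2 hc))

/-- each block is visited a bounded number of times -/
theorem xi_sum {N Q D Y : ℕ} {t ρ : ℝ} (h : Geo N Q D Y t ρ) {c : ℝ}
    (hc : c ∈ Set.Ico t (t + ρ)) {ξ : ℕ → ℝ} (h0 : ∀ s, 0 ≤ ξ s) :
    ∑ x ∈ allU N Q, ξ (sb Q Y (st N Q c x)).toNat ≤
      (Q : ℝ) ^ 5 * (2 * Y / (D * Q) * ∑ s ∈ SR (N * D) Y, ξ s) := by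
  rw [← sum_fiberwise_of_maps_to (t := SR (N * D) Y) (g := fun x => (sb Q Y (st N Q c x)).toNat)
    fun x hx => by
      obtain ⟨s, s1, s2, -⟩ := apx_range h hc hx
      rwa [s2, Int.toNat_natCast]]
  calc _ ≤ ∑ s ∈ SR (N * D) Y, (Q : ℝ) ^ 5 * (2 * Y / (D * Q)) * ξ s := sum_le_sum fun s _ => by
        rw [sum_congr rfl fun x hx => congrArg ξ (mem_filter.1 hx).2, sum_const, nsmul_eq_mul]
        refine mul_le_mul_of_nonneg_right (le_trans (Nat.cast_le.2 (card_le_card fun x hx => ?_))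
          (vis_up h hc s)) (h0 s)
        obtain ⟨h2, h3⟩ := mem_filter.1 hx
        obtain ⟨s', -, s2, -⟩ := apx_range h hc h2
        rw [s2, Int.toNat_natCast] at h3
        exact mem_filter.2 ⟨h2, h3 ▸ s2⟩
    _ = _ := by rw [← mul_sum, mul_assoc]

end Pool.Agent.Lib.MP_127c84_nt.EN
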