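import Pool.Agent.Lib.MP_127c84_nt.EN.OneG
import Pool.Agent.Lib.MP_127c84_nt.EN.DetLo
import Pool.Agent.Lib.MP_127c84_nt.EN.DetUp

open Finset Filter Topology MeasureTheory
open Pool.Agent.Lib.MP_0d244d_nt.PS

namespace Pool.Agent.Lib.MP_127c84_nt.EN

lemma Pt_num {N Q D Y : ℕ} {t ρ : ℝ} (h : Geo N Q D Y t ρ) :
    N + Q ^ 5 * nU N Q * Q ≤ 2 * N ∧
      ((2 * N - (N + Q ^ 5 * nU N Q * Q) : ℕ) : ℝ) ≤ N / (Q : ℝ) ^ 2 ∧
      ((allU N Q).card : ℝ) * Q ≤ (Q : ℝ) ^ 5 * N ∧ (1 : ℝ) < N := by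
  obtain ⟨a1, a2, a3, a4, -⟩ := geo_sizes h
  have hQ := h.hQ
  have q : (0 : ℝ) < Q := by positivity
  refine ⟨by omega, ?_, ?_, ?_⟩
  · rw [le_div_iff₀ (by positivity)]
    have b1 : 2 * N - (N + Q ^ 5 * nU N Q * Q) ≤ Q ^ 6 := by omega
    have b2 : (2 * N - (N + Q ^ 5 * nU N Q * Q)) * Q ^ 2 ≤ N :=
      (Nat.mul_le_mul_right _ b1).trans (by rw [← pow_add]; exact a3)
    exact_mod_cast b2
  · have b : (allU N Q).card * Q ≤ Q ^ 5 * N := by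
      rw [a4, mul_right_comm, mul_comm]
      exact Nat.mul_le_mul_left _ a1
    exact_mod_cast b
  · have b : 1 < N := lt_of_lt_of_le (Nat.one_lt_pow (by norm_num) (by omega)) a3
    exact_mod_cast b

lemma Pt_BS {N Q : ℕ} (hQ : 0 < Q) (Y : ℕ) (t c : ℝ) (F : Finset ℕ → ℝ) :
    (Q : ℝ) ^ 5 * BS N Q Y t c F = ∑ x ∈ allU N Q, barS Q Y t (onL Q F) (sb Q Y (st N Q c x)) :=
  mul_div_cancel₀ _ (by positivity)

theorem cnt_two {N Q D Y : ℕ} {t ρ : ℝ} (h : Geo N Q D Y t ρ) {c : ℝ}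
    (hc : c ∈ Set.Ico t (t + ρ)) (hY : D * Q ^ 5 ≤ Y) {β : ℝ} (hβ : 0 ≤ β)
    (hb : ∀ s ∈ SR (N * D) Y, piB Y s ≤ β * Y)
    (hv : (Q : ℝ) ^ 5 * (N / (80 * Real.log N)) ≤
      ∑ x ∈ allU N Q, Q * (piB Y (sb Q Y (st N Q c x)) / Y))
    (hd : |WS N Q c Fc - BS N Q Y t c Fc| ≤ 4 * Q * N / (Q : ℝ) ^ 3) :
    N / (80 * Real.log N) - 8 * N / (Q : ℝ) ^ 2 ≤ (ps c N (2 * N)).card ∧
      ((ps c N (2 * N)).card : ℝ) ≤ β * N + 9 * N / (Q : ℝ) ^ 2 := by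
  obtain ⟨a1, a2, a3, a4⟩ := Pt_num h
  have hQ := h.hQ
  have y0 := (geo_sizes h).2.2.2.2
  have q : (1000 : ℝ) ≤ Q := by exact_mod_cast hQ
  have y : (0 : ℝ) < Y := by exact_mod_cast y0
  have q5 : (0 : ℝ) < (Q : ℝ) ^ 5 := by positivity
  have e1 : WS N Q c Fc = (ps c N (N + Q ^ 5 * nU N Q * Q)).card := by
    rw [ps_windows, Nat.cast_sum]
    exact sum_congr rfl fun k _ => congrArg Nat.cast (card_win c _ Q)
  have e2 := ps_card_split c (Nat.le_add_right N _) a1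
  have e3 : ((ps c (N + Q ^ 5 * nU N Q * Q) (2 * N)).card : ℝ) ≤ N / (Q : ℝ) ^ 2 := by
    refine le_trans (Nat.cast_le.2 ?_) a2
    rw [← Nat.card_Ico]
    exact card_le_card fun n hn => mem_Ico.2 (mem_ps.1 hn).1
  have b0 : 4 * D * (Q : ℝ) ^ 2 / Y ≤ Q * (4 / (Q : ℝ) ^ 2) := by
    have b : (D : ℝ) * (Q : ℝ) ^ 5 ≤ Y := by exact_mod_cast hY
    have b' : (D : ℝ) * (Q : ℝ) ^ 3 ≤ D * (Q : ℝ) ^ 5 :=
      mul_le_mul_of_nonneg_left (pow_le_pow_right₀ (by linarith) (by norm_num)) (by positivity)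
    rw [show (Q : ℝ) * (4 / (Q : ℝ) ^ 2) = 4 / Q by field_simp,
      div_le_div_iff₀ y (by linarith)]
    nlinarith
  have b1 : |∑ x ∈ allU N Q, (barS Q Y t (onL Q Fc) (sb Q Y (st N Q c x)) -
      Q * (piB Y (sb Q Y (st N Q c x)) / Y))| ≤ (Q : ℝ) ^ 5 * (4 * (N / (Q : ℝ) ^ 2)) := by
    refine (abs_sum_le_sum_abs _ _).trans ((sum_le_card_nsmul _ _ (Q * (4 / (Q : ℝ) ^ 2) : ℝ)
      fun x hx => ?_).trans ?_)
    · obtain ⟨s, -, s2, s3, s4⟩ := apx_range h hc hx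
      rw [s2]
      exact (bar_cnt (by omega) y0 t s (le_trans (by positivity) s3) s4.le).trans b0
    · rw [nsmul_eq_mul, ← mul_assoc]
      refine (mul_le_mul_of_nonneg_right a3 (by positivity)).trans_eq ?_
      ring
  have b2 : ∑ x ∈ allU N Q, Q * (piB Y (sb Q Y (st N Q c x)) / Y) ≤ (Q : ℝ) ^ 5 * (β * N) := by
    refine (sum_le_card_nsmul _ _ (Q * β : ℝ) fun x hx => ?_).trans ?_
    · obtain ⟨s, s1, s2, -⟩ := apx_range h hc hx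
      rw [s2]
      exact mul_le_mul_of_nonneg_left ((div_le_iff₀ y).2 (hb s s1)) (by positivity)
    · rw [nsmul_eq_mul, ← mul_assoc]
      refine (mul_le_mul_of_nonneg_right a3 hβ).trans_eq ?_
      ring
  rw [sum_sub_distrib, ← Pt_BS (by omega), abs_le] at b1
  have b3 : N / (80 * Real.log N) - 4 * (N / (Q : ℝ) ^ 2) ≤ BS N Q Y t c Fc :=
    le_of_mul_le_mul_left (by rw [mul_sub]; linarith [b1.1]) q5
  have b4 : BS N Q Y t c Fc ≤ β * N + 4 * (N / (Q : ℝ) ^ 2) :=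
    le_of_mul_le_mul_left (by rw [mul_add]; linarith [b1.2]) q5
  rw [show 4 * Q * N / (Q : ℝ) ^ 3 = 4 * (N / (Q : ℝ) ^ 2) by field_simp, e1, abs_le] at hd
  have e4 : (0 : ℝ) ≤ (ps c (N + Q ^ 5 * nU N Q * Q) (2 * N)).card := Nat.cast_nonneg _
  rw [e2, Nat.cast_add, mul_div_assoc, mul_div_assoc]
  constructor <;> linarith [hd.1, hd.2]

theorem low_one {N Q D Y : ℕ} {t ρ : ℝ} (h : Geo N Q D Y t ρ) {c : ℝ}
    (hc : c ∈ Set.Ico t (t + ρ)) (I : Finset ℕ) {ξ : ℕ → ℝ} (h0 : ∀ s, 0 ≤ ξ s)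
    (hm : ∀ s ∈ SR (N * D) Y, ((Q ^ 10 : ℕ) : ℤ) * D ≤ sl Q Y t s →
      sl Q Y t s < 4 * (((Q ^ 10 : ℕ) : ℤ) * D) →
      I.card * (Q * (piB Y s / Y) ^ 2) / 8 - ξ s ≤ barS Q Y t (onL Q (Flo I Q)) s)
    (hv : (Q : ℝ) ^ 5 * (N / (80 * Real.log N)) ≤
      ∑ x ∈ allU N Q, Q * (piB Y (sb Q Y (st N Q c x)) / Y))
    (hd : |WS N Q c (Flo I Q) - BS N Q Y t c (Flo I Q)| ≤ 4 * Q * N / (Q : ℝ) ^ 3) :
    I.card * (N / (8 * (80 * Real.log N) ^ 2)) - 2 * Y / (D * Q) * ∑ s ∈ SR (N * D) Y, ξ s -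
      4 * N / (Q : ℝ) ^ 2 ≤ RG c N (2 * N) := by
  obtain ⟨a1, -, a3, a4⟩ := Pt_num h
  have hQ := h.hQ
  have q : (1000 : ℝ) ≤ Q := by exact_mod_cast hQ
  have q5 : (0 : ℝ) < (Q : ℝ) ^ 5 := by positivity
  have lg := Real.log_pos a4
  have e1 : WS N Q c (Flo I Q) ≤ RG c N (2 * N) := by
    rw [RG_split c (Nat.le_add_right N _) a1, RG_windows]
    exact le_add_of_le_of_nonneg (sum_le_sum fun k _ => Flo_gap I c _ Q) (RG_nonneg _ _ _)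
  have b1 : ∑ x ∈ allU N Q, (I.card * (Q * (piB Y (sb Q Y (st N Q c x)) / Y) ^ 2) / 8 -
      ξ (sb Q Y (st N Q c x)).toNat) ≤ (Q : ℝ) ^ 5 * BS N Q Y t c (Flo I Q) := by
    rw [Pt_BS (by omega)]
    refine sum_le_sum fun x hx => ?_
    obtain ⟨s, s1, s2, s3, s4⟩ := apx_range h hc hx
    rw [s2, Int.toNat_natCast]
    exact hm s s1 s3 s4
  have b2 := xi_sum h hc h0
  have b3 := sq_sum_le_card_mul_sum_sq (s := allU N Q)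
    (f := fun x => piB Y (sb Q Y (st N Q c x)) / Y)
  rw [sum_sub_distrib, ← sum_div, ← mul_sum, ← mul_sum] at b1
  rw [← mul_sum] at hv
  have b4 : 0 ≤ ∑ x ∈ allU N Q, (piB Y (sb Q Y (st N Q c x)) / Y) ^ 2 :=
    sum_nonneg fun _ _ => sq_nonneg _
  generalize ∑ x ∈ allU N Q, (piB Y (sb Q Y (st N Q c x)) / Y) ^ 2 = S2 at b1 b3 b4
  generalize ∑ x ∈ allU N Q, piB Y (sb Q Y (st N Q c x)) / Y = S1 at hv b3
  have b5 : (Q : ℝ) ^ 5 * (N / (80 * Real.log N) ^ 2) ≤ Q * S2 := by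
    refine le_of_mul_le_mul_left ?_ (show (0 : ℝ) < (Q : ℝ) ^ 5 * N by positivity)
    calc _ = ((Q : ℝ) ^ 5 * (N / (80 * Real.log N))) ^ 2 := by field_simp
      _ ≤ (Q * S1) ^ 2 := pow_le_pow_left₀ (by positivity) hv 2
      _ = (Q : ℝ) ^ 2 * S1 ^ 2 := by ring
      _ ≤ (Q : ℝ) ^ 2 * ((allU N Q).card * S2) := mul_le_mul_of_nonneg_left b3 (by positivity)
      _ = (allU N Q).card * Q * (Q * S2) := by ring
      _ ≤ _ := mul_le_mul_of_nonneg_right a3 (by positivity)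
  have b6 := mul_le_mul_of_nonneg_left b5 (Nat.cast_nonneg (α := ℝ) I.card)
  have b7 : I.card * (N / (8 * (80 * Real.log N) ^ 2)) -
      2 * Y / (D * Q) * ∑ s ∈ SR (N * D) Y, ξ s ≤ BS N Q Y t c (Flo I Q) := by
    refine le_of_mul_le_mul_left ?_ q5
    rw [mul_sub, show (Q : ℝ) ^ 5 * (I.card * (N / (8 * (80 * Real.log N) ^ 2))) =
      I.card * ((Q : ℝ) ^ 5 * (N / (80 * Real.log N) ^ 2)) / 8 by field_simp]
    linarith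
  rw [show 4 * Q * N / (Q : ℝ) ^ 3 = 4 * N / (Q : ℝ) ^ 2 by field_simp, abs_le] at hd
  linarith [hd.1]

theorem up_one {N Q D Y : ℕ} {t ρ : ℝ} (h : Geo N Q D Y t ρ) {c : ℝ}
    (hc : c ∈ Set.Ico t (t + ρ)) {ξ : ℕ → ℝ} (h0 : ∀ s, 0 ≤ ξ s)
    (hm : ∀ s ∈ SR (N * D) Y, ((Q ^ 10 : ℕ) : ℤ) * D ≤ sl Q Y t s →
      sl Q Y t s < 4 * (((Q ^ 10 : ℕ) : ℤ) * D) → barS Q Y t (onL Q (Fup Q)) s ≤ ξ s)
    (hd : |WS N Q c (Fup Q) - BS N Q Y t c (Fup Q)| ≤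
      4 * (2 * Q * (1 + Real.log Q)) * N / (Q : ℝ) ^ 3) :
    RG c N (2 * N) ≤ 2 * Y / (D * Q) * ∑ s ∈ SR (N * D) Y, ξ s +
      9 * N * (1 + Real.log Q) / (Q : ℝ) ^ 2 := by
  obtain ⟨a1, a2, -, a4⟩ := Pt_num h
  have hQ := h.hQ
  have q : (1000 : ℝ) ≤ Q := by exact_mod_cast hQ
  have q5 : (0 : ℝ) < (Q : ℝ) ^ 5 := by positivity
  have lg := Real.log_nonneg (show (1 : ℝ) ≤ Q by linarith)
  have e1 : RG c N (2 * N) ≤ WS N Q c (Fup Q) + N / (Q : ℝ) ^ 2 := by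
    rw [RG_split c (Nat.le_add_right N _) a1, RG_windows]
    exact add_le_add (sum_le_sum fun k _ => gap_Fup c _ Q) ((RG_le _ _ _).trans a2)
  have b1 : BS N Q Y t c (Fup Q) ≤ 2 * Y / (D * Q) * ∑ s ∈ SR (N * D) Y, ξ s := by
    refine le_of_mul_le_mul_left (le_trans ?_ (xi_sum h hc h0)) q5
    rw [Pt_BS (by omega)]
    refine sum_le_sum fun x hx => ?_
    obtain ⟨s, s1, s2, s3, s4⟩ := apx_range h hc hx
    rw [s2, Int.toNat_natCast]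
    exact hm s s1 s3 s4
  have b2 : N / (Q : ℝ) ^ 2 ≤ N / (Q : ℝ) ^ 2 * (1 + Real.log Q) :=
    le_mul_of_one_le_right (by positivity) (by linarith)
  rw [show 4 * (2 * Q * (1 + Real.log Q)) * N / (Q : ℝ) ^ 3 =
    8 * (N / (Q : ℝ) ^ 2 * (1 + Real.log Q)) by field_simp; ring, abs_le] at hd
  rw [show 9 * N * (1 + Real.log Q) / (Q : ℝ) ^ 2 =
    9 * (N / (Q : ℝ) ^ 2 * (1 + Real.log Q)) by ring]
  linarith [hd.2]

end Pool.Agent.Lib.MP_127c84_nt.EN
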